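import Pool.Agent.Helper43.OL.St

set_option autoImplicit false

namespace Pool.Agent.Helper43.OL

open Finset

theorem hBS (hVM : StVM) : StBS := by
  intro b t Ft hS w
  have h := hVM b t (fun S => (2 : ℝ) ^ (Ft S)) (Real.exp (4 * t / b)) (Real.exp_pos _).le
    (fun S => by positivity) ?_ w
  · have e1 : (Real.exp (4 * t / b)) ^ w = Real.exp (4 * t * w / b) := by
      rw [← Real.exp_nat_mul]
      congr 1
      ring
    rw [e1] at h
    refine le_trans (le_of_eq ?_) h
    refine Finset.sum_congr rfl fun W _ => ?_
    exact (Finset.prod_pow_eq_pow_sum univ (fun i => Ft (ch W i)) (2 : ℝ)).symm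
  · intro v
    have e1 : (Real.exp (4 * t / b)) ^ v = Real.exp (4 * t * v / b) := by
      rw [← Real.exp_nat_mul]
      congr 1
      ring
    rw [e1]
    exact hS v

end Pool.Agent.Helper43.OL
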