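import Pool.Agent.Helper43.OL.St

/-!
Project OL (MP_ff53f3), module CF: few conflicts inside every set.
-/

set_option autoImplicit false

namespace Pool.Agent.Helper43.OL

open Finset

open Classical in
private theorem split_CF {b t : ℕ} (H : Tm b) (cd : V b (t + 1) → Finset ℕ) (W : Finset (V b (t + 1))) :
    cfc (AB H (t + 1)) cd W ≤ (∑ i, cfc (AB H t) (fun y => cd (cns i y)) (ch W i)) +
      ((H t).filter fun p => (p.1 ∈ W ∧ p.2 ∈ W) ∧ ¬ Disjoint (cd p.1) (cd p.2)).card := by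
  have hsub : ((W ×ˢ W).filter fun p => AB H (t + 1) p.1 p.2 ∧ ¬ Disjoint (cd p.1) (cd p.2)) ⊆
      ((univ : Finset (Fin b)).biUnion fun i =>
        (((ch W i) ×ˢ (ch W i)).filter fun q => AB H t q.1 q.2 ∧
          ¬ Disjoint (cd (cns i q.1)) (cd (cns i q.2))).image
            (fun q => ((cns i q.1, cns i q.2) : V b (t + 1) × V b (t + 1)))) ∪
      ((H t).filter fun p => (p.1 ∈ W ∧ p.2 ∈ W) ∧ ¬ Disjoint (cd p.1) (cd p.2)) := by
    rintro ⟨x, y⟩ hp
    rw [mem_filter, mem_product] at hp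
    obtain ⟨⟨hx, hy⟩, hab, hd'⟩ := hp
    simp only at hx hy hab hd'
    rw [mem_union]
    rcases hab with ⟨h1, h2⟩ | h1
    · left
      rw [mem_biUnion]
      refine ⟨hd x, mem_univ _, ?_⟩
      rw [mem_image]
      refine ⟨(tl x, tl y), ?_, ?_⟩
      · rw [mem_filter, mem_product]
        have e2 : cns (hd x) (tl y) = y := by rw [h1]; exact cns_eta y
        refine ⟨⟨?_, ?_⟩, h2, ?_⟩
        · simpa using hx
        · rw [mem_ch]
          simp only [e2]
          exact hy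
        · simp only [e2, cns_eta]
          exact hd'
      · have e2 : cns (hd x) (tl y) = y := by rw [h1]; exact cns_eta y
        simp only [e2, cns_eta]
    · right
      rw [mem_filter]
      exact ⟨h1, ⟨hx, hy⟩, hd'⟩
  unfold cfc
  refine (card_le_card hsub).trans ((card_union_le _ _).trans ?_)
  refine Nat.add_le_add_right (card_biUnion_le.trans ?_) _
  exact sum_le_sum fun i _ => card_image_le

private theorem deg_CF {α : Type} [DecidableEq α] (T : Finset (α × α)) (Q : Finset α) (k : ℕ)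
    (h1 : ∀ x, (T.filter fun p => p.1 = x).card ≤ k) (h2 : ∀ y, (T.filter fun p => p.2 = y).card ≤ k)
    (S : Finset (α × α)) (hS : S ⊆ T) (hQ : ∀ p ∈ S, p.1 ∈ Q ∨ p.2 ∈ Q) :
    S.card ≤ 2 * k * Q.card := by
  have hsub : S ⊆ (Q.biUnion fun x => T.filter fun p => p.1 = x) ∪
      (Q.biUnion fun x => T.filter fun p => p.2 = x) := by
    intro p hp
    rw [mem_union, mem_biUnion, mem_biUnion]
    rcases hQ p hp with h | h
    · exact Or.inl ⟨p.1, h, by rw [mem_filter]; exact ⟨hS hp, rfl⟩⟩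
    · exact Or.inr ⟨p.2, h, by rw [mem_filter]; exact ⟨hS hp, rfl⟩⟩
  refine (card_le_card hsub).trans ((card_union_le _ _).trans ?_)
  have a1 : (Q.biUnion fun x => T.filter fun p => p.1 = x).card ≤ Q.card * k :=
    card_biUnion_le_card_mul _ _ _ fun x _ => h1 x
  have a2 : (Q.biUnion fun x => T.filter fun p => p.2 = x).card ≤ Q.card * k :=
    card_biUnion_le_card_mul _ _ _ fun x _ => h2 x
  calc _ ≤ Q.card * k + Q.card * k := Nat.add_le_add a1 a2
    _ = 2 * k * Q.card := by ring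

open Classical in
private theorem few_CF {κ t : ℕ} (H : Tm (bb κ)) (cd : V (bb κ) (t + 1) → Finset ℕ) (hP : H t ⊆ P0 (bb κ) t)
    (hD : DegP (H t)) (Q : Finset (V (bb κ) (t + 1)))
    (hQ : (Q.card : ℝ) ≤ 2 * (1 / (bb κ : ℝ) ^ 25) * (2 * (bb κ : ℝ) ^ (t + 1)))
    (hQ2 : ∀ x y, x ∉ Q → y ∉ Q → side (t + 1) x = false → side (t + 1) y = true → Disjoint (cd x) (cd y))
    (W : Finset (V (bb κ) (t + 1))) (hg : ¬ GG κ ≤ gg (bb κ) (t + 1) W.card) :
    bb κ * ((H t).filter fun p => (p.1 ∈ W ∧ p.2 ∈ W) ∧ ¬ Disjoint (cd p.1) (cd p.2)).card ≤ W.card := by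
  rcases W.eq_empty_or_nonempty with rfl | hW
  · simp
  have hw : 0 < W.card := hW.card_pos
  have hb8 : 8 ≤ bb κ := by
    unfold bb be
    calc 8 = 2 ^ 3 := by norm_num
      _ ≤ 2 ^ (2 * κ + 10) := Nat.pow_le_pow_right (by norm_num) (by omega)
  have hS : ((H t).filter fun p => (p.1 ∈ W ∧ p.2 ∈ W) ∧ ¬ Disjoint (cd p.1) (cd p.2)).card
      ≤ 2 * (bb κ) ^ 3 * Q.card := by
    refine deg_CF (H t) Q ((bb κ) ^ 3) ?_ ?_ _ (filter_subset _ _) ?_
    · intro x
      convert hD.1 x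
    · intro x
      convert hD.2 x
    · intro p hp
      rw [mem_filter] at hp
      obtain ⟨hpT, -, hnd⟩ := hp
      by_contra hcon
      push Not at hcon
      have hp0 := hP hpT
      unfold P0 at hp0
      rw [mem_filter] at hp0
      exact hnd (hQ2 p.1 p.2 hcon.1 hcon.2 hp0.2.1 hp0.2.2.1)
  -- b^(t+1) < b^20 * |W|
  have hlt : (bb κ) ^ (t + 1) < (bb κ) ^ 20 * W.card := by
    have h1 : Nat.log 2 ((bb κ) ^ (t + 1) / W.card) < GG κ := by
      unfold gg at hg
      omega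
    have h2 : (bb κ) ^ (t + 1) / W.card < 2 ^ (GG κ) := Nat.lt_pow_of_log_lt (by norm_num) h1
    have h3 : 2 ^ (GG κ) = (bb κ) ^ 20 := by
      unfold GG bb
      rw [← pow_mul, Nat.mul_comm]
    rw [h3] at h2
    exact (Nat.div_lt_iff_lt_mul hw).1 h2
  have hbR : (8 : ℝ) ≤ (bb κ : ℝ) := by exact_mod_cast hb8
  have hb0 : (0 : ℝ) < (bb κ : ℝ) := by linarith
  have hltR : (bb κ : ℝ) ^ (t + 1) ≤ (bb κ : ℝ) ^ 20 * W.card := by exact_mod_cast hlt.le
  have hSR : ((((H t).filter fun p => (p.1 ∈ W ∧ p.2 ∈ W) ∧ ¬ Disjoint (cd p.1) (cd p.2)).card : ℕ) : ℝ)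
      ≤ 2 * (bb κ : ℝ) ^ 3 * Q.card := by exact_mod_cast hS
  have hQ3 : (Q.card : ℝ) ≤ 4 * W.card / (bb κ : ℝ) ^ 5 := by
    refine hQ.trans ?_
    rw [le_div_iff₀ (by positivity)]
    have e1 : 2 * (1 / (bb κ : ℝ) ^ 25) * (2 * (bb κ : ℝ) ^ (t + 1)) * (bb κ : ℝ) ^ 5
        = 4 * ((bb κ : ℝ) ^ (t + 1) / (bb κ : ℝ) ^ 20) := by
      field_simp
      ring
    rw [e1]
    have e2 : (bb κ : ℝ) ^ (t + 1) / (bb κ : ℝ) ^ 20 ≤ W.card := by
      rw [div_le_iff₀ (by positivity)]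
      linarith [hltR, mul_comm ((bb κ : ℝ) ^ 20) (W.card : ℝ)]
    linarith
  have hfin : (bb κ : ℝ) * ((((H t).filter fun p => (p.1 ∈ W ∧ p.2 ∈ W) ∧
      ¬ Disjoint (cd p.1) (cd p.2)).card : ℕ) : ℝ) ≤ W.card := by
    calc (bb κ : ℝ) * ((((H t).filter fun p => (p.1 ∈ W ∧ p.2 ∈ W) ∧
          ¬ Disjoint (cd p.1) (cd p.2)).card : ℕ) : ℝ)
        ≤ (bb κ : ℝ) * (2 * (bb κ : ℝ) ^ 3 * (4 * W.card / (bb κ : ℝ) ^ 5)) := by
          refine mul_le_mul_of_nonneg_left (hSR.trans ?_) hb0.le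
          exact mul_le_mul_of_nonneg_left hQ3 (by positivity)
      _ = 8 * W.card / (bb κ : ℝ) := by
          field_simp
          ring
      _ ≤ W.card := by
          rw [div_le_iff₀ hb0]
          have : (0 : ℝ) ≤ W.card := Nat.cast_nonneg _
          nlinarith
  exact_mod_cast hfin

private theorem main_CF {κ : ℕ} (H : Tm (bb κ)) (hP : ∀ t, H t ⊆ P0 (bb κ) t)
    (hD : ∀ t < DD κ, DegP (H t)) : ∀ (t : ℕ), t ≤ DD κ → ∀ cd : V (bb κ) t → Finset ℕ,
    Conf (1 / (bb κ : ℝ) ^ 25) t cd → ∀ W,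
      bb κ * cfc (AB H t) cd W ≤ bb κ * Ecl (fun g => GG κ ≤ g) H t W + t * W.card
  | 0, _, cd, _, W => by
      have : cfc (AB H 0) cd W = 0 := by
        unfold cfc
        classical
        rw [card_eq_zero, filter_eq_empty_iff]
        intro p _ h
        exact h.1
      rw [this]
      simp
  | (t + 1), ht, cd, hC, W => by
      classical
      obtain ⟨⟨Q, hQ, hQ2⟩, hch⟩ := hC
      have ih : ∀ i, bb κ * cfc (AB H t) (fun y => cd (cns i y)) (ch W i) ≤
          bb κ * Ecl (fun g => GG κ ≤ g) H t (ch W i) + t * (ch W i).card := fun i =>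
        main_CF H hP hD t (by omega) _ (hch i) (ch W i)
      have hs := split_CF H cd W
      have hsum : bb κ * (∑ i, cfc (AB H t) (fun y => cd (cns i y)) (ch W i)) ≤
          bb κ * (∑ i, Ecl (fun g => GG κ ≤ g) H t (ch W i)) + t * W.card := by
        rw [card_eq_sum_ch W, mul_sum, mul_sum, mul_sum, ← sum_add_distrib]
        exact sum_le_sum fun i _ => ih i
      have hE : Ecl (fun g => GG κ ≤ g) H (t + 1) W = (∑ i, Ecl (fun g => GG κ ≤ g) H t (ch W i)) +
          if GG κ ≤ gg (bb κ) (t + 1) W.card then en (H t) W else 0 := rfl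
      rw [hE]
      by_cases hg : GG κ ≤ gg (bb κ) (t + 1) W.card
      · rw [if_pos hg]
        have hN : ((H t).filter fun p => (p.1 ∈ W ∧ p.2 ∈ W) ∧ ¬ Disjoint (cd p.1) (cd p.2)).card ≤
            en (H t) W := by
          unfold en
          refine card_le_card fun p hp => ?_
          rw [mem_filter] at hp ⊢
          exact ⟨hp.1, hp.2.1⟩
        calc bb κ * cfc (AB H (t + 1)) cd W
            ≤ bb κ * ((∑ i, cfc (AB H t) (fun y => cd (cns i y)) (ch W i)) + en (H t) W) :=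
              Nat.mul_le_mul_left _ (hs.trans (Nat.add_le_add_left hN _))
          _ = bb κ * (∑ i, cfc (AB H t) (fun y => cd (cns i y)) (ch W i)) + bb κ * en (H t) W := by ring
          _ ≤ (bb κ * (∑ i, Ecl (fun g => GG κ ≤ g) H t (ch W i)) + t * W.card) + bb κ * en (H t) W :=
              Nat.add_le_add_right hsum _
          _ ≤ bb κ * ((∑ i, Ecl (fun g => GG κ ≤ g) H t (ch W i)) + en (H t) W) + (t + 1) * W.card := by
              nlinarith
      · rw [if_neg hg]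
        have hN := few_CF H cd (hP t) (hD t (by omega)) Q hQ hQ2 W hg
        calc bb κ * cfc (AB H (t + 1)) cd W
            ≤ bb κ * ((∑ i, cfc (AB H t) (fun y => cd (cns i y)) (ch W i)) +
                ((H t).filter fun p => (p.1 ∈ W ∧ p.2 ∈ W) ∧ ¬ Disjoint (cd p.1) (cd p.2)).card) :=
              Nat.mul_le_mul_left _ hs
          _ = bb κ * (∑ i, cfc (AB H t) (fun y => cd (cns i y)) (ch W i)) +
                bb κ * ((H t).filter fun p => (p.1 ∈ W ∧ p.2 ∈ W) ∧ ¬ Disjoint (cd p.1) (cd p.2)).card := by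
              ring
          _ ≤ (bb κ * (∑ i, Ecl (fun g => GG κ ≤ g) H t (ch W i)) + t * W.card) + W.card :=
              Nat.add_le_add hsum hN
          _ = bb κ * ((∑ i, Ecl (fun g => GG κ ≤ g) H t (ch W i)) + 0) + (t + 1) * W.card := by
              ring

/-- few conflicts inside every set -/
theorem hCF : StCF := by
  intro κ H cd _ hP hD hE hC W
  have h1 := main_CF H hP hD (DD κ) le_rfl cd hC W
  have h2 := hE (DD κ) le_rfl W
  have hDb : DD κ ≤ bb κ := by
    unfold DD bb be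
    have h3 : 2 * 2 ^ κ ≤ 2 ^ (2 * κ + 10) := by
      calc 2 * 2 ^ κ = 2 ^ (κ + 1) := by ring
        _ ≤ 2 ^ (2 * κ + 10) := Nat.pow_le_pow_right (by norm_num) (by omega)
    omega
  have hb : 0 < bb κ := by unfold bb; positivity
  refine Nat.le_of_mul_le_mul_left ?_ hb
  calc bb κ * cfc (AB H (DD κ)) cd W
      ≤ bb κ * Ecl (fun g => GG κ ≤ g) H (DD κ) W + DD κ * W.card := h1
    _ ≤ bb κ * (5 * κ * W.card) + bb κ * W.card :=
        Nat.add_le_add (Nat.mul_le_mul_left _ h2) (Nat.mul_le_mul_right _ hDb)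
    _ = bb κ * ((5 * κ + 1) * W.card) := by ring

end Pool.Agent.Helper43.OL
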