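import Pool.Agent.Helper43.OL.St

/-! OL: choice lemma (module CH) -/

set_option autoImplicit false

namespace Pool.Agent.Helper43.OL

open Finset

/-- the assignment given by `ω` -/
private def code_CH (j : Fin 4) : Option Bool :=
  if j = 0 then some false else if j = 1 then some true else none

open Classical in
private noncomputable def W_CH (C : Finset ℕ) (N : ℕ → Option Bool) (ω : C → Fin 4) (c : ℕ) :
    Option Bool :=
  if h : c ∈ C then (if N c = none then code_CH (ω ⟨c, h⟩) else none) else none

private theorem W_CH_none (C : Finset ℕ) (N : ℕ → Option Bool) (ω : C → Fin 4) (c : ℕ)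
    (h : N c ≠ none) : W_CH C N ω c = none := by
  unfold W_CH
  split_ifs <;> rfl

private theorem W_CH_none2 (C : Finset ℕ) (N : ℕ → Option Bool) (ω : C → Fin 4) (c : C)
    (h : ω c = 2 ∨ ω c = 3) : W_CH C N ω c = none := by
  unfold W_CH
  rw [dif_pos c.2]
  split_ifs with h1
  · unfold code_CH
    rcases h with h | h
    · rw [h]; decide
    · rw [h]; decide
  · rfl

private theorem W_CH_some (C : Finset ℕ) (N : ℕ → Option Bool) (ω : C → Fin 4) (c : C)
    (hN : N c = none) (s : Bool) (h : ω c = if s then 1 else 0) :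
    W_CH C N ω c = some s := by
  unfold W_CH
  rw [dif_pos c.2, if_pos hN]
  unfold code_CH
  cases s
  · rw [if_neg (by decide)] at h
    rw [h]; decide
  · rw [if_pos rfl] at h
    rw [h]; decide

/-- CH (choice lemma). -/
theorem hCH (hTA : StTA) : StCH := by
  classical
  intro α _ _ s L N q m η hL h1 h2
  set C : Finset ℕ := (univ : Finset α).biUnion L with hC
  have hLC : ∀ x, L x ⊆ C := fun x => Finset.subset_biUnion_of_mem L (mem_univ x)
  have hη : 0 ≤ η := by
    have : (0 : ℝ) ≤ 2 ^ q * (7 / 8) ^ m := by positivity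
    linarith
  have h4 : (0 : ℝ) ≤ 4 ^ C.card := by positivity
  -- second kind
  have hb1 : ∀ x, ((univ.filter fun ω : C → Fin 4 => ¬ m ≤ (nn L (W_CH C N ω) x).card).card : ℝ)
      ≤ η / 2 * 4 ^ C.card := by
    intro x
    have h3 := hTA C (L x) {2, 3} m (hLC x)
    have hc : (({2, 3} : Finset (Fin 4)).card : ℝ) = 2 := by
      have : ({2, 3} : Finset (Fin 4)).card = 2 := by decide
      rw [this]; norm_num
    rw [hc, hL x] at h3
    have h5 : ((4 : ℝ) - 2 / 2) / 4 = 3 / 4 := by norm_num
    rw [h5] at h3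
    refine le_trans ?_ (h3.trans (mul_le_mul_of_nonneg_right h2 h4))
    have hsub : (univ.filter fun ω : C → Fin 4 => ¬ m ≤ (nn L (W_CH C N ω) x).card) ⊆
        (univ.filter fun ω : C → Fin 4 =>
          (univ.filter fun c : C => (c : ℕ) ∈ L x ∧ ω c ∈ ({2, 3} : Finset (Fin 4))).card ≤ m) := by
      intro ω hω
      rw [mem_filter] at hω ⊢
      refine ⟨mem_univ _, ?_⟩
      have h6 : (univ.filter fun c : C => (c : ℕ) ∈ L x ∧ ω c ∈ ({2, 3} : Finset (Fin 4))).card ≤
          (nn L (W_CH C N ω) x).card := by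
        refine Finset.card_le_card_of_injOn (fun c : C => (c : ℕ)) ?_ ?_
        · intro c hc
          rw [mem_coe, mem_filter] at hc
          rw [mem_coe, nn, mem_filter]
          refine ⟨hc.2.1, W_CH_none2 C N ω c ?_⟩
          have := hc.2.2
          rw [mem_insert, mem_singleton] at this
          exact this
        · intro c _ c' _ hcc
          exact Subtype.ext hcc
      have h7 := hω.2
      omega
    exact_mod_cast Finset.card_le_card hsub
  -- first kind
  have hb2 : ∀ x, ((univ.filter fun ω : C → Fin 4 => m ≤ (nn L N x).card ∧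
      ¬ q + 1 ≤ (rs s L (W_CH C N ω) x).card).card : ℝ) ≤ η / 2 * 4 ^ C.card := by
    intro x
    by_cases hm : m ≤ (nn L N x).card
    swap
    · have : (univ.filter fun ω : C → Fin 4 => m ≤ (nn L N x).card ∧
          ¬ q + 1 ≤ (rs s L (W_CH C N ω) x).card) = ∅ := by
        rw [Finset.filter_eq_empty_iff]
        intro ω _ h
        exact hm h.1
      rw [this]
      simp only [card_empty, Nat.cast_zero]
      positivity
    obtain ⟨S, hS1, hS2⟩ := Finset.exists_subset_card_eq hm
    have hSL : S ⊆ L x := hS1.trans (Finset.filter_subset _ _)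
    have h3 := hTA C S {if s x then 1 else 0} q (hSL.trans (hLC x))
    rw [card_singleton, hS2] at h3
    have h5 : ((4 : ℝ) - ((1 : ℕ) : ℝ) / 2) / 4 = 7 / 8 := by norm_num
    rw [h5] at h3
    refine le_trans ?_ (h3.trans (mul_le_mul_of_nonneg_right h1 h4))
    have hsub : (univ.filter fun ω : C → Fin 4 => m ≤ (nn L N x).card ∧
          ¬ q + 1 ≤ (rs s L (W_CH C N ω) x).card) ⊆
        (univ.filter fun ω : C → Fin 4 =>
          (univ.filter fun c : C => (c : ℕ) ∈ S ∧
            ω c ∈ ({if s x then 1 else 0} : Finset (Fin 4))).card ≤ q) := by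
      intro ω hω
      rw [mem_filter] at hω ⊢
      refine ⟨mem_univ _, ?_⟩
      have h6 : (univ.filter fun c : C => (c : ℕ) ∈ S ∧
          ω c ∈ ({if s x then 1 else 0} : Finset (Fin 4))).card ≤
          (rs s L (W_CH C N ω) x).card := by
        refine Finset.card_le_card_of_injOn (fun c : C => (c : ℕ)) ?_ ?_
        · intro c hc
          rw [mem_coe, mem_filter] at hc
          rw [mem_coe, rs, mem_filter]
          have h8 := hS1 hc.2.1
          rw [nn, mem_filter] at h8
          refine ⟨h8.1, W_CH_some C N ω c h8.2 (s x) ?_⟩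
          have := hc.2.2
          rw [mem_singleton] at this
          exact this
        · intro c _ c' _ hcc
          exact Subtype.ext hcc
      have h7 := hω.2.2
      omega
    exact_mod_cast Finset.card_le_card hsub
  -- averaging
  have hsum : ∑ ω : C → Fin 4,
      (((univ.filter fun x => ¬ m ≤ (nn L (W_CH C N ω) x).card).card : ℝ) +
        ((univ.filter fun x => m ≤ (nn L N x).card ∧
          ¬ q + 1 ≤ (rs s L (W_CH C N ω) x).card).card : ℝ)) ≤
      ∑ _ω : C → Fin 4, η * Fintype.card α := by
    have e1 : ∑ ω : C → Fin 4, ((univ.filter fun x => ¬ m ≤ (nn L (W_CH C N ω) x).card).card : ℝ)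
        = ∑ x : α, ((univ.filter fun ω : C → Fin 4 =>
            ¬ m ≤ (nn L (W_CH C N ω) x).card).card : ℝ) := by
      simp only [Finset.card_filter, Nat.cast_sum]
      rw [Finset.sum_comm]
    have e2 : ∑ ω : C → Fin 4, ((univ.filter fun x => m ≤ (nn L N x).card ∧
          ¬ q + 1 ≤ (rs s L (W_CH C N ω) x).card).card : ℝ)
        = ∑ x : α, ((univ.filter fun ω : C → Fin 4 => m ≤ (nn L N x).card ∧
          ¬ q + 1 ≤ (rs s L (W_CH C N ω) x).card).card : ℝ) := by
      simp only [Finset.card_filter, Nat.cast_sum]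
      rw [Finset.sum_comm]
    rw [Finset.sum_add_distrib, e1, e2, ← Finset.sum_add_distrib]
    have e3 : ∑ x : α, (((univ.filter fun ω : C → Fin 4 =>
            ¬ m ≤ (nn L (W_CH C N ω) x).card).card : ℝ) +
          ((univ.filter fun ω : C → Fin 4 => m ≤ (nn L N x).card ∧
          ¬ q + 1 ≤ (rs s L (W_CH C N ω) x).card).card : ℝ)) ≤
        ∑ _x : α, η * 4 ^ C.card := by
      refine Finset.sum_le_sum fun x _ => ?_
      have := hb1 x
      have := hb2 x
      linarith
    refine e3.trans (le_of_eq ?_)
    rw [Finset.sum_const, Finset.sum_const, Finset.card_univ, Finset.card_univ]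
    have e4 : Fintype.card (C → Fin 4) = 4 ^ C.card := by simp
    rw [e4, nsmul_eq_mul, nsmul_eq_mul]
    push_cast
    ring
  obtain ⟨ω, _, hω⟩ := Finset.exists_le_of_sum_le Finset.univ_nonempty hsum
  refine ⟨W_CH C N ω, fun c hc => W_CH_none C N ω c hc, ?_, ?_⟩
  · have : (0 : ℝ) ≤ ((univ.filter fun x => m ≤ (nn L N x).card ∧
          ¬ q + 1 ≤ (rs s L (W_CH C N ω) x).card).card : ℝ) := by positivity
    linarith
  · have : (0 : ℝ) ≤ ((univ.filter fun x => ¬ m ≤ (nn L (W_CH C N ω) x).card).card : ℝ) := by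
      positivity
    linarith

end Pool.Agent.Helper43.OL
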