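import Pool.Agent.Helper43.OL.St

set_option autoImplicit false

namespace Pool.Agent.Helper43.OL

open Finset

private theorem aux1_CL (b G0 : ℕ) (H : Tm b) (G h : ℕ) (hG0 : G0 ≤ G) (hh : G = h + h) :
    ∀ t : ℕ, ∀ W : Finset (V b t),
      h * Ecl (fun g => G ≤ g ∧ g < 2 * G) H t W ≤ Psi G0 H t W := by
  intro t
  induction t with
  | zero =>
    intro W
    simp [Ecl, Psi]
  | succ t ih =>
    intro W
    simp only [Ecl, Psi]
    rw [mul_add, Finset.mul_sum]
    refine Nat.add_le_add (Finset.sum_le_sum fun i _ => ih (ch W i)) ?_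
    split_ifs with hc
    · refine Nat.mul_le_mul_right _ ?_
      unfold lam
      rw [if_pos (le_trans hG0 hc.1)]
      omega
    · simp

theorem hCL : StCL := by
  intro b G0 D H hP G hG0 hev h6 t
  obtain ⟨h, hh⟩ := hev
  have hh3 : 3 ≤ h := by omega
  induction t with
  | zero =>
    intro _ W
    simp [Ecl]
  | succ t ih =>
    intro htD W
    by_cases hc : G ≤ gg b (t + 1) W.card ∧ gg b (t + 1) W.card < 2 * G
    · have h1 := aux1_CL b G0 H G h hG0 hh (t + 1) W
      have h2 := hP (t + 1) htD W
      have h3 : (gg b (t + 1) W.card + 4) * W.card ≤ (h * 5) * W.card :=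
        Nat.mul_le_mul_right _ (by omega)
      have h4 : h * Ecl (fun g => G ≤ g ∧ g < 2 * G) H (t + 1) W ≤ h * (5 * W.card) := by
        calc _ ≤ _ := h1
          _ ≤ _ := h2
          _ ≤ _ := h3
          _ = _ := by ring
      exact Nat.le_of_mul_le_mul_left h4 (by omega)
    · simp only [Ecl]
      rw [if_neg hc, add_zero, card_eq_sum_ch W, Finset.mul_sum]
      exact Finset.sum_le_sum fun i _ => ih (by omega) (ch W i)

end Pool.Agent.Helper43.OL
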