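import Pool.Agent.Helper43.OL.St

/-! Project OL, module DG: degrees of the random templates. -/

set_option autoImplicit false

namespace Pool.Agent.Helper43.OL

open Finset

private theorem pow_eq_DG {α β : Type} [DecidableEq β] (f : α → β) (x : β) (T : Finset α) :
    (2 : ℝ) ^ ((T.filter fun p => f p = x).card) = ∏ e ∈ T, (if f e = x then (2 : ℝ) else 1) := by
  rw [Finset.prod_ite]
  simp

private theorem ex1_DG {α β : Type} [DecidableEq α] [DecidableEq β] (P : Finset α) (p : ℝ) (h0 : 0 ≤ p)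
    (f : α → β) (x : β) (N : ℕ) (hN : (P.filter fun e => f e = x).card ≤ N) :
    Ex P p (fun T => (2 : ℝ) ^ ((T.filter fun e => f e = x).card)) ≤ Real.exp (p * N) := by
  have e1 : Ex P p (fun T => (2 : ℝ) ^ ((T.filter fun e => f e = x).card)) =
      Ex P p (fun T => ∏ e ∈ T, (if f e = x then (2 : ℝ) else 1)) := by
    congr 1
    funext T
    exact pow_eq_DG f x T
  rw [e1, ex_prod]
  have e2 : ∏ e ∈ P, (p * (if f e = x then (2 : ℝ) else 1) + (1 - p)) =
      (1 + p) ^ ((P.filter fun e => f e = x).card) := by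
    rw [← Finset.prod_const, Finset.prod_filter]
    refine Finset.prod_congr rfl fun e _ => ?_
    split_ifs <;> ring
  rw [e2]
  have h1 : (1 : ℝ) ≤ 1 + p := by linarith
  calc (1 + p) ^ ((P.filter fun e => f e = x).card) ≤ (1 + p) ^ N := pow_le_pow_right₀ h1 hN
    _ ≤ (Real.exp p) ^ N := by
        refine pow_le_pow_left₀ (by linarith) ?_ N
        have := Real.add_one_le_exp p
        linarith
    _ = Real.exp (p * N) := by
        rw [← Real.exp_nat_mul, mul_comm]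

private theorem fst_DG {α : Type} [Fintype α] [DecidableEq α] (P : Finset (α × α)) (x : α) :
    (P.filter fun e => e.1 = x).card ≤ Fintype.card α := by
  rw [← Finset.card_univ]
  refine Finset.card_le_card_of_injOn (fun e => e.2) (fun _ _ => Finset.mem_coe.2 (Finset.mem_univ _)) ?_
  intro e he e' he' h
  have h1 : e.1 = x := by simpa using (Finset.mem_filter.1 (Finset.mem_coe.1 he)).2
  have h2 : e'.1 = x := by simpa using (Finset.mem_filter.1 (Finset.mem_coe.1 he')).2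
  exact Prod.ext (h1.trans h2.symm) h

private theorem snd_DG {α : Type} [Fintype α] [DecidableEq α] (P : Finset (α × α)) (x : α) :
    (P.filter fun e => e.2 = x).card ≤ Fintype.card α := by
  rw [← Finset.card_univ]
  refine Finset.card_le_card_of_injOn (fun e => e.1) (fun _ _ => Finset.mem_coe.2 (Finset.mem_univ _)) ?_
  intro e he e' he' h
  have h1 : e.2 = x := by simpa using (Finset.mem_filter.1 (Finset.mem_coe.1 he)).2
  have h2 : e'.2 = x := by simpa using (Finset.mem_filter.1 (Finset.mem_coe.1 he')).2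
  exact Prod.ext h (h1.trans h2.symm)

private theorem part1_DG (b t : ℕ) (T : Finset (V b (t + 1) × V b (t + 1))) (h : F2 b t T < 1) : DegP T := by
  have key : ∀ d : ℕ, (2 : ℝ) ^ d / 2 ^ (b ^ 3) < 1 → d ≤ b ^ 3 := by
    intro d hd
    rw [div_lt_one (by positivity)] at hd
    exact ((pow_lt_pow_iff_right₀ (by norm_num : (1 : ℝ) < 2)).1 hd).le
  have n1 : 0 ≤ ∑ x, (2 : ℝ) ^ ((T.filter fun p => p.1 = x).card) / 2 ^ (b ^ 3) :=
    Finset.sum_nonneg fun _ _ => by positivity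
  have n2 : 0 ≤ ∑ y, (2 : ℝ) ^ ((T.filter fun p => p.2 = y).card) / 2 ^ (b ^ 3) :=
    Finset.sum_nonneg fun _ _ => by positivity
  unfold F2 at h
  constructor
  · intro x
    apply key
    have := Finset.single_le_sum (f := fun x => (2 : ℝ) ^ ((T.filter fun p => p.1 = x).card) / 2 ^ (b ^ 3))
      (fun _ _ => by positivity) (Finset.mem_univ x)
    linarith
  · intro y
    apply key
    have := Finset.single_le_sum (f := fun y => (2 : ℝ) ^ ((T.filter fun p => p.2 = y).card) / 2 ^ (b ^ 3))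
      (fun _ _ => by positivity) (Finset.mem_univ y)
    linarith

private theorem exF2_DG (b t : ℕ) (P : Finset (V b (t + 1) × V b (t + 1))) (p : ℝ) (h0 : 0 ≤ p) :
    Ex P p (F2 b t) ≤ 4 * (b : ℝ) ^ (t + 1) * (Real.exp (p * (2 * (b : ℝ) ^ (t + 1))) / 2 ^ (b ^ 3)) := by
  have e1 : Ex P p (F2 b t) =
      (∑ x, (1 / (2 : ℝ) ^ (b ^ 3)) * Ex P p (fun T => (2 : ℝ) ^ ((T.filter fun p => p.1 = x).card))) +
      ∑ y, (1 / (2 : ℝ) ^ (b ^ 3)) * Ex P p (fun T => (2 : ℝ) ^ ((T.filter fun p => p.2 = y).card)) := by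
    have h1 := ex_add P p
      (fun T => ∑ x, (2 : ℝ) ^ ((T.filter fun p => p.1 = x).card) / 2 ^ (b ^ 3))
      (fun T => ∑ y, (2 : ℝ) ^ ((T.filter fun p => p.2 = y).card) / 2 ^ (b ^ 3))
    have h2 := ex_sum P p (Finset.univ : Finset (V b (t + 1)))
      (fun x T => (2 : ℝ) ^ ((T.filter fun p => p.1 = x).card) / 2 ^ (b ^ 3))
    have h3 := ex_sum P p (Finset.univ : Finset (V b (t + 1)))
      (fun y T => (2 : ℝ) ^ ((T.filter fun p => p.2 = y).card) / 2 ^ (b ^ 3))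
    have h4 : Ex P p (F2 b t) = Ex P p (fun T => (∑ x, (2 : ℝ) ^ ((T.filter fun p => p.1 = x).card) / 2 ^ (b ^ 3)) +
      ∑ y, (2 : ℝ) ^ ((T.filter fun p => p.2 = y).card) / 2 ^ (b ^ 3)) := rfl
    rw [h4, h1, h2, h3]
    congr 1
    · refine Finset.sum_congr rfl fun x _ => ?_
      rw [← ex_mul]
      congr 1
      funext T
      ring
    · refine Finset.sum_congr rfl fun x _ => ?_
      rw [← ex_mul]
      congr 1
      funext T
      ring
  rw [e1]
  have hc : (Fintype.card (V b (t + 1)) : ℝ) = 2 * (b : ℝ) ^ (t + 1) := by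
    rw [card_V]; push_cast; ring
  have hpos : (0 : ℝ) ≤ 1 / (2 : ℝ) ^ (b ^ 3) := by positivity
  have b1 : ∀ x : V b (t + 1), (1 / (2 : ℝ) ^ (b ^ 3)) *
      Ex P p (fun T => (2 : ℝ) ^ ((T.filter fun p => p.1 = x).card)) ≤
      Real.exp (p * (2 * (b : ℝ) ^ (t + 1))) / 2 ^ (b ^ 3) := by
    intro x
    have := ex1_DG P p h0 (fun e => e.1) x _ (fst_DG P x)
    rw [hc] at this
    calc _ ≤ (1 / (2 : ℝ) ^ (b ^ 3)) * Real.exp (p * (2 * (b : ℝ) ^ (t + 1))) :=
          mul_le_mul_of_nonneg_left this hpos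
      _ = _ := by ring
  have b2 : ∀ x : V b (t + 1), (1 / (2 : ℝ) ^ (b ^ 3)) *
      Ex P p (fun T => (2 : ℝ) ^ ((T.filter fun p => p.2 = x).card)) ≤
      Real.exp (p * (2 * (b : ℝ) ^ (t + 1))) / 2 ^ (b ^ 3) := by
    intro x
    have := ex1_DG P p h0 (fun e => e.2) x _ (snd_DG P x)
    rw [hc] at this
    calc _ ≤ (1 / (2 : ℝ) ^ (b ^ 3)) * Real.exp (p * (2 * (b : ℝ) ^ (t + 1))) :=
          mul_le_mul_of_nonneg_left this hpos
      _ = _ := by ring
  have s1 := Finset.sum_le_sum fun x (_ : x ∈ (Finset.univ : Finset (V b (t + 1)))) => b1 x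
  have s2 := Finset.sum_le_sum fun x (_ : x ∈ (Finset.univ : Finset (V b (t + 1)))) => b2 x
  rw [Finset.sum_const, Finset.card_univ, nsmul_eq_mul, hc] at s1 s2
  linarith

private theorem pr_DG (b t : ℕ) (hb : 1 ≤ b) : 0 ≤ pr b t ∧ pr b t * (b : ℝ) ^ (t + 1) ≤ (b : ℝ) ^ 2 := by
  have hb' : (1 : ℝ) ≤ b := by exact_mod_cast hb
  have hb0 : (0 : ℝ) < b := by linarith
  refine ⟨by unfold pr; positivity, ?_⟩
  unfold pr
  rw [div_mul_eq_mul_div, one_mul, div_le_iff₀ (by positivity), ← pow_add]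
  exact pow_le_pow_right₀ hb' (by omega)

private theorem num_DG (κ t : ℕ) (hκ : 1 ≤ κ) (ht : t + 1 ≤ DD κ) :
    4 * (bb κ : ℝ) ^ (t + 1) * (Real.exp (pr (bb κ) t * (2 * (bb κ : ℝ) ^ (t + 1))) / 2 ^ ((bb κ) ^ 3)) ≤ 1 / 8 := by
  have hb1 : 16 ≤ bb κ := by
    unfold bb be
    calc 16 = 2 ^ 4 := by norm_num
      _ ≤ 2 ^ (2 * κ + 10) := Nat.pow_le_pow_right (by norm_num) (by omega)
  have hDb : DD κ ≤ bb κ := by
    unfold DD bb be
    have : 2 * 2 ^ κ ≤ 2 ^ (2 * κ + 10) := by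
      rw [← pow_succ']
      exact Nat.pow_le_pow_right (by norm_num) (by omega)
    omega
  obtain ⟨p0, p1⟩ := pr_DG (bb κ) t (by omega)
  generalize hbdef : bb κ = b at *
  have htb : t + 1 ≤ b := ht.trans hDb
  have hbR : (16 : ℝ) ≤ b := by exact_mod_cast hb1
  have a1 : (b : ℝ) ^ (t + 1) ≤ 2 ^ (b ^ 2) := by
    have h1 : (b : ℝ) ^ (t + 1) ≤ (b : ℝ) ^ b := pow_le_pow_right₀ (by linarith) htb
    have h2 : (b : ℝ) ^ b ≤ (2 ^ b) ^ b := by
      refine pow_le_pow_left₀ (by linarith) ?_ b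
      exact_mod_cast Nat.lt_two_pow_self.le
    calc _ ≤ _ := h1
      _ ≤ _ := h2
      _ = _ := by rw [← pow_mul, sq]
  have a2 : Real.exp (pr b t * (2 * (b : ℝ) ^ (t + 1))) ≤ 2 ^ (3 * b ^ 2) := by
    have h1 : pr b t * (2 * (b : ℝ) ^ (t + 1)) ≤ 2 * (b : ℝ) ^ 2 := by linarith
    have h2 : Real.exp 2 ≤ 8 := by
      have h3 := Real.exp_one_lt_d9
      have h4 : Real.exp 2 = Real.exp 1 * Real.exp 1 := by rw [← Real.exp_add]; norm_num
      rw [h4]
      have h5 := Real.exp_pos 1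
      nlinarith
    calc _ ≤ Real.exp (2 * (b : ℝ) ^ 2) := Real.exp_le_exp.2 h1
      _ = (Real.exp 2) ^ (b ^ 2) := by
          rw [← Real.exp_nat_mul]
          congr 1
          push_cast
          ring
      _ ≤ 8 ^ (b ^ 2) := pow_le_pow_left₀ (Real.exp_pos 2).le h2 _
      _ = 2 ^ (3 * b ^ 2) := by
          rw [pow_mul]
          norm_num
  have a3 : 5 + (b ^ 2 + 3 * b ^ 2) ≤ b ^ 3 := by nlinarith
  calc 4 * (b : ℝ) ^ (t + 1) * (Real.exp (pr b t * (2 * (b : ℝ) ^ (t + 1))) / 2 ^ (b ^ 3))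
      ≤ 4 * 2 ^ (b ^ 2) * (2 ^ (3 * b ^ 2) / 2 ^ (b ^ 3)) := by gcongr
    _ = (2 ^ (5 + (b ^ 2 + 3 * b ^ 2)) / 2 ^ (b ^ 3)) * (1 / 8) := by
        rw [pow_add, pow_add]
        ring
    _ ≤ 1 * (1 / 8) := by
        refine mul_le_mul_of_nonneg_right ?_ (by norm_num)
        rw [div_le_one (by positivity)]
        exact pow_le_pow_right₀ (by norm_num) a3
    _ = 1 / 8 := by norm_num

theorem hDG : StDG := by
  refine ⟨part1_DG, fun κ t hκ ht => ?_⟩
  have hb1 : 1 ≤ bb κ := by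
    unfold bb
    exact Nat.one_le_two_pow
  exact (exF2_DG (bb κ) t _ _ (pr_DG (bb κ) t hb1).1).trans (num_DG κ t hκ ht)

end Pool.Agent.Helper43.OL
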