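import Pool.Agent.Helper43.OL.St

/-!
Project OL, module EA: no violation of the expansion property
-/

set_option autoImplicit false

namespace Pool.Agent.Helper43.OL

open Finset

theorem hEA : StEA := by
  intro b t K T h i j hij X Y hX hY hcX hcY
  have hz : ((i, j), (X, Y)) ∈ B1 b t K := by
    unfold B1
    rw [Finset.mem_filter]
    exact ⟨Finset.mem_univ _, hij, hX, hY, hcX, hcY⟩
  have hnn : ∀ z ∈ B1 b t K, (0 : ℝ) ≤ ∏ e ∈ T,
      (if hd e.1 = z.1.1 ∧ tl e.1 ∈ z.2.1 ∧ hd e.2 = z.1.2 ∧ tl e.2 ∈ z.2.2 then (0 : ℝ) else 1) := by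
    intro z _
    refine Finset.prod_nonneg fun e _ => ?_
    split_ifs
    · exact le_refl 0
    · exact zero_le_one
  have h1 : (∏ e ∈ T, (if hd e.1 = i ∧ tl e.1 ∈ X ∧ hd e.2 = j ∧ tl e.2 ∈ Y
      then (0 : ℝ) else 1)) < 1 :=
    lt_of_le_of_lt (Finset.single_le_sum hnn hz) h
  have h2 : ∃ e ∈ T, hd e.1 = i ∧ tl e.1 ∈ X ∧ hd e.2 = j ∧ tl e.2 ∈ Y := by
    by_contra hcon
    push Not at hcon
    have h3 : (∏ e ∈ T, (if hd e.1 = i ∧ tl e.1 ∈ X ∧ hd e.2 = j ∧ tl e.2 ∈ Y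
        then (0 : ℝ) else 1)) = 1 := by
      refine Finset.prod_eq_one fun e he => ?_
      rw [if_neg]
      rintro ⟨a1, a2, a3, a4⟩
      exact hcon e he a1 a2 a3 a4
    rw [h3] at h1
    exact lt_irrefl _ h1
  obtain ⟨e, he, a1, a2, a3, a4⟩ := h2
  refine ⟨tl e.1, a2, tl e.2, a4, ?_⟩
  rw [← a1, ← a3, cns_eta, cns_eta]
  exact he

end Pool.Agent.Helper43.OL
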