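import Pool.Agent.Helper43.OL.St

/-!
Project OL, module EB: the expected number of violations of the expansion property
-/

set_option autoImplicit false

namespace Pool.Agent.Helper43.OL

open Finset

private lemma card_EB {b t : ℕ} (i j : Fin b) (hij : i ≠ j) (X Y : Finset (V b t))
    (hX : ∀ x ∈ X, side t x = false) (hY : ∀ y ∈ Y, side t y = true) :
    X.card * Y.card ≤ ((P0 b t).filter fun e =>
      hd e.1 = i ∧ tl e.1 ∈ X ∧ hd e.2 = j ∧ tl e.2 ∈ Y).card := by
  classical
  rw [← Finset.card_product]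
  refine Finset.card_le_card_of_injOn (fun z : V b t × V b t => (cns i z.1, cns j z.2)) ?_ ?_
  · intro z hz
    have hz' := Finset.mem_product.1 hz
    refine Finset.mem_coe.2 (Finset.mem_filter.2 ⟨?_, ?_⟩)
    · refine Finset.mem_filter.2 ⟨Finset.mem_univ _, ?_, ?_, ?_⟩
      · simpa using hX _ hz'.1
      · simpa using hY _ hz'.2
      · simpa using hij
    · exact ⟨by simp, by simpa using hz'.1, by simp, by simpa using hz'.2⟩
  · intro z _ z' _ h
    have h1 := congrArg Prod.fst h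
    have h2 := congrArg Prod.snd h
    exact Prod.ext (cns_inj.1 h1).2 (cns_inj.1 h2).2

private lemma prod_EB {ι : Type} (P : Finset ι) (c : ι → Prop) [DecidablePred c] {p : ℝ}
    (h0 : 0 ≤ p) (h1 : p ≤ 1) (m : ℕ) (hm : m ≤ (P.filter c).card) :
    ∏ e ∈ P, (p * (if c e then (0 : ℝ) else 1) + (1 - p)) ≤ (1 - p) ^ m := by
  have h2 : ∏ e ∈ P, (p * (if c e then (0 : ℝ) else 1) + (1 - p)) = (1 - p) ^ (P.filter c).card := by
    rw [← Finset.prod_const, Finset.prod_filter]
    refine Finset.prod_congr rfl fun e _ => ?_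
    split_ifs <;> ring
  rw [h2]
  exact pow_le_pow_of_le_one (by linarith) (by linarith) hm

theorem hEB : StEB := by
  intro κ t hκ
  set b := bb κ with hb
  set K := KK κ with hK
  have hK1 : 1 ≤ K := Nat.one_le_two_pow
  have hbK : b = 1024 * K ^ 2 := by
    rw [hb, hK, bb, be, KK, ← pow_mul, pow_add, mul_comm κ 2]
    norm_num [mul_comm]
  have hb1 : 1 ≤ b := by
    rw [hbK]
    have : 1 ≤ K ^ 2 := Nat.one_le_pow _ _ hK1
    omega
  have hb1' : (1 : ℝ) ≤ b := by exact_mod_cast hb1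
  have hb0' : (0 : ℝ) < b := by linarith
  have hK0' : (0 : ℝ) < K := by exact_mod_cast hK1
  have hbK' : (b : ℝ) = 1024 * (K : ℝ) ^ 2 := by exact_mod_cast hbK
  set p := pr b t with hp
  have hp0 : 0 < p := by
    rw [hp, pr]
    positivity
  have hp1 : p ≤ 1 := by
    rw [hp, pr, div_le_one (by positivity)]
    exact one_le_pow₀ hb1'
  -- every summand
  have hz : ∀ z ∈ B1 b t K, Ex (P0 b t) p (fun T => ∏ e ∈ T,
      (if hd e.1 = z.1.1 ∧ tl e.1 ∈ z.2.1 ∧ hd e.2 = z.1.2 ∧ tl e.2 ∈ z.2.2 then (0 : ℝ) else 1)) ≤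
        if t = 0 then 0 else Real.exp (-(64 * (b : ℝ) ^ t)) := by
    intro z hz
    obtain ⟨hij, hX, hY, hXc, hYc⟩ := (Finset.mem_filter.1 hz).2
    rw [ex_prod]
    refine (prod_EB (P0 b t) (fun e => hd e.1 = z.1.1 ∧ tl e.1 ∈ z.2.1 ∧ hd e.2 = z.1.2 ∧
      tl e.2 ∈ z.2.2) hp0.le hp1 _ (card_EB z.1.1 z.1.2 hij z.2.1 z.2.2 hX hY)).trans ?_
    have hbt : 1 ≤ b ^ t := Nat.one_le_pow _ _ hb1
    by_cases ht : t = 0
    · subst ht
      rw [if_pos rfl]
      have hX1 : 1 ≤ z.2.1.card := by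
        by_contra h
        have h0 : z.2.1.card = 0 := by omega
        rw [h0] at hXc
        simp at hXc
      have hY1 : 1 ≤ z.2.2.card := by
        by_contra h
        have h0 : z.2.2.card = 0 := by omega
        rw [h0] at hYc
        simp at hYc
      have h3 : p = 1 := by simp [hp, pr]
      rw [h3, sub_self, zero_pow]
      have := Nat.mul_le_mul hX1 hY1
      omega
    · rw [if_neg ht]
      have h3 : (1 - p) ^ (z.2.1.card * z.2.2.card) ≤
          Real.exp (-p) ^ (z.2.1.card * z.2.2.card) := by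
        apply pow_le_pow_left₀ (by linarith)
        have := Real.add_one_le_exp (-p)
        linarith
      refine h3.trans ?_
      rw [← Real.exp_nat_mul]
      apply Real.exp_le_exp.2
      have hx : (b : ℝ) ^ t ≤ 4 * K * z.2.1.card := by exact_mod_cast hXc
      have hy : (b : ℝ) ^ t ≤ 4 * K * z.2.2.card := by exact_mod_cast hYc
      have hbtp : (0 : ℝ) < (b : ℝ) ^ t := by positivity
      have hxy : (b : ℝ) ^ t * (b : ℝ) ^ t ≤ (4 * K * z.2.1.card) * (4 * K * z.2.2.card) :=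
        mul_le_mul hx hy hbtp.le (by positivity)
      obtain ⟨s, rfl⟩ : ∃ s, t = s + 1 := ⟨t - 1, by omega⟩
      have hpb : p * (b : ℝ) ^ (s + 1) = b := by
        rw [hp, pr, Nat.add_sub_cancel, pow_succ]
        field_simp
      -- multiply by p
      have h4 : p * ((b : ℝ) ^ (s + 1) * (b : ℝ) ^ (s + 1)) ≤
          p * ((4 * K * z.2.1.card) * (4 * K * z.2.2.card)) := mul_le_mul_of_nonneg_left hxy hp0.le
      have h5 : (b : ℝ) * (b : ℝ) ^ (s + 1) ≤ 16 * K ^ 2 * (p * (z.2.1.card * z.2.2.card)) := by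
        have e1 : p * ((b : ℝ) ^ (s + 1) * (b : ℝ) ^ (s + 1)) = b * (b : ℝ) ^ (s + 1) := by
          rw [← mul_assoc, hpb]
        rw [e1] at h4
        linarith [h4]
      have h6 : 16 * (K : ℝ) ^ 2 * (64 * (b : ℝ) ^ (s + 1)) ≤
          16 * (K : ℝ) ^ 2 * (p * (z.2.1.card * z.2.2.card)) := by
        have e2 : 16 * (K : ℝ) ^ 2 * (64 * (b : ℝ) ^ (s + 1)) = b * (b : ℝ) ^ (s + 1) := by
          conv_rhs => rw [hbK']
          rw [hbK']
          ring
        rw [e2]
        exact h5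
      have h7 := le_of_mul_le_mul_left h6 (by positivity)
      push_cast
      linarith
  -- the sum
  have hsum : Ex (P0 b t) p (F1 b t K) ≤
      (B1 b t K).card * (if t = 0 then 0 else Real.exp (-(64 * (b : ℝ) ^ t))) := by
    have e1 : Ex (P0 b t) p (F1 b t K) = ∑ z ∈ B1 b t K, Ex (P0 b t) p (fun T => ∏ e ∈ T,
      (if hd e.1 = z.1.1 ∧ tl e.1 ∈ z.2.1 ∧ hd e.2 = z.1.2 ∧ tl e.2 ∈ z.2.2 then (0 : ℝ) else 1)) :=
      ex_sum _ _ _ _
    rw [e1]
    refine (Finset.sum_le_sum hz).trans ?_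
    rw [Finset.sum_const, nsmul_eq_mul]
  refine hsum.trans ?_
  by_cases ht : t = 0
  · rw [if_pos ht]
    norm_num
  · rw [if_neg ht]
    have hcard : (B1 b t K).card ≤ b ^ 2 * 16 ^ (b ^ t) := by
      refine (Finset.card_le_univ _).trans ?_
      rw [Fintype.card_prod, Fintype.card_prod, Fintype.card_prod, Fintype.card_finset, card_V,
        Fintype.card_fin]
      apply le_of_eq
      rw [show (16 : ℕ) = 2 ^ 4 by norm_num, ← pow_mul]
      ring
    have hbt : (b : ℝ) ≤ (b : ℝ) ^ t := by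
      have := pow_le_pow_right₀ hb1' (Nat.one_le_iff_ne_zero.2 ht)
      rwa [pow_one] at this
    have hbt1 : (1 : ℝ) ≤ (b : ℝ) ^ t := hb1'.trans hbt
    have h1 : ((B1 b t K).card : ℝ) ≤ Real.exp (5 * (b : ℝ) ^ t) := by
      have h2 : ((B1 b t K).card : ℝ) ≤ (b : ℝ) ^ 2 * 16 ^ (b ^ t) := by exact_mod_cast hcard
      refine h2.trans ?_
      have h3 : (b : ℝ) ≤ Real.exp ((b : ℝ) ^ t) := by
        have := Real.add_one_le_exp ((b : ℝ) ^ t)
        linarith
      have h4 : (16 : ℝ) ≤ Real.exp 3 := by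
        have h5 : (2.7182818283 : ℝ) < Real.exp 1 := Real.exp_one_gt_d9
        have h6 : Real.exp 3 = Real.exp 1 ^ 3 := by
          rw [← Real.exp_nat_mul]
          norm_num
        rw [h6]
        have h7 : (2.7 : ℝ) ^ 3 ≤ Real.exp 1 ^ 3 := pow_le_pow_left₀ (by norm_num) (by linarith) 3
        norm_num at h7 ⊢
        linarith
      calc (b : ℝ) ^ 2 * 16 ^ (b ^ t) ≤ Real.exp ((b : ℝ) ^ t) ^ 2 * Real.exp 3 ^ (b ^ t) :=
            mul_le_mul (pow_le_pow_left₀ hb0'.le h3 2) (pow_le_pow_left₀ (by norm_num) h4 _)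
              (by positivity) (by positivity)
        _ = Real.exp (5 * (b : ℝ) ^ t) := by
            rw [← Real.exp_nat_mul, ← Real.exp_nat_mul, ← Real.exp_add]
            congr 1
            push_cast
            ring
    calc ((B1 b t K).card : ℝ) * Real.exp (-(64 * (b : ℝ) ^ t)) ≤
          Real.exp (5 * (b : ℝ) ^ t) * Real.exp (-(64 * (b : ℝ) ^ t)) :=
          mul_le_mul_of_nonneg_right h1 (Real.exp_pos _).le
      _ = Real.exp (-(59 * (b : ℝ) ^ t)) := by
          rw [← Real.exp_add]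
          congr 1
          ring
      _ ≤ Real.exp (-59) := Real.exp_le_exp.2 (by linarith)
      _ ≤ 1 / 8 := by
          rw [Real.exp_neg, inv_eq_one_div]
          apply one_div_le_one_div_of_le (by norm_num)
          have := Real.add_one_le_exp (59 : ℝ)
          linarith

end Pool.Agent.Helper43.OL
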