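import Pool.Agent.Helper43.OL.St

/-!
Project OL, module EC: the expectation of the third quantity.
-/

set_option autoImplicit false

namespace Pool.Agent.Helper43.OL

open Finset

private theorem bb_pos_EC (κ : ℕ) : 0 < bb κ := by
  unfold bb; positivity

private theorem pr_nonneg_EC (b t : ℕ) : 0 ≤ pr b t := by
  unfold pr; positivity

private theorem pr_le_one_EC (b t : ℕ) (hb : 0 < b) : pr b t ≤ 1 := by
  unfold pr
  have h1 : (1 : ℝ) ≤ (b : ℝ) ^ (t - 1) := by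
    apply one_le_pow₀
    exact_mod_cast hb
  rw [div_le_one (by positivity)]
  exact h1

private theorem pow_en_EC {α : Type} [DecidableEq α] (T : Finset (α × α)) (W : Finset α) (l : ℕ) :
    (2 : ℝ) ^ (l * en T W) = ∏ e ∈ T, (if e.1 ∈ W ∧ e.2 ∈ W then (2 : ℝ) ^ l else 1) := by
  rw [Finset.prod_ite, Finset.prod_const, Finset.prod_const_one, mul_one, pow_mul]
  rfl

private theorem ex_pow_en_EC {α : Type} [DecidableEq α] (P : Finset (α × α)) (W : Finset α) (l : ℕ) {p : ℝ} :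
    Ex P p (fun T => (2 : ℝ) ^ (l * en T W)) = (1 + p * ((2 : ℝ) ^ l - 1)) ^ (en P W) := by
  have h1 : (fun T : Finset (α × α) => (2 : ℝ) ^ (l * en T W))
      = fun T => ∏ e ∈ T, (if e.1 ∈ W ∧ e.2 ∈ W then (2 : ℝ) ^ l else 1) := by
    funext T
    exact pow_en_EC T W l
  rw [h1, ex_prod]
  have h2 : ∀ e ∈ P, p * (if e.1 ∈ W ∧ e.2 ∈ W then (2 : ℝ) ^ l else 1) + (1 - p)
      = if e.1 ∈ W ∧ e.2 ∈ W then (1 + p * ((2 : ℝ) ^ l - 1)) else 1 := by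
    intro e _
    split_ifs <;> ring
  rw [Finset.prod_congr rfl h2, Finset.prod_ite, Finset.prod_const, Finset.prod_const_one, mul_one]
  rfl

private theorem bound_EC (hPR : StPR) (κ t w : ℕ) (W : Finset (V (bb κ) (t + 1))) (hW : W.card = w) :
    Ex (P0 (bb κ) t) (pr (bb κ) t)
      (fun T => (2 : ℝ) ^ (lam (bb κ) (GG κ) (t + 1) w * en T W)) ≤ Real.exp (zz κ t w) := by
  rw [ex_pow_en_EC]
  set p := pr (bb κ) t with hp
  set l := lam (bb κ) (GG κ) (t + 1) w with hl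
  have hp0 : 0 ≤ p := pr_nonneg_EC _ _
  have h2l : (1 : ℝ) ≤ (2 : ℝ) ^ l := one_le_pow₀ (by norm_num)
  have h1 : (1 + p * ((2 : ℝ) ^ l - 1)) ≤ Real.exp (p * ((2 : ℝ) ^ l - 1)) := by
    have := Real.add_one_le_exp (p * ((2 : ℝ) ^ l - 1))
    linarith
  have h0 : 0 ≤ 1 + p * ((2 : ℝ) ^ l - 1) := by
    have : 0 ≤ p * ((2 : ℝ) ^ l - 1) := mul_nonneg hp0 (by linarith)
    linarith
  calc (1 + p * ((2 : ℝ) ^ l - 1)) ^ (en (P0 (bb κ) t) W)
      ≤ (Real.exp (p * ((2 : ℝ) ^ l - 1))) ^ (en (P0 (bb κ) t) W) := pow_le_pow_left₀ h0 h1 _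
    _ = Real.exp ((en (P0 (bb κ) t) W : ℝ) * (p * ((2 : ℝ) ^ l - 1))) := by
        rw [← Real.exp_nat_mul]
    _ ≤ Real.exp (zz κ t w) := by
        apply Real.exp_le_exp.2
        have h3 : (4 : ℝ) * (en (P0 (bb κ) t) W : ℝ) ≤ (w : ℝ) ^ 2 := by
          have := hPR (bb κ) t W
          rw [hW] at this
          exact_mod_cast this
        unfold zz
        rw [← hp, ← hl]
        have h4 : (0 : ℝ) ≤ (en (P0 (bb κ) t) W : ℝ) := Nat.cast_nonneg _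
        have h5 : p * ((2 : ℝ) ^ l - 1) ≤ p * (2 : ℝ) ^ l := by nlinarith
        have h6 : 0 ≤ p * (2 : ℝ) ^ l := by positivity
        calc (en (P0 (bb κ) t) W : ℝ) * (p * ((2 : ℝ) ^ l - 1))
            ≤ (en (P0 (bb κ) t) W : ℝ) * (p * (2 : ℝ) ^ l) := mul_le_mul_of_nonneg_left h5 h4
          _ ≤ ((w : ℝ) ^ 2 / 4) * (p * (2 : ℝ) ^ l) := mul_le_mul_of_nonneg_right (by linarith) h6
          _ = p * (2 : ℝ) ^ l * (w : ℝ) ^ 2 / 4 := by ring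

private theorem num_EC (hBS : StBS) (hPR : StPR) (κ t w : ℕ) (Ft : Finset (V (bb κ) t) → ℕ)
    (hS : SB (bb κ) t Ft) (hz : 0 < zz κ t w) :
    Ex (P0 (bb κ) t) (pr (bb κ) t) (fun T =>
      ∑ W ∈ powersetCard w (univ : Finset (V (bb κ) (t + 1))),
      (2 : ℝ) ^ (∑ i, Ft (ch W i)) * ((2 : ℝ) ^ (lam (bb κ) (GG κ) (t + 1) w * en T W) - 1))
      ≤ BB (bb κ) t w * (Real.exp (zz κ t w) - 1) := by
  rw [ex_sum]
  have h1 : ∀ W ∈ powersetCard w (univ : Finset (V (bb κ) (t + 1))),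
      Ex (P0 (bb κ) t) (pr (bb κ) t) (fun T =>
        (2 : ℝ) ^ (∑ i, Ft (ch W i)) * ((2 : ℝ) ^ (lam (bb κ) (GG κ) (t + 1) w * en T W) - 1))
      ≤ (2 : ℝ) ^ (∑ i, Ft (ch W i)) * (Real.exp (zz κ t w) - 1) := by
    intro W hW
    rw [ex_mul]
    apply mul_le_mul_of_nonneg_left _ (by positivity)
    have h2 : (fun T : Finset (V (bb κ) (t + 1) × V (bb κ) (t + 1)) =>
        ((2 : ℝ) ^ (lam (bb κ) (GG κ) (t + 1) w * en T W) - 1))
        = fun T => (2 : ℝ) ^ (lam (bb κ) (GG κ) (t + 1) w * en T W) + (-1) * 1 := by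
      funext T; ring
    rw [h2, ex_add, ex_mul, ex_one]
    have h3 := bound_EC hPR κ t w W (Finset.mem_powersetCard.1 hW).2
    linarith
  refine (Finset.sum_le_sum h1).trans ?_
  rw [← Finset.sum_mul]
  apply mul_le_mul_of_nonneg_right (hBS (bb κ) t Ft hS w)
  have := Real.one_le_exp hz.le
  linarith

private theorem inv_sq_EC (N : ℕ) (S : Finset ℕ) (h1 : ∀ w ∈ S, 1 ≤ w) (h2 : ∀ w ∈ S, w ≤ N) :
    ∑ w ∈ S, ((w : ℝ) ^ 2)⁻¹ ≤ 2 := by
  have hsub : S ⊆ insert 1 (Ioc 1 (N + 1)) := by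
    intro w hw
    rcases Nat.eq_or_lt_of_le (h1 w hw) with h | h
    · rw [← h]; exact Finset.mem_insert_self _ _
    · exact Finset.mem_insert_of_mem (Finset.mem_Ioc.2 ⟨h, (h2 w hw).trans (Nat.le_succ _)⟩)
  have h3 : ∑ w ∈ S, ((w : ℝ) ^ 2)⁻¹ ≤ ∑ w ∈ insert 1 (Ioc 1 (N + 1)), ((w : ℝ) ^ 2)⁻¹ :=
    Finset.sum_le_sum_of_subset_of_nonneg hsub (fun _ _ _ => by positivity)
  rw [Finset.sum_insert (by simp)] at h3
  have h4 := sum_Ioc_inv_sq_le_sub (α := ℝ) (k := 1) (n := N + 1) one_ne_zero (by omega)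
  have h5 : (0 : ℝ) ≤ ((N + 1 : ℕ) : ℝ)⁻¹ := by positivity
  have h6 : ((1 : ℕ) : ℝ)⁻¹ = 1 := by norm_num
  rw [h6] at h4
  have h7 : (((1 : ℕ) : ℝ) ^ 2)⁻¹ = 1 := by norm_num
  rw [h7] at h3
  linarith

theorem hEC (hBS : StBS) (hPR : StPR) (hZZ : StZZ) : StEC := by
  intro κ t Ft hκ hS
  have hp0 : 0 ≤ pr (bb κ) t := pr_nonneg_EC _ _
  unfold F3
  rw [ex_sum]
  have key : ∀ w ∈ TW κ t, Ex (P0 (bb κ) t) (pr (bb κ) t) (fun T =>
      (∑ W ∈ powersetCard w (univ : Finset (V (bb κ) (t + 1))),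
        (2 : ℝ) ^ (∑ i, Ft (ch W i)) * ((2 : ℝ) ^ (lam (bb κ) (GG κ) (t + 1) w * en T W) - 1))
      / (8 * (w : ℝ) ^ 2 * BB (bb κ) t w * (Real.exp (zz κ t w) - 1))) ≤ (1 / 8) * ((w : ℝ) ^ 2)⁻¹ := by
    intro w hw
    obtain ⟨hwr, hwg⟩ := Finset.mem_filter.1 hw
    obtain ⟨hw1, hz0, -⟩ := hZZ κ t w hκ hwg
    have hwle : w ≤ 2 * (bb κ) ^ (t + 1) := by
      have := Finset.mem_range.1 hwr
      omega
    have hBB : 0 < BB (bb κ) t w := by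
      unfold BB
      have : 0 < (2 * bb κ ^ (t + 1)).choose w := Nat.choose_pos hwle
      positivity
    have hE : 0 < Real.exp (zz κ t w) - 1 := by
      have := Real.one_lt_exp_iff.2 hz0
      linarith
    have hw0 : (0 : ℝ) < (w : ℝ) := by exact_mod_cast hw1
    have hfun : (fun T : Finset (V (bb κ) (t + 1) × V (bb κ) (t + 1)) =>
      (∑ W ∈ powersetCard w (univ : Finset (V (bb κ) (t + 1))),
        (2 : ℝ) ^ (∑ i, Ft (ch W i)) * ((2 : ℝ) ^ (lam (bb κ) (GG κ) (t + 1) w * en T W) - 1))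
      / (8 * (w : ℝ) ^ 2 * BB (bb κ) t w * (Real.exp (zz κ t w) - 1)))
      = fun T => (8 * (w : ℝ) ^ 2 * BB (bb κ) t w * (Real.exp (zz κ t w) - 1))⁻¹ *
        (∑ W ∈ powersetCard w (univ : Finset (V (bb κ) (t + 1))),
        (2 : ℝ) ^ (∑ i, Ft (ch W i)) * ((2 : ℝ) ^ (lam (bb κ) (GG κ) (t + 1) w * en T W) - 1)) := by
      funext T
      rw [div_eq_inv_mul]
    rw [hfun, ex_mul]
    have hN := num_EC hBS hPR κ t w Ft hS hz0
    calc (8 * (w : ℝ) ^ 2 * BB (bb κ) t w * (Real.exp (zz κ t w) - 1))⁻¹ *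
        Ex (P0 (bb κ) t) (pr (bb κ) t) (fun T =>
        ∑ W ∈ powersetCard w (univ : Finset (V (bb κ) (t + 1))),
        (2 : ℝ) ^ (∑ i, Ft (ch W i)) * ((2 : ℝ) ^ (lam (bb κ) (GG κ) (t + 1) w * en T W) - 1))
        ≤ (8 * (w : ℝ) ^ 2 * BB (bb κ) t w * (Real.exp (zz κ t w) - 1))⁻¹ *
          (BB (bb κ) t w * (Real.exp (zz κ t w) - 1)) :=
          mul_le_mul_of_nonneg_left hN (by positivity)
      _ = (1 / 8) * ((w : ℝ) ^ 2)⁻¹ := by
          field_simp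
  refine (Finset.sum_le_sum key).trans ?_
  rw [← Finset.mul_sum]
  have h2 : ∑ w ∈ TW κ t, ((w : ℝ) ^ 2)⁻¹ ≤ 2 := by
    apply inv_sq_EC (2 * (bb κ) ^ (t + 1))
    · intro w hw
      exact (hZZ κ t w hκ (Finset.mem_filter.1 hw).2).1
    · intro w hw
      have := Finset.mem_range.1 (Finset.mem_filter.1 hw).1
      omega
  linarith

end Pool.Agent.Helper43.OL
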