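import Pool.Agent.Helper43.OL.St

/-!
Project OL (MP_ff53f3), module ED
-/

set_option autoImplicit false

namespace Pool.Agent.Helper43.OL

open Finset

private theorem bb_ge_ED (κ : ℕ) : 16 ≤ bb κ := by
  unfold bb be
  calc 16 = 2 ^ 4 := by norm_num
    _ ≤ 2 ^ (2 * κ + 10) := Nat.pow_le_pow_right (by norm_num) (by omega)

private theorem BB_nonneg_ED (b t w : ℕ) : 0 ≤ BB b t w := by
  unfold BB
  positivity

/-- `BB b t w * exp (4 w / b)` is the bound for height `t + 1` -/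
private theorem BB_mul_ED (b t w : ℕ) :
    BB b t w * Real.exp (4 * w / b)
      = ((2 * b ^ (t + 1)).choose w : ℝ) * Real.exp (4 * ((t + 1 : ℕ) : ℝ) * w / b) := by
  unfold BB
  rw [mul_assoc, ← Real.exp_add]
  congr 2
  push_cast
  ring

private theorem BB_le_ED (b t w : ℕ) :
    BB b t w ≤ ((2 * b ^ (t + 1)).choose w : ℝ) * Real.exp (4 * ((t + 1 : ℕ) : ℝ) * w / b) := by
  rw [← BB_mul_ED]
  refine le_mul_of_one_le_right (BB_nonneg_ED b t w) ?_
  exact Real.one_le_exp (by positivity)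

/-- the cardinality is not thin -/
private theorem fat_ED {b t : ℕ} (G0 : ℕ) (base : Finset (V b (t + 1)) → ℕ)
    (T : Finset (V b (t + 1) × V b (t + 1))) (w : ℕ)
    (hbs : (∑ W ∈ powersetCard w (univ : Finset (V b (t + 1))), (2 : ℝ) ^ (base W)) ≤ BB b t w)
    (hlam : lam b G0 (t + 1) w = 0) :
    (∑ W ∈ powersetCard w (univ : Finset (V b (t + 1))),
        (2 : ℝ) ^ (base W + lam b G0 (t + 1) W.card * en T W))
      ≤ ((2 * b ^ (t + 1)).choose w : ℝ) * Real.exp (4 * ((t + 1 : ℕ) : ℝ) * w / b) := by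
  refine le_trans (le_of_eq ?_) (hbs.trans (BB_le_ED b t w))
  refine Finset.sum_congr rfl fun W hW => ?_
  rw [(Finset.mem_powersetCard.1 hW).2, hlam, zero_mul, add_zero]

/-- the cardinality is thin -/
private theorem thin_ED {b t : ℕ} (G0 : ℕ) (base : Finset (V b (t + 1)) → ℕ)
    (T : Finset (V b (t + 1) × V b (t + 1))) (w : ℕ) (e : ℝ)
    (hbs : (∑ W ∈ powersetCard w (univ : Finset (V b (t + 1))), (2 : ℝ) ^ (base W)) ≤ BB b t w)
    (hex : (∑ W ∈ powersetCard w (univ : Finset (V b (t + 1))),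
        (2 : ℝ) ^ (base W) * ((2 : ℝ) ^ (lam b G0 (t + 1) w * en T W) - 1))
          ≤ 8 * (w : ℝ) ^ 2 * BB b t w * e)
    (hnw : 1 + 8 * (w : ℝ) ^ 2 * e ≤ Real.exp (4 * w / b)) :
    (∑ W ∈ powersetCard w (univ : Finset (V b (t + 1))),
        (2 : ℝ) ^ (base W + lam b G0 (t + 1) W.card * en T W))
      ≤ ((2 * b ^ (t + 1)).choose w : ℝ) * Real.exp (4 * ((t + 1 : ℕ) : ℝ) * w / b) := by
  have hsplit : (∑ W ∈ powersetCard w (univ : Finset (V b (t + 1))),
      (2 : ℝ) ^ (base W + lam b G0 (t + 1) W.card * en T W))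
      = (∑ W ∈ powersetCard w (univ : Finset (V b (t + 1))), (2 : ℝ) ^ (base W))
        + ∑ W ∈ powersetCard w (univ : Finset (V b (t + 1))),
          (2 : ℝ) ^ (base W) * ((2 : ℝ) ^ (lam b G0 (t + 1) w * en T W) - 1) := by
    rw [← Finset.sum_add_distrib]
    refine Finset.sum_congr rfl fun W hW => ?_
    rw [(Finset.mem_powersetCard.1 hW).2, pow_add]
    ring
  rw [hsplit, ← BB_mul_ED]
  calc _ ≤ BB b t w + 8 * (w : ℝ) ^ 2 * BB b t w * e := add_le_add hbs hex
    _ = BB b t w * (1 + 8 * (w : ℝ) ^ 2 * e) := by ring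
    _ ≤ BB b t w * Real.exp (4 * w / b) := mul_le_mul_of_nonneg_left hnw (BB_nonneg_ED b t w)

private theorem num_nonneg_ED {ι : Type} (s : Finset ι) (base ex : ι → ℕ) :
    0 ≤ ∑ W ∈ s, (2 : ℝ) ^ (base W) * ((2 : ℝ) ^ (ex W) - 1) := by
  refine Finset.sum_nonneg fun W _ => ?_
  have h3 : (1 : ℝ) ≤ (2 : ℝ) ^ (ex W) := one_le_pow₀ one_le_two
  exact mul_nonneg (pow_nonneg zero_le_two _) (sub_nonneg.2 h3)

/-- one summand of a sum of nonnegative quotients with sum less than one -/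
private theorem single_ED {ι : Type} (s : Finset ι) (N D : ι → ℝ) (hN : ∀ i ∈ s, 0 ≤ N i)
    (hD : ∀ i ∈ s, 0 ≤ D i) (h : ∑ i ∈ s, N i / D i < 1) (i : ι) (hi : i ∈ s) (hDi : 0 < D i) :
    N i ≤ D i := by
  have h1 : N i / D i ≤ ∑ j ∈ s, N j / D j :=
    Finset.single_le_sum (f := fun j => N j / D j) (fun j hj => div_nonneg (hN j hj) (hD j hj)) hi
  have h2 : N i / D i < 1 := lt_of_le_of_lt h1 h
  rw [div_lt_one hDi] at h2
  exact h2.le

theorem hED (hBS : StBS) (hZZ : StZZ) (hNW : StNW) : StED := by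
  intro κ t Ft T hκ hSB hF3 w
  have hbs := hBS (bb κ) t Ft hSB w
  by_cases hthin : GG κ ≤ gg (bb κ) (t + 1) w
  · by_cases hw : w ∈ TW κ t
    · obtain ⟨hw1, hz0, hz⟩ := hZZ κ t w hκ hthin
      have hden : ∀ v ∈ TW κ t, 0 ≤ 8 * (v : ℝ) ^ 2 * BB (bb κ) t v * (Real.exp (zz κ t v) - 1) := by
        intro v hv
        obtain ⟨_, hzv, _⟩ := hZZ κ t v hκ (Finset.mem_filter.1 hv).2
        exact mul_nonneg (mul_nonneg (mul_nonneg (by norm_num) (sq_nonneg _)) (BB_nonneg_ED _ _ _))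
          (sub_nonneg.2 (Real.one_le_exp hzv.le))
      have hBBpos : 0 < BB (bb κ) t w := by
        have hwle : w ≤ 2 * (bb κ) ^ (t + 1) :=
          Nat.lt_succ_iff.1 (Finset.mem_range.1 (Finset.mem_filter.1 hw).1)
        exact mul_pos (Nat.cast_pos.2 (Nat.choose_pos hwle)) (Real.exp_pos _)
      have hw0 : (0 : ℝ) < w := Nat.cast_pos.2 hw1
      have hdw : 0 < 8 * (w : ℝ) ^ 2 * BB (bb κ) t w * (Real.exp (zz κ t w) - 1) :=
        mul_pos (mul_pos (mul_pos (by norm_num) (pow_pos hw0 2)) hBBpos)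
          (sub_pos.2 (Real.one_lt_exp_iff.2 hz0))
      have hex := single_ED (TW κ t) _ _ (fun v _ => num_nonneg_ED _ _ _) hden hF3 w hw hdw
      exact thin_ED (GG κ) _ T w _ hbs hex (hNW (bb κ) w (zz κ t w) (bb_ge_ED κ) hw1 hz0.le hz)
    · -- `w` is too large
      have hbig : 2 * (bb κ) ^ (t + 1) < w := by
        refine lt_of_not_ge fun hcon => ?_
        exact hw (Finset.mem_filter.2 ⟨Finset.mem_range.2 (Nat.lt_succ_iff.2 hcon), hthin⟩)
      have hempty : powersetCard w (univ : Finset (V (bb κ) (t + 1))) = ∅ := by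
        apply Finset.powersetCard_eq_empty.2
        rw [Finset.card_univ, card_V]
        exact hbig
      rw [hempty, Finset.sum_empty]
      exact mul_nonneg (Nat.cast_nonneg _) (Real.exp_pos _).le
  · have hlam : lam (bb κ) (GG κ) (t + 1) w = 0 := if_neg hthin
    exact fat_ED (GG κ) _ T w hbs hlam

end Pool.Agent.Helper43.OL
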