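import Pool.Agent.Helper43.OL.St

/-!
Project OL (MP_ff53f3), module EM: the winning positions of Lister pass to supergraphs (embeddings).
-/

set_option autoImplicit false

namespace Pool.Agent.Helper43.OL

open Finset

theorem hEM : StEM := by
  intro α β _ _ A A' e hA U' f' hLW
  induction hLW with
  | step U' f' M hM hne _h ih =>
    intro U f hU hf
    refine LW.step U f (M.map e) ?_ ?_ ?_
    · intro y hy
      obtain ⟨x, hx, rfl⟩ := Finset.mem_map.1 hy
      exact (hU x).2 (hM hx)
    · exact hne.map
    · intro I hI hind h1 h2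
      set I' : Finset α := M.filter fun x => e x ∈ I with hI'
      have hmem : ∀ x, x ∈ I' ↔ x ∈ M ∧ e x ∈ I := fun x => by rw [hI', Finset.mem_filter]
      have hinj : ∀ x, e x ∈ M.map e ↔ x ∈ M := fun x => by simp
      refine ih I' (fun x hx => ((hmem x).1 hx).1) ?_ ?_ ?_ _ _ ?_ ?_
      · intro u hu v hv huv
        exact hind _ ((hmem u).1 hu).2 _ ((hmem v).1 hv).2 (hA u v huv)
      · intro v hv
        exact le_trans (h1 (e v) ((hinj v).2 hv)) (hf v (hM hv))
      · intro v hv
        rw [Finset.mem_sdiff] at hv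
        have hvI : e v ∉ I := fun hcon => hv.2 ((hmem v).2 ⟨hv.1, hcon⟩)
        exact le_trans (h2 (e v) (Finset.mem_sdiff.2 ⟨(hinj v).2 hv.1, hvI⟩)) (hf v (hM hv.1))
      · intro x
        rw [Finset.mem_sdiff, Finset.mem_sdiff, hU x, hmem x]
        constructor
        · rintro ⟨hx, hxI⟩
          exact ⟨hx, fun hcon => hxI hcon.2⟩
        · rintro ⟨hx, hxI⟩
          refine ⟨hx, fun hcon => hxI ⟨?_, hcon⟩⟩
          exact (hinj x).1 (hI hcon)
      · intro x hx
        rw [Finset.mem_sdiff] at hx
        have := hf x hx.1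
        show (if e x ∈ M.map e then f (e x) - 1 else f (e x)) ≤ (if x ∈ M then f' x - 1 else f' x)
        by_cases hxM : x ∈ M
        · rw [if_pos ((hinj x).2 hxM), if_pos hxM]
          exact Nat.sub_le_sub_right this 1
        · rw [if_neg (fun hcon => hxM ((hinj x).1 hcon)), if_neg hxM]
          exact this

end Pool.Agent.Helper43.OL
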