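import Pool.Agent.Helper43.OL.St

/-!
Project OL (MP_ff53f3), module FI: the final form
-/

set_option autoImplicit false

namespace Pool.Agent.Helper43.OL

open Finset

private theorem side_FI {b : ℕ} {H : Tm b} (hH : ∀ t, H t ⊆ P0 b t) : ∀ (t : ℕ) (x y : V b t),
    AB H t x y → side t x = false ∧ side t y = true
  | 0, _, _, h => h.elim
  | (t + 1), x, y, h => by
      rcases h with ⟨-, h⟩ | h
      · exact side_FI hH t (tl x) (tl y) h
      · have h1 := hH t h
        rw [P0, mem_filter] at h1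
        exact ⟨h1.2.1, h1.2.2.1⟩

theorem hFI (hOF : StOF) (hSY : StSY) (hLI : StLI) (hEM : StEM) (hPO : StPO) : StFI := by
  rintro ⟨p, hp⟩
  obtain ⟨κ, hκ, hpκ⟩ := hPO p
  obtain ⟨H, hH, hED, hSB⟩ := hSY κ hκ
  have hirr : ∀ x, ¬ AB H (DD κ) x x := by
    intro x hx
    have h := side_FI hH (DD κ) x x hx
    rw [h.1] at h
    exact absurd h.2 (by decide)
  let e : V (bb κ) (DD κ) ≃ Fin (Fintype.card (V (bb κ) (DD κ))) := Fintype.equivFin _
  let G : SimpleGraph (Fin (Fintype.card (V (bb κ) (DD κ)))) :=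
    { Adj := fun u v => AB H (DD κ) (e.symm u) (e.symm v) ∨ AB H (DD κ) (e.symm v) (e.symm u)
      symm := ⟨fun u v h => h.symm⟩
      loopless := ⟨fun u h => hirr _ (h.elim id id)⟩ }
  have hch : ∀ L : Fin (Fintype.card (V (bb κ) (DD κ))) → Finset ℕ, (∀ v, 4 * mm κ ≤ (L v).card) →
      ∃ c : Fin (Fintype.card (V (bb κ) (DD κ))) → ℕ, (∀ v, c v ∈ L v) ∧
        ∀ u v, G.Adj u v → c u ≠ c v := by
    intro L hL
    obtain ⟨c, hc1, hc2⟩ := hOF κ H hκ hH (fun t ht => (hED t ht).2) hSB (fun x => L (e x))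
      (fun x => hL (e x))
    refine ⟨fun v => c (e.symm v), fun v => ?_, fun u v huv => ?_⟩
    · have := hc1 (e.symm v)
      rwa [e.apply_symm_apply] at this
    · rcases huv with h | h
      · exact hc2 _ _ h
      · exact (hc2 _ _ h).symm
  have h1 := hp _ G (4 * mm κ) hch {q | ¬ LW G.Adj q.1 q.2} (by
    intro U f hUf
    change ¬ LW G.Adj U f
    intro hLW
    cases hLW with
    | step _ _ M hM hne h =>
      obtain ⟨I, hI, hind, h1f, h2f, hS⟩ := hUf M hM hne
      exact hS (h I hI hind h1f h2f))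
  apply h1
  change LW G.Adj univ (fun _ => p.eval (4 * mm κ))
  have hK1 : 1 ≤ KK κ := Nat.one_le_two_pow
  have hD : DD κ + 1 = 2 * KK κ := by
    unfold DD KK
    have : 1 ≤ 2 ^ κ := Nat.one_le_two_pow
    omega
  have hb : 4 * KK κ ≤ bb κ := by
    unfold KK bb be
    calc 4 * 2 ^ κ = 2 ^ (κ + 2) := by rw [pow_add]; ring
      _ ≤ 2 ^ (2 * κ + 10) := Nat.pow_le_pow_right (by norm_num) (by omega)
  have h2 : LW (AB H (DD κ)) univ (fun _ => KK κ) := by
    refine hLI (bb κ) (KK κ) (DD κ) H hK1 hD hb (fun t ht => (hED t ht).1) (DD κ) (KK κ) (KK κ)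
      le_rfl (by omega) univ _ (fun x _ => by split_ifs <;> exact le_rfl) ?_
    rw [sdiff_self, Finset.bot_eq_empty, Finset.card_empty, mul_zero]
    exact Nat.zero_le _
  refine hEM (V (bb κ) (DD κ)) _ (AB H (DD κ)) G.Adj e.toEmbedding ?_ univ (fun _ => KK κ) h2 univ _
    (fun x => by simp) (fun x _ => hpκ)
  intro x y hxy
  left
  change AB H (DD κ) (e.symm (e x)) (e.symm (e y))
  rw [e.symm_apply_apply, e.symm_apply_apply]
  exact hxy

end Pool.Agent.Helper43.OL
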