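import Pool.Agent.Helper43.OL.St

/-!
Project OL (MP_ff53f3), module GR: greedy colouring from the conflict numbers
-/

set_option autoImplicit false

namespace Pool.Agent.Helper43.OL

open Finset

open Classical in
/-- number of conflicts of `v` with `W` -/
private noncomputable def deg_GR {α : Type} (R : α → α → Prop) (cd : α → Finset ℕ) (W : Finset α) (v : α) : ℕ :=
  (W.filter fun y => (R v y ∨ R y v) ∧ ¬ Disjoint (cd v) (cd y)).card

private theorem sum_deg_GR {α : Type} (R : α → α → Prop) (cd : α → Finset ℕ) (W : Finset α) :
    ∑ v ∈ W, deg_GR R cd W v ≤ 2 * cfc R cd W := by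
  classical
  have h1 : ∀ v ∈ W, deg_GR R cd W v ≤
      (W.filter fun y => R v y ∧ ¬ Disjoint (cd v) (cd y)).card +
      (W.filter fun y => R y v ∧ ¬ Disjoint (cd y) (cd v)).card := by
    intro v _
    unfold deg_GR
    refine le_trans (Finset.card_le_card ?_) (Finset.card_union_le _ _)
    intro y hy
    rw [Finset.mem_filter] at hy
    rw [Finset.mem_union, Finset.mem_filter, Finset.mem_filter]
    obtain ⟨hW, h | h, hd⟩ := hy
    · exact Or.inl ⟨hW, h, hd⟩
    · exact Or.inr ⟨hW, h, fun h' => hd h'.symm⟩
  refine (Finset.sum_le_sum h1).trans ?_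
  rw [Finset.sum_add_distrib, two_mul]
  have h2 : cfc R cd W = ∑ v ∈ W, (W.filter fun y => R v y ∧ ¬ Disjoint (cd v) (cd y)).card := by
    unfold cfc
    rw [Finset.card_filter, Finset.sum_product]
    refine Finset.sum_congr rfl fun v _ => ?_
    rw [Finset.card_filter]
  have h3 : cfc R cd W = ∑ v ∈ W, (W.filter fun y => R y v ∧ ¬ Disjoint (cd y) (cd v)).card := by
    unfold cfc
    rw [Finset.card_filter, Finset.sum_product_right]
    refine Finset.sum_congr rfl fun v _ => ?_
    rw [Finset.card_filter]
  exact Nat.add_le_add h2.ge h3.ge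

theorem hGR : StGR := by
  classical
  intro α _ _ R cd A hirr hcd hcf
  have key : ∀ n : ℕ, ∀ W : Finset α, W.card = n →
      ∃ c : α → ℕ, (∀ x, c x ∈ cd x) ∧ ∀ x ∈ W, ∀ y ∈ W, R x y → c x ≠ c y := by
    intro n
    induction n with
    | zero =>
      intro W hW
      rw [Finset.card_eq_zero] at hW
      have hne : ∀ x, ∃ a, a ∈ cd x := fun x => by
        have : 0 < (cd x).card := lt_of_lt_of_le (Nat.succ_pos _) (hcd x)
        exact Finset.card_pos.1 this
      choose c hc using hne
      refine ⟨c, hc, ?_⟩
      intro x hx
      rw [hW] at hx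
      exact absurd hx (Finset.notMem_empty _)
    | succ n ih =>
      intro W hW
      have hWne : W.Nonempty := Finset.card_pos.1 (by omega)
      obtain ⟨v, hv, hdeg⟩ : ∃ v ∈ W, deg_GR R cd W v ≤ 2 * A := by
        apply Finset.exists_le_of_sum_le hWne
        refine (sum_deg_GR R cd W).trans ?_
        rw [Finset.sum_const, smul_eq_mul]
        have := hcf W
        nlinarith
      obtain ⟨c, hc, hc2⟩ := ih (W.erase v) (by rw [Finset.card_erase_of_mem hv, hW]; rfl)
      set S := W.filter fun y => (R v y ∨ R y v) ∧ ¬ Disjoint (cd v) (cd y) with hS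
      have hScard : (S.image c).card < (cd v).card := by
        refine lt_of_le_of_lt Finset.card_image_le (lt_of_lt_of_le ?_ (hcd v))
        exact Nat.lt_succ_of_le hdeg
      obtain ⟨a, ha, haS⟩ := Finset.exists_mem_notMem_of_card_lt_card hScard
      have hav : ∀ y ∈ W, (R v y ∨ R y v) → a ≠ c y := by
        intro y hy hR hay
        by_cases hd : Disjoint (cd v) (cd y)
        · exact Finset.disjoint_left.1 hd ha (hay ▸ hc y)
        · apply haS
          rw [hay]
          exact Finset.mem_image_of_mem c (Finset.mem_filter.2 ⟨hy, hR, hd⟩)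
      refine ⟨Function.update c v a, ?_, ?_⟩
      · intro x
        by_cases hx : x = v
        · subst hx
          rw [Function.update_self]
          exact ha
        · rw [Function.update_of_ne hx]
          exact hc x
      · intro x hx y hy hR
        by_cases hxv : x = v
        · subst hxv
          have hyx : y ≠ x := fun h => hirr x (h ▸ hR)
          rw [Function.update_self, Function.update_of_ne hyx]
          exact hav y hy (Or.inl hR)
        · by_cases hyv : y = v
          · subst hyv
            rw [Function.update_self, Function.update_of_ne hxv]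
            exact (hav x hx (Or.inr hR)).symm
          · rw [Function.update_of_ne hxv, Function.update_of_ne hyv]
            exact hc2 x (Finset.mem_erase.2 ⟨hxv, hx⟩) y (Finset.mem_erase.2 ⟨hyv, hy⟩) hR
  obtain ⟨c, hc, hc2⟩ := key _ (Finset.univ : Finset α) rfl
  exact ⟨c, hc, fun x y hR => hc2 x (Finset.mem_univ _) y (Finset.mem_univ _) hR⟩

end Pool.Agent.Helper43.OL
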