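import Pool.Agent.Helper43.OL.St

/-!
Project OL (MP_ff53f3), module LI: Lister wins.
-/

set_option autoImplicit false

namespace Pool.Agent.Helper43.OL

open Finset

/-- embedding of a child -/
private def em_LI {b t : ℕ} (i : Fin b) : V b t ↪ V b (t + 1) := ⟨cns i, cns_inj_right i⟩

private theorem live_LI {b K D t : ℕ} (hb : 0 < b) (hD : D < 2 * K) (U : Finset (V b t))
    (hU : 2 * K * (univ \ U).card ≤ (D - t) * b ^ t) (s : Bool) : ∃ x ∈ U, side t x = s := by
  by_contra hcon
  push Not at hcon
  have h1 : ((univ : Finset (V b t)).filter fun x => side t x = s) ⊆ univ \ U := by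
    intro x hx
    rw [mem_filter] at hx
    rw [mem_sdiff]
    exact ⟨mem_univ _, fun hxU => hcon x hxU hx.2⟩
  have h2 := card_le_card h1
  rw [card_side] at h2
  have h3 : 0 < b ^ t := pow_pos hb t
  have h4 : 2 * K * b ^ t ≤ (D - t) * b ^ t := (Nat.mul_le_mul_left _ h2).trans hU
  have h5 : 2 * K ≤ D - t := Nat.le_of_mul_le_mul_right h4 h3
  omega

private theorem two_LI {b : ℕ} (hb : 2 ≤ b) (d : Fin b → ℕ) :
    ∃ v v' : Fin b, v ≠ v' ∧ (b - 1) * d v ≤ ∑ w, d w ∧ (b - 1) * d v' ≤ ∑ w, d w := by
  have : Nonempty (Fin b) := ⟨⟨0, by omega⟩⟩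
  obtain ⟨v, -, hv⟩ := exists_min_image (univ : Finset (Fin b)) d univ_nonempty
  have hne : ((univ : Finset (Fin b)).erase v).Nonempty := by
    rw [← card_pos, card_erase_of_mem (mem_univ v), card_univ, Fintype.card_fin]
    omega
  obtain ⟨v', hv'1, hv'⟩ := exists_min_image ((univ : Finset (Fin b)).erase v) d hne
  have hsum : (b - 1) * d v' ≤ ∑ w, d w := by
    calc (b - 1) * d v' = ∑ _w ∈ (univ : Finset (Fin b)).erase v, d v' := by
          rw [sum_const, card_erase_of_mem (mem_univ v), card_univ, Fintype.card_fin, smul_eq_mul]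
      _ ≤ ∑ w ∈ (univ : Finset (Fin b)).erase v, d w := sum_le_sum fun w hw => hv' w hw
      _ ≤ ∑ w, d w := sum_le_sum_of_subset (erase_subset _ _)
  refine ⟨v, v', (ne_of_mem_erase hv'1).symm, ?_, hsum⟩
  exact (Nat.mul_le_mul_left _ (hv v' (mem_univ _))).trans hsum

private theorem arith_LI {K c s B dv dmg x : ℕ} (hc : 1 ≤ c) (h1 : c * dv ≤ dmg)
    (h2 : 2 * K * dmg ≤ s * (B * (c + 1))) (h3 : 4 * K * x ≤ B) (h4 : 2 * s ≤ c) :
    2 * K * (dv + x) ≤ (s + 1) * B := by
  have h5 : 2 * K * (c * dv) ≤ s * (B * (c + 1)) := (Nat.mul_le_mul_left _ h1).trans h2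
  have h6 : c * (4 * K * x) ≤ c * B := Nat.mul_le_mul_left _ h3
  have h7 : B * (2 * s) ≤ B * c := Nat.mul_le_mul_left _ h4
  have h8 : (2 * c) * (2 * K * (dv + x)) ≤ (2 * c) * ((s + 1) * B) := by
    calc (2 * c) * (2 * K * (dv + x)) = 2 * (2 * K * (c * dv)) + c * (4 * K * x) := by ring
      _ ≤ 2 * (s * (B * (c + 1))) + c * B := by omega
      _ = 2 * c * (s * B) + B * (2 * s) + c * B := by ring
      _ ≤ 2 * c * (s * B) + B * c + c * B := by omega
      _ = (2 * c) * ((s + 1) * B) := by ring
  exact Nat.le_of_mul_le_mul_left h8 (by omega)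

/-- the move to a child -/
private theorem move_LI (hEM : StEM) {b K D t : ℕ} (H : Tm b) (hb : 4 * K ≤ b) (hK : 1 ≤ K)
    (hD : D + 1 = 2 * K) (ht : t + 1 ≤ D)
    (U I : Finset (V b (t + 1))) (F : V b (t + 1) → ℕ) (v : Fin b) (i' j' : ℕ)
    (IH : ∀ (U : Finset (V b t)) (f : V b t → ℕ), (∀ x ∈ U, f x ≤ if side t x then j' else i') →
      2 * K * (univ \ U).card ≤ (D - t) * b ^ t → LW (AB H t) U f)
    (hd : (b - 1) * (univ \ ch U v).card ≤ (univ \ U).card)
    (hU : 2 * K * (univ \ U).card ≤ (D - (t + 1)) * b ^ (t + 1))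
    (hI : 4 * K * (ch I v).card ≤ b ^ t)
    (hF : ∀ x, cns v x ∈ U → cns v x ∉ I → F (cns v x) ≤ if side t x then j' else i') :
    LW (AB H (t + 1)) (U \ I) F := by
  refine hEM (V b t) (V b (t + 1)) (AB H t) (AB H (t + 1)) (em_LI v) ?_ (ch (U \ I) v)
    (fun x => F (cns v x)) ?_ (U \ I) F ?_ ?_
  · intro x y hxy
    exact Or.inl ⟨rfl, hxy⟩
  · refine IH _ _ ?_ ?_
    · intro x hx
      rw [mem_ch, mem_sdiff] at hx
      exact hF x hx.1 hx.2
    · have h1 : univ \ ch (U \ I) v ⊆ (univ \ ch U v) ∪ ch I v := by
        intro x hx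
        rw [mem_sdiff, mem_ch, mem_sdiff] at hx
        rw [mem_union, mem_sdiff, mem_ch, mem_ch]
        by_cases hxU : cns v x ∈ U
        · right
          by_contra hxI
          exact hx.2 ⟨hxU, hxI⟩
        · exact Or.inl ⟨mem_univ _, hxU⟩
      have h2 : (univ \ ch (U \ I) v).card ≤ (univ \ ch U v).card + (ch I v).card :=
        (card_le_card h1).trans (card_union_le _ _)
      obtain ⟨c, rfl⟩ : ∃ c, b = c + 1 := ⟨b - 1, by omega⟩
      have h3 : D - t = (D - (t + 1)) + 1 := by omega
      rw [h3]
      refine (Nat.mul_le_mul_left _ h2).trans ?_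
      refine arith_LI (c := c) (dmg := (univ \ U).card) (by omega) ?_ ?_ hI (by omega)
      · simpa using hd
      · rw [← pow_succ]
        exact hU
  · intro x
    rw [mem_ch]
    rfl
  · intro x _
    exact le_rfl

theorem hLI (hEM : StEM) : StLI := by
  intro b K D H hK hD hb hexp t
  have hb0 : 0 < b := by omega
  have hD2 : D < 2 * K := by omega
  have hzero : ∀ (t : ℕ) (U : Finset (V b t)) (f : V b t → ℕ) (x : V b t), x ∈ U → f x = 0 →
      LW (AB H t) U f := by
    intro t U f x hx hfx
    refine LW.step U f {x} (singleton_subset_iff.2 hx) (singleton_nonempty x) ?_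
    intro I _ _ h1 _
    have := h1 x (mem_singleton_self x)
    omega
  induction t with
  | zero =>
      intro i j ht hij U f hf hU
      rcases Nat.eq_zero_or_pos i with hi | hi
      · obtain ⟨x, hx, hs⟩ := live_LI hb0 hD2 U hU false
        refine hzero 0 U f x hx ?_
        have := hf x hx
        rw [hs, hi] at this
        simpa using this
      · have hj : j = 0 := by omega
        obtain ⟨x, hx, hs⟩ := live_LI hb0 hD2 U hU true
        refine hzero 0 U f x hx ?_
        have := hf x hx
        rw [hs, hj] at this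
        simpa using this
  | succ t ih =>
      intro i j ht hij U f hf hU
      rcases Nat.eq_zero_or_pos i with hi | hi
      · obtain ⟨x, hx, hs⟩ := live_LI hb0 hD2 U hU false
        refine hzero (t + 1) U f x hx ?_
        have := hf x hx
        rw [hs, hi] at this
        simpa using this
      rcases Nat.eq_zero_or_pos j with hj | hj
      · obtain ⟨x, hx, hs⟩ := live_LI hb0 hD2 U hU true
        refine hzero (t + 1) U f x hx ?_
        have := hf x hx
        rw [hs, hj] at this
        simpa using this
      obtain ⟨v, v', hvv, hdv, hdv'⟩ := two_LI (by omega : 2 ≤ b)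
        (fun w => (univ \ ch U w).card)
      have hsum : ∑ w, (univ \ ch U w).card = (univ \ U).card := by
        rw [card_eq_sum_ch (univ \ U)]
        refine sum_congr rfl fun w _ => ?_
        rw [ch_sdiff, ch_univ]
      simp only [hsum] at hdv hdv'
      set M : Finset (V b (t + 1)) := U.filter fun x =>
        (side (t + 1) x = false ∧ hd x = v) ∨ (side (t + 1) x = true ∧ hd x = v') with hM
      have hMmem : ∀ x, x ∈ M ↔ x ∈ U ∧
          ((side (t + 1) x = false ∧ hd x = v) ∨ (side (t + 1) x = true ∧ hd x = v')) := by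
        intro x
        rw [hM, mem_filter]
      have hMne : M.Nonempty := by
        by_contra hcon
        rw [not_nonempty_iff_eq_empty] at hcon
        have h1 : ((univ : Finset (V b t)).filter fun x => side t x = false) ⊆ univ \ ch U v := by
          intro x hx
          rw [mem_filter] at hx
          rw [mem_sdiff, mem_ch]
          refine ⟨mem_univ _, fun hxU => ?_⟩
          have : cns v x ∈ M := (hMmem _).2 ⟨hxU, Or.inl ⟨by rw [side_cns]; exact hx.2, hd_cns v x⟩⟩
          rw [hcon] at this
          exact absurd this (notMem_empty _)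
        have h2 := card_le_card h1
        rw [card_side] at h2
        have h3 : 2 * K * ((b - 1) * b ^ t) ≤ (D - (t + 1)) * (b ^ t * b) := by
          rw [← pow_succ]
          exact (Nat.mul_le_mul_left _ ((Nat.mul_le_mul_left _ h2).trans hdv)).trans hU
        have h4 : (2 * K * (b - 1)) * b ^ t ≤ ((D - (t + 1)) * b) * b ^ t := by
          calc (2 * K * (b - 1)) * b ^ t = 2 * K * ((b - 1) * b ^ t) := by ring
            _ ≤ (D - (t + 1)) * (b ^ t * b) := h3
            _ = ((D - (t + 1)) * b) * b ^ t := by ring
        have h5 := Nat.le_of_mul_le_mul_right h4 (pow_pos hb0 t)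
        obtain ⟨c, hc⟩ : ∃ c, b = c + 1 := ⟨b - 1, by omega⟩
        obtain ⟨s, hs⟩ : ∃ s, 2 * K = s + (D - (t + 1)) + 2 := ⟨2 * K - 2 - (D - (t + 1)), by omega⟩
        have h6 : b - 1 = c := by omega
        rw [h6, hc, hs] at h5
        have h7 : 4 * K ≤ c + 1 := by omega
        nlinarith
      refine LW.step U f M (filter_subset _ _) hMne ?_
      intro I hIM hind _ _
      have hIside : ∀ x, cns v x ∈ I → side t x = false := by
        intro x hx
        have h1 := (hMmem _).1 (hIM hx)
        rcases h1.2 with h | h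
        · rw [side_cns] at h
          exact h.1
        · exact absurd h.2 (by rw [hd_cns]; exact hvv)
      have hIside' : ∀ x, cns v' x ∈ I → side t x = true := by
        intro x hx
        have h1 := (hMmem _).1 (hIM hx)
        rcases h1.2 with h | h
        · exact absurd h.2 (by rw [hd_cns]; exact hvv.symm)
        · rw [side_cns] at h
          exact h.1
      by_cases hX : b ^ t ≤ 4 * K * (ch I v).card
      · have hY : ¬ b ^ t ≤ 4 * K * (ch I v').card := by
          intro hY
          obtain ⟨x, hx, y, hy, hxy⟩ := hexp t (by omega) v v' hvv (ch I v) (ch I v')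
            (fun x hx => hIside x (mem_ch.1 hx)) (fun y hy => hIside' y (mem_ch.1 hy)) hX hY
          exact hind _ (mem_ch.1 hx) _ (mem_ch.1 hy) (Or.inr hxy)
        push Not at hY
        refine move_LI hEM H hb hK hD ht U I _ v' i (j - 1) (ih i (j - 1) (by omega) (by omega)) hdv' hU
          hY.le ?_
        intro x hxU hxI
        have hfx := hf _ hxU
        rw [side_cns] at hfx
        by_cases hs : side t x = true
        · have hxM : cns v' x ∈ M := (hMmem _).2 ⟨hxU, Or.inr ⟨by rw [side_cns]; exact hs, hd_cns v' x⟩⟩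
          rw [if_pos hs] at hfx
          rw [if_pos hxM, if_pos hs]
          omega
        · have hxM : cns v' x ∉ M := by
            intro h
            rcases ((hMmem _).1 h).2 with h | h
            · exact absurd h.2 (by rw [hd_cns]; exact hvv.symm)
            · rw [side_cns] at h
              exact hs h.1
          rw [if_neg hs] at hfx
          rw [if_neg hxM, if_neg hs]
          exact hfx
      · push Not at hX
        refine move_LI hEM H hb hK hD ht U I _ v (i - 1) j (ih (i - 1) j (by omega) (by omega)) hdv hU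
          hX.le ?_
        intro x hxU hxI
        have hfx := hf _ hxU
        rw [side_cns] at hfx
        by_cases hs : side t x = true
        · have hxM : cns v x ∉ M := by
            intro h
            rcases ((hMmem _).1 h).2 with h | h
            · rw [side_cns, hs] at h
              exact absurd h.1 (by decide)
            · exact absurd h.2 (by rw [hd_cns]; exact hvv)
          rw [if_pos hs] at hfx
          rw [if_neg hxM, if_pos hs]
          exact hfx
        · have hs' : side t x = false := by simpa using hs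
          have hxM : cns v x ∈ M := (hMmem _).2 ⟨hxU, Or.inl ⟨by rw [side_cns]; exact hs', hd_cns v x⟩⟩
          rw [if_neg hs] at hfx
          rw [if_pos hxM, if_neg hs]
          omega

end Pool.Agent.Helper43.OL
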