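import Pool.Agent.Helper43.OL.St

/-!
Project OL (MP_ff53f3), module LV: the level lemma.
-/

set_option autoImplicit false

namespace Pool.Agent.Helper43.OL

open Finset

private theorem F1_nonneg_LV (b t K : ℕ) (T : Finset (V b (t + 1) × V b (t + 1))) : 0 ≤ F1 b t K T := by
  unfold F1
  refine Finset.sum_nonneg fun z _ => Finset.prod_nonneg fun e _ => ?_
  split_ifs <;> norm_num

private theorem F2_nonneg_LV (b t : ℕ) (T : Finset (V b (t + 1) × V b (t + 1))) : 0 ≤ F2 b t T := by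
  unfold F2
  refine add_nonneg (Finset.sum_nonneg fun x _ => by positivity) (Finset.sum_nonneg fun x _ => by positivity)

private theorem F3_nonneg_LV (hZZ : StZZ) (κ t : ℕ) (hκ : 1 ≤ κ) (Ft : Finset (V (bb κ) t) → ℕ)
    (T : Finset (V (bb κ) (t + 1) × V (bb κ) (t + 1))) : 0 ≤ F3 κ t Ft T := by
  unfold F3
  refine Finset.sum_nonneg fun w hw => ?_
  obtain ⟨-, hz, -⟩ := hZZ κ t w hκ (Finset.mem_filter.1 hw).2
  have h1 : 0 < Real.exp (zz κ t w) - 1 := by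
    have := Real.add_one_lt_exp hz.ne'
    linarith
  have h2 : 0 ≤ BB (bb κ) t w := by
    unfold BB
    positivity
  refine div_nonneg (Finset.sum_nonneg fun W _ => mul_nonneg (by positivity) ?_)
    (mul_nonneg (mul_nonneg (by positivity) h2) h1.le)
  have h3 : (1 : ℝ) ≤ 2 ^ (lam (bb κ) (GG κ) (t + 1) w * en T W) := one_le_pow₀ (by norm_num)
  linarith

private theorem pr_LV (b t : ℕ) (hb : 1 ≤ b) : 0 ≤ pr b t ∧ pr b t ≤ 1 := by
  unfold pr
  have hb' : (1 : ℝ) ≤ b := by exact_mod_cast hb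
  have h1 : (1 : ℝ) ≤ (b : ℝ) ^ (t - 1) := one_le_pow₀ hb'
  refine ⟨by positivity, ?_⟩
  rw [div_le_one (by linarith)]
  exact h1

theorem hLV (hEA : StEA) (hEB : StEB) (hDG : StDG) (hEC : StEC) (hED : StED) (hZZ : StZZ) : StLV := by
  intro κ t Ft hκ ht hSB
  have hb : 1 ≤ bb κ := Nat.one_le_two_pow
  obtain ⟨hp0, hp1⟩ := pr_LV (bb κ) t hb
  have e1 := hEB κ t hκ
  have e2 := hDG.2 κ t hκ ht
  have e3 := hEC κ t Ft hκ hSB
  have hsum : Ex (P0 (bb κ) t) (pr (bb κ) t)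
      (fun T => (F1 (bb κ) t (KK κ) T + F2 (bb κ) t T) + F3 κ t Ft T) < 1 := by
    rw [ex_add, ex_add]
    have e1' : Ex (P0 (bb κ) t) (pr (bb κ) t) (fun T => F1 (bb κ) t (KK κ) T) ≤ 1 / 8 := e1
    have e2' : Ex (P0 (bb κ) t) (pr (bb κ) t) (fun T => F2 (bb κ) t T) ≤ 1 / 8 := e2
    have e3' : Ex (P0 (bb κ) t) (pr (bb κ) t) (fun T => F3 κ t Ft T) ≤ 1 / 4 := e3
    linarith
  obtain ⟨T, hT, hlt⟩ := ex_exists (P0 (bb κ) t) hp0 hp1 _ hsum
  have n1 := F1_nonneg_LV (bb κ) t (KK κ) T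
  have n2 := F2_nonneg_LV (bb κ) t T
  have n3 := F3_nonneg_LV hZZ κ t hκ Ft T
  have hlt' : F1 (bb κ) t (KK κ) T + F2 (bb κ) t T + F3 κ t Ft T < 1 := hlt
  refine ⟨T, hT, hEA _ _ _ _ (by linarith), hDG.1 _ _ _ (by linarith), hED κ t Ft T hκ hSB (by linarith)⟩

end Pool.Agent.Helper43.OL
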