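import Pool.Agent.Helper43.OL.St

set_option autoImplicit false

namespace Pool.Agent.Helper43.OL

/-- numbers -/
theorem hNO : StNO := by
  intro κ hκ θ hθ
  have hbe : 12 ≤ be κ := by unfold be; omega
  have hb : (4 : ℝ) ≤ bb κ := by
    have h : 4 ≤ bb κ := by
      unfold bb
      calc 4 = 2 ^ 2 := by norm_num
        _ ≤ 2 ^ (be κ) := Nat.pow_le_pow_right (by norm_num) (by omega)
    exact_mod_cast h
  have hb0 : (0 : ℝ) < bb κ := by linarith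
  have hθ0 : 0 < θ := by rw [hθ]; positivity
  have hbθ : (bb κ : ℝ) * θ ≤ 1 / 4 := by
    have h1 : (bb κ : ℝ) * θ = 1 / (bb κ : ℝ) ^ 24 := by
      rw [hθ]; field_simp
    rw [h1]
    apply one_div_le_one_div_of_le (by norm_num)
    calc (4 : ℝ) ≤ bb κ := hb
      _ = (bb κ : ℝ) ^ 1 := (pow_one _).symm
      _ ≤ (bb κ : ℝ) ^ 24 := pow_le_pow_right₀ (by linarith) (by norm_num)
  have hθ1 : θ ≤ 1 / 4 := by nlinarith
  have h6 : θ ^ 6 = (1 / 2 : ℝ) ^ (150 * be κ) := by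
    rw [hθ, bb]
    push_cast
    rw [div_pow, one_pow, ← pow_mul, ← pow_mul, one_div_pow]
    congr 2
    ring
  have key : ∀ x : ℝ, 0 ≤ x → x ^ 6 ≤ 1 / 2 → x ^ (mm κ) ≤ (1 / 2 : ℝ) ^ (qq κ) * (θ ^ 6 / 4) := by
    intro x hx hx6
    have h1 : x ^ (mm κ) ≤ (1 / 2 : ℝ) ^ (qq κ + 150 * be κ + 2) := by
      rw [mm, pow_mul]
      exact pow_le_pow_left₀ (by positivity) hx6 _
    refine h1.trans (le_of_eq ?_)
    rw [h6, pow_add, pow_add]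
    ring
  have hθ2 : θ ^ 2 ≤ 1 / 4 * θ := by nlinarith
  have hθ3 : θ ^ 3 ≤ θ ^ 2 * (1 / 4) := by
    have : θ ^ 3 = θ ^ 2 * θ := by ring
    rw [this]
    exact mul_le_mul_of_nonneg_left hθ1 (by positivity)
  have hθ5 : θ ^ 5 ≤ 1 / 4 * θ := by
    have h1 : θ ^ 5 = θ ^ 4 * θ := by ring
    have h2 : θ ^ 4 ≤ 1 / 4 := by
      have : θ ^ 4 ≤ (1 / 4 : ℝ) ^ 4 := pow_le_pow_left₀ hθ0.le hθ1 4
      norm_num at this ⊢
      linarith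
    rw [h1]
    exact mul_le_mul_of_nonneg_right h2 hθ0.le
  have hθ32 : θ ^ 3 ≤ 1 / 4 * θ := by nlinarith [sq_nonneg θ]
  have hbθ2 : (bb κ : ℝ) * θ ^ 2 ≤ 1 / 4 * θ := by
    have : (bb κ : ℝ) * θ ^ 2 = ((bb κ : ℝ) * θ) * θ := by ring
    rw [this]
    exact mul_le_mul_of_nonneg_right hbθ hθ0.le
  have hlast : θ ^ 5 + bb κ * θ ^ 2 + θ ^ 3 ≤ θ := by linarith
  have h5θ : (θ ^ 6 + bb κ * θ ^ 3) / θ + θ ^ 6 / θ ^ 3 = θ ^ 5 + bb κ * θ ^ 2 + θ ^ 3 := by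
    field_simp
  refine ⟨hθ0, by linarith, ?_, ?_, ?_, ?_, ?_⟩
  · have h1 := key (7 / 8) (by norm_num) (by norm_num)
    have h2 : (2 : ℝ) ^ (qq κ) * (1 / 2) ^ (qq κ) = 1 := by
      rw [← mul_pow]; norm_num
    calc (2 : ℝ) ^ (qq κ) * (7 / 8) ^ (mm κ)
        ≤ 2 ^ (qq κ) * ((1 / 2 : ℝ) ^ (qq κ) * (θ ^ 6 / 4)) :=
          mul_le_mul_of_nonneg_left h1 (by positivity)
      _ = (2 ^ (qq κ) * (1 / 2 : ℝ) ^ (qq κ)) * (θ ^ 6 / 4) := by ring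
      _ = θ ^ 6 / 4 := by rw [h2, one_mul]
      _ ≤ θ ^ 6 / 2 := by
          have : 0 < θ ^ 6 := by positivity
          linarith
  · have h1 := key (2 * (3 / 4) ^ 4) (by norm_num) (by norm_num)
    have h3 : (1 / 2 : ℝ) ^ (qq κ) ≤ 1 := pow_le_one₀ (by norm_num) (by norm_num)
    calc (2 : ℝ) ^ (mm κ) * (3 / 4) ^ (4 * mm κ) = (2 * (3 / 4) ^ 4) ^ (mm κ) := by
          rw [mul_pow, ← pow_mul]
      _ ≤ (1 / 2 : ℝ) ^ (qq κ) * (θ ^ 6 / 4) := h1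
      _ ≤ 1 * (θ ^ 6 / 4) := mul_le_mul_of_nonneg_right h3 (by positivity)
      _ ≤ θ ^ 6 / 2 := by
          have : 0 < θ ^ 6 := by positivity
          linarith
  · have h1 : θ ^ 6 + bb κ * θ ^ 3 = θ * (θ ^ 5 + bb κ * θ ^ 2) := by ring
    have h2 : θ ^ 5 + bb κ * θ ^ 2 ≤ 1 := by linarith
    rw [h1]
    calc θ * (θ ^ 5 + bb κ * θ ^ 2) ≤ θ * 1 := mul_le_mul_of_nonneg_left h2 hθ0.le
      _ = θ := mul_one _
  · exact pow_le_pow_of_le_one hθ0.le (by linarith) (by norm_num)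
  · rw [h5θ]
    exact hlast

end Pool.Agent.Helper43.OL
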