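import Pool.Agent.Helper43.OL.St

/-!
Project OL, module NW (a numerical inequality).
-/

set_option autoImplicit false

namespace Pool.Agent.Helper43.OL

theorem hNW : StNW := by
  intro b w z hb hw hz0 hz
  have hb' : (16 : ℝ) ≤ b := by exact_mod_cast hb
  have hb0 : (0 : ℝ) < b := by linarith
  have hw' : (1 : ℝ) ≤ w := by exact_mod_cast hw
  have hw0 : (0 : ℝ) < w := by linarith
  have hb8 : (0 : ℝ) < (b : ℝ) ^ 8 := by positivity
  have hzb : 4 * z * (b : ℝ) ^ 8 ≤ w := by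
    have h1 : z * (4 * (b : ℝ) ^ 8) ≤ w := (le_div_iff₀ (by positivity)).1 hz
    linarith
  have he : 0 ≤ Real.exp z - 1 := by
    have := Real.add_one_le_exp z
    linarith
  rcases le_total (w : ℝ) ((b : ℝ) ^ 2) with hle | hgt
  · -- small `w`
    have h1 : 1 + ((8 * w ^ 2 : ℕ) : ℝ) * (Real.exp z - 1) ≤ (1 + (Real.exp z - 1)) ^ (8 * w ^ 2) :=
      one_add_mul_le_pow (by linarith) _
    rw [add_sub_cancel, ← Real.exp_nat_mul] at h1
    push_cast at h1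
    refine h1.trans (Real.exp_le_exp.2 ?_)
    rw [le_div_iff₀ hb0]
    -- `8 w^2 z b ≤ 4 w`
    have h2 : (w : ℝ) ^ 2 ≤ (b : ℝ) ^ 4 := by
      calc (w : ℝ) ^ 2 ≤ ((b : ℝ) ^ 2) ^ 2 := by gcongr
        _ = (b : ℝ) ^ 4 := by ring
    have h3 : (b : ℝ) ^ 5 * 2 ≤ (b : ℝ) ^ 8 := by
      have h4 : (2 : ℝ) ≤ (b : ℝ) ^ 3 := by
        have : (16 : ℝ) ^ 3 ≤ (b : ℝ) ^ 3 := by gcongr
        linarith
      calc (b : ℝ) ^ 5 * 2 ≤ (b : ℝ) ^ 5 * (b : ℝ) ^ 3 := by gcongr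
        _ = (b : ℝ) ^ 8 := by ring
    calc 8 * (w : ℝ) ^ 2 * z * b = 8 * (w : ℝ) ^ 2 * (z * b) := by ring
      _ ≤ 8 * (b : ℝ) ^ 4 * (z * b) := by gcongr
      _ = 4 * z * ((b : ℝ) ^ 5 * 2) := by ring
      _ ≤ 4 * z * (b : ℝ) ^ 8 := by gcongr
      _ ≤ w := hzb
      _ ≤ 4 * w := by linarith
  · -- large `w`
    set u : ℝ := Real.sqrt w with hu
    have hu2 : u ^ 2 = w := Real.sq_sqrt hw0.le
    have hub : (b : ℝ) ≤ u := by
      rw [hu]
      exact Real.le_sqrt_of_sq_le hgt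
    have hu0 : 0 < u := by linarith
    have h8 : 1 ≤ 8 * (w : ℝ) ^ 2 := by nlinarith
    have h1 : 1 + 8 * (w : ℝ) ^ 2 * (Real.exp z - 1) ≤ 8 * (w : ℝ) ^ 2 * Real.exp z := by linarith
    have h2 : 8 * (w : ℝ) ^ 2 ≤ Real.exp (3 * u) := by
      have h3 := Real.pow_div_factorial_le_exp (3 * u) (by positivity) 5
      refine le_trans ?_ h3
      have h4 : ((Nat.factorial 5 : ℕ) : ℝ) = 120 := by norm_num [Nat.factorial]
      rw [h4, le_div_iff₀ (by norm_num), ← hu2]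
      have h5 : 0 ≤ u ^ 4 := by positivity
      have h6 : (16 : ℝ) ≤ u := by linarith
      have h7 : (3 * u) ^ 5 = 243 * (u * u ^ 4) := by ring
      rw [h7]
      have h8 : 16 * u ^ 4 ≤ u * u ^ 4 := by gcongr
      calc 8 * (u ^ 2) ^ 2 * 120 = 960 * u ^ 4 := by ring
        _ ≤ 243 * (16 * u ^ 4) := by linarith
        _ ≤ 243 * (u * u ^ 4) := by linarith
    refine h1.trans ((mul_le_mul_of_nonneg_right h2 (Real.exp_pos z).le).trans ?_)
    rw [← Real.exp_add, Real.exp_le_exp, le_div_iff₀ hb0, ← hu2]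
    have h9 : z * b ≤ w := by
      have h10 : (b : ℝ) ≤ 4 * (b : ℝ) ^ 8 := by
        have : (1 : ℝ) ≤ (b : ℝ) ^ 7 := one_le_pow₀ (by linarith)
        calc (b : ℝ) = b * 1 := by ring
          _ ≤ b * (b : ℝ) ^ 7 := by gcongr
          _ = (b : ℝ) ^ 8 := by ring
          _ ≤ 4 * (b : ℝ) ^ 8 := by linarith
      calc z * b ≤ z * (4 * (b : ℝ) ^ 8) := by gcongr
        _ = 4 * z * (b : ℝ) ^ 8 := by ring
        _ ≤ w := hzb
    rw [← hu2] at h9
    nlinarith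

end Pool.Agent.Helper43.OL
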