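import Pool.Agent.Helper43.OL.St

/-!
Project OL, module OF: the block graph is `4 mm κ`-choosable
-/

set_option autoImplicit false

namespace Pool.Agent.Helper43.OL

open Finset

private theorem irrefl_OF {b : ℕ} (H : Tm b) (hH : ∀ t, H t ⊆ P0 b t) :
    ∀ (t : ℕ) (x : V b t), ¬ AB H t x x
  | 0, _ => fun h => h
  | (t + 1), x => by
      intro h
      rcases h with ⟨_, h⟩ | h
      · exact irrefl_OF H hH t (tl x) h
      · have h1 := hH t h
        simp only [P0, Finset.mem_filter, Finset.mem_univ, true_and] at h1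
        rw [h1.1] at h1
        exact absurd h1.2.1 (by decide)

theorem hOF (hCH : StCH) (hZO : StZO) (hTH : StTH) (hCF : StCF) (hGR : StGR) (hNO : StNO) :
    StOF := by
  classical
  intro κ H hκ hH hdeg hSB L hL
  obtain ⟨hθ0, hθ1, hq, hm, hs1, hs2, hs3⟩ := hNO κ hκ (1 / (bb κ : ℝ) ^ 25) rfl
  have hCF' := hCF κ H
  set θ : ℝ := 1 / (bb κ : ℝ) ^ 25 with hθ
  -- shrink the lists
  have hsub : ∀ x, ∃ L' ⊆ L x, L'.card = 4 * mm κ := fun x =>
    Finset.exists_subset_card_eq (hL x)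
  choose L' hL'sub hL'card using hsub
  set N₀ : ℕ → Option Bool := fun _ => none with hN₀
  obtain ⟨N', _, hnr, hng⟩ := hCH (V (bb κ) (DD κ)) (side (DD κ)) L' N₀ (qq κ) (mm κ) (θ ^ 6)
    hL'card hq hm
  rw [card_V] at hnr hng
  push_cast at hnr hng
  have hb0 : (0 : ℝ) ≤ 2 * (bb κ : ℝ) ^ (DD κ) := by positivity
  have hθ3 : 0 ≤ θ ^ 3 := by positivity
  have hθ6 : 0 ≤ θ ^ 6 := by positivity
  have hbθ : 0 ≤ (bb κ : ℝ) * θ ^ 3 := by positivity
  have hnr' : (nr (mm κ) (DD κ) L' N' : ℝ) ≤ θ ^ 3 * (2 * (bb κ : ℝ) ^ (DD κ)) := by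
    refine le_trans ?_ (mul_le_mul_of_nonneg_right hs2 hb0)
    exact hnr
  have hrich : ∀ x, mm κ ≤ (nn L' N₀ x).card := by
    intro x
    have : nn L' N₀ x = L' x := by
      simp [nn, hN₀]
    rw [this, hL'card]
    omega
  have hng' : (ng (qq κ) (DD κ) L' N' : ℝ) ≤ θ * (2 * (bb κ : ℝ) ^ (DD κ)) := by
    have h6 : θ ^ 6 ≤ θ := by linarith
    refine le_trans ?_ (mul_le_mul_of_nonneg_right h6 hb0)
    refine le_trans ?_ hng
    have : (univ.filter fun x => ¬ qq κ + 1 ≤ (rs (side (DD κ)) L' N' x).card) ⊆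
        (univ.filter fun x => mm κ ≤ (nn L' N₀ x).card ∧
          ¬ qq κ + 1 ≤ (rs (side (DD κ)) L' N' x).card) := by
      intro x hx
      rw [Finset.mem_filter] at hx ⊢
      exact ⟨hx.1, hrich x, hx.2⟩
    unfold ng
    exact_mod_cast Finset.card_le_card this
  have hZP := hZO (bb κ) (qq κ) (mm κ) θ (θ ^ 3) (θ ^ 6) hθ0 hθ1 (by positivity) hθ6 hq hm hs1 hs2
    hs3 (DD κ)
  obtain ⟨cd, _, _, hcd, _, _, _, _, hconf⟩ := hZP L' N₀ N' hL'card (fun c h => absurd rfl h)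
    hng' hnr'
  have hE := hTH κ H hκ hSB
  have hcf := hCF' cd hκ hH hdeg hE hconf
  obtain ⟨c, hc1, hc2⟩ := hGR (V (bb κ) (DD κ)) (AB H (DD κ)) cd (5 * κ + 1)
    (irrefl_OF H hH (DD κ)) (fun x => by
      have := (hcd x).2
      unfold qq at this
      omega) hcf
  exact ⟨c, fun x => hL'sub x ((hcd x).1 (hc1 x)), hc2⟩

end Pool.Agent.Helper43.OL
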