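import Pool.Agent.Helper43.OL.St

/-!
Project OL (MP_ff53f3), module PO: a power of two beats a polynomial of a linear function.
-/

set_option autoImplicit false

namespace Pool.Agent.Helper43.OL

open Finset

private theorem eval_le_PO (q : Polynomial ℕ) (k : ℕ) (hk : 1 ≤ k) :
    q.eval k ≤ q.eval 1 * k ^ q.natDegree := by
  rw [Polynomial.eval_eq_sum_range, Polynomial.eval_eq_sum_range, Finset.sum_mul]
  apply Finset.sum_le_sum
  intro i hi
  have h1 : i ≤ q.natDegree := Nat.lt_succ_iff.1 (Finset.mem_range.1 hi)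
  simp only [one_pow, mul_one]
  exact Nat.mul_le_mul_left _ (Nat.pow_le_pow_right hk h1)

theorem hPO : StPO := by
  intro p
  set l : Polynomial ℕ := Polynomial.C 7440 * Polynomial.X + Polynomial.C 36096 with hl
  set q : Polynomial ℕ := p.comp l with hq
  have hlin : ∀ κ : ℕ, 4 * mm κ = l.eval κ := by
    intro κ
    simp only [hl, Polynomial.eval_add, Polynomial.eval_mul, Polynomial.eval_C, Polynomial.eval_X]
    unfold mm qq be
    ring
  have hev : ∀ κ : ℕ, p.eval (4 * mm κ) = q.eval κ := by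
    intro κ
    rw [hq, Polynomial.eval_comp, hlin]
  have ht := tendsto_pow_const_div_const_pow_of_one_lt q.natDegree (r := (2 : ℝ)) (by norm_num)
  obtain ⟨c, hc⟩ : ∃ c : ℕ, c = q.eval 1 := ⟨_, rfl⟩
  have hC : (0 : ℝ) < 1 / ((c : ℝ) + 1) := by positivity
  have h1 : ∀ᶠ n : ℕ in Filter.atTop, (n : ℝ) ^ q.natDegree / 2 ^ n < 1 / ((c : ℝ) + 1) :=
    ht.eventually (gt_mem_nhds hC)
  obtain ⟨κ, h2, h3⟩ := (h1.and (Filter.eventually_ge_atTop 1)).exists
  refine ⟨κ, h3, ?_⟩
  rw [hev]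
  refine (eval_le_PO q κ h3).trans ?_
  rw [← hc]
  unfold KK
  rw [div_lt_div_iff₀ (by positivity) (by positivity)] at h2
  have h4 : (κ : ℝ) ^ q.natDegree * ((c : ℝ) + 1) < 2 ^ κ := by simpa using h2
  have h5 : ((κ ^ q.natDegree * (c + 1) : ℕ) : ℝ) < ((2 ^ κ : ℕ) : ℝ) := by
    push_cast
    exact h4
  have h6 : κ ^ q.natDegree * (c + 1) < 2 ^ κ := by exact_mod_cast h5
  nlinarith [Nat.zero_le (κ ^ q.natDegree)]

end Pool.Agent.Helper43.OL
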