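import Pool.Agent.Helper43.OL.St

/-!
Project OL, module PR: the number of allowed pairs inside a set
-/

set_option autoImplicit false

namespace Pool.Agent.Helper43.OL

open Finset

theorem hPR : StPR := by
  intro b t W
  have hsub : ((P0 b t).filter fun p => p.1 ∈ W ∧ p.2 ∈ W) ⊆
      (W.filter fun x => side (t + 1) x = false) ×ˢ (W.filter fun x => ¬ side (t + 1) x = false) := by
    intro p hp
    rw [Finset.mem_filter] at hp
    obtain ⟨h0, h1, h2⟩ := hp
    unfold P0 at h0
    rw [Finset.mem_filter] at h0
    obtain ⟨-, h3, h4, -⟩ := h0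
    rw [Finset.mem_product, Finset.mem_filter, Finset.mem_filter]
    refine ⟨⟨h1, h3⟩, h2, ?_⟩
    rw [h4]
    exact Bool.noConfusion
  have h1 := Finset.card_le_card hsub
  rw [Finset.card_product] at h1
  have h2 := Finset.card_filter_add_card_filter_not (s := W) (fun x => side (t + 1) x = false)
  unfold en
  generalize ((P0 b t).filter fun p => p.1 ∈ W ∧ p.2 ∈ W).card = n at h1 ⊢
  generalize (W.filter fun x => side (t + 1) x = false).card = a at h1 h2
  generalize (W.filter fun x => ¬ side (t + 1) x = false).card = c at h1 h2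
  rw [← h2]
  have h3 : 4 * (a * c) ≤ (a + c) ^ 2 := by
    zify
    nlinarith [sq_nonneg ((a : ℤ) - c)]
  omega

end Pool.Agent.Helper43.OL
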