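import Pool.Agent.Helper43.OL.St

/-!
Project OL (MP_ff53f3), module SY: choice of the templates one after the other.
-/

set_option autoImplicit false

namespace Pool.Agent.Helper43.OL

open Finset

/-- the potential at height `t` depends only on the templates below `t` -/
theorem psi_congr_SY {b : ℕ} (G0 : ℕ) (H H' : Tm b) : ∀ t : ℕ, (∀ s < t, H s = H' s) →
    ∀ W : Finset (V b t), Psi G0 H t W = Psi G0 H' t W
  | 0, _, _ => rfl
  | (t + 1), h, W => by
      have h1 : ∀ i, Psi G0 H t (ch W i) = Psi G0 H' t (ch W i) := fun i =>
        psi_congr_SY G0 H H' t (fun s hs => h s (Nat.lt_succ_of_lt hs)) (ch W i)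
      have h2 : H t = H' t := h t (Nat.lt_succ_self t)
      show (∑ i, Psi G0 H t (ch W i)) + lam b G0 (t + 1) W.card * en (H t) W
        = (∑ i, Psi G0 H' t (ch W i)) + lam b G0 (t + 1) W.card * en (H' t) W
      rw [h2, Finset.sum_congr rfl fun i _ => h1 i]

theorem sb_zero_SY (b : ℕ) (F : Finset (V b 0) → ℕ) (hF : ∀ W, F W = 0) : SB b 0 F := by
  intro w
  have h1 : (∑ W ∈ powersetCard w (univ : Finset (V b 0)), (2 : ℝ) ^ (F W))
      = ((2 * b ^ 0).choose w : ℝ) := by
    rw [Finset.sum_congr rfl fun W _ => by rw [hF W, pow_zero]]
    rw [Finset.sum_const, Finset.card_powersetCard, Finset.card_univ, card_V]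
    simp
  rw [h1]
  simp

theorem hSY (hLV : StLV) : StSY := by
  intro κ hκ
  have key : ∀ n, n ≤ DD κ → ∃ H : Tm (bb κ), (∀ t, H t ⊆ P0 (bb κ) t) ∧
      (∀ t < n, ExpP (KK κ) (H t) ∧ DegP (H t)) ∧ ∀ t ≤ n, SB (bb κ) t (Psi (GG κ) H t) := by
    intro n
    induction n with
    | zero =>
        intro _
        refine ⟨fun _ => ∅, fun t => Finset.empty_subset _, fun t ht => absurd ht (by omega), ?_⟩
        intro t ht
        obtain rfl : t = 0 := by omega
        exact sb_zero_SY _ _ fun W => rfl
    | succ n ih =>
        intro hn
        obtain ⟨H, h1, h2, h3⟩ := ih (by omega)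
        obtain ⟨T, hT, hE, hD, hS⟩ := hLV κ n (Psi (GG κ) H n) hκ hn (h3 n le_rfl)
        have hlt : ∀ s < n, (Function.update H n T : Tm (bb κ)) s = H s := fun s hs =>
          Function.update_of_ne (by omega) _ _
        have heq : (Function.update H n T : Tm (bb κ)) n = T := Function.update_self _ _ _
        refine ⟨Function.update H n T, ?_, ?_, ?_⟩
        · intro t
          by_cases ht : t = n
          · subst ht
            rw [heq]
            exact hT
          · rw [Function.update_of_ne ht]
            exact h1 t
        · intro t ht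
          rcases Nat.lt_succ_iff_lt_or_eq.1 ht with h | h
          · rw [hlt t h]
            exact h2 t h
          · subst h
            rw [heq]
            exact ⟨hE, hD⟩
        · intro t ht
          rcases Nat.lt_or_ge t (n + 1) with h | h
          · have h4 : Psi (GG κ) (Function.update H n T : Tm (bb κ)) t = Psi (GG κ) H t := by
              funext W
              exact psi_congr_SY _ _ _ t (fun s hs => hlt s (by omega)) W
            rw [h4]
            exact h3 t (by omega)
          · obtain rfl : t = n + 1 := by omega
            have h4 : Psi (GG κ) (Function.update H n T : Tm (bb κ)) (n + 1)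
                = fun W => (∑ i, Psi (GG κ) H n (ch W i)) + lam (bb κ) (GG κ) (n + 1) W.card * en T W := by
              funext W
              show (∑ i, Psi (GG κ) (Function.update H n T : Tm (bb κ)) n (ch W i))
                + lam (bb κ) (GG κ) (n + 1) W.card * en ((Function.update H n T : Tm (bb κ)) n) W = _
              rw [heq, Finset.sum_congr rfl fun i _ => psi_congr_SY _ _ H n (fun s hs => hlt s hs) (ch W i)]
            rw [h4]
            exact hS
  obtain ⟨H, h1, h2, h3⟩ := key (DD κ) le_rfl
  exact ⟨H, h1, h2, h3⟩

end Pool.Agent.Helper43.OL
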