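import Pool.Agent.Helper43.OL.St

/-!
Project OL (MP_ff53f3): module TA (tail bound).
-/

set_option autoImplicit false

namespace Pool.Agent.Helper43.OL

open Finset

private theorem sum_TA (J : Finset (Fin 4)) :
    ∑ j : Fin 4, (if j ∈ J then (1 / 2 : ℝ) else 1) = 4 - (J.card : ℝ) / 2 := by
  have h1 : ∀ j : Fin 4, (if j ∈ J then (1 / 2 : ℝ) else 1) = 1 - (if j ∈ J then (1 / 2 : ℝ) else 0) := by
    intro j
    by_cases h : j ∈ J
    · simp only [h, if_true]; norm_num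
    · simp only [h, if_false]; norm_num
  rw [Finset.sum_congr rfl fun j _ => h1 j, Finset.sum_sub_distrib]
  simp only [Finset.sum_const, Finset.card_univ, Fintype.card_fin, nsmul_eq_mul, mul_one,
    Finset.sum_ite_mem, Finset.univ_inter]
  push_cast
  ring

theorem hTA : StTA := by
  intro C S J q hSC
  set X : (C → Fin 4) → ℕ := fun ω =>
    (univ.filter fun c : C => (c : ℕ) ∈ S ∧ ω c ∈ J).card with hX
  set g : C → Fin 4 → ℝ := fun c j => if (c : ℕ) ∈ S ∧ j ∈ J then (1 / 2 : ℝ) else 1 with hg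
  -- the exponential moment
  have h1 : ∀ ω : C → Fin 4, ∏ c : C, g c (ω c) = (1 / 2 : ℝ) ^ X ω := by
    intro ω
    rw [hX, hg]
    simp only
    rw [Finset.prod_ite]
    simp
  have h2 : ∑ ω : C → Fin 4, (1 / 2 : ℝ) ^ X ω = ∏ c : C, ∑ j : Fin 4, g c j := by
    rw [Finset.prod_univ_sum, Fintype.piFinset_univ]
    exact Finset.sum_congr rfl fun ω _ => (h1 ω).symm
  have h3 : ∀ c : C, ∑ j : Fin 4, g c j = if (c : ℕ) ∈ S then 4 - (J.card : ℝ) / 2 else 4 := by
    intro c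
    by_cases h : (c : ℕ) ∈ S
    · simp only [hg, h, true_and, if_true]
      exact sum_TA J
    · simp [hg, h]
  have h4 : ∏ c : C, (if (c : ℕ) ∈ S then 4 - (J.card : ℝ) / 2 else 4)
      = ((4 - (J.card : ℝ) / 2) / 4) ^ S.card * 4 ^ C.card := by
    have e1 : ∏ c : C, (if (c : ℕ) ∈ S then 4 - (J.card : ℝ) / 2 else 4)
        = ∏ c ∈ C, (if c ∈ S then 4 - (J.card : ℝ) / 2 else 4) :=
      Finset.prod_coe_sort C (fun c => if c ∈ S then 4 - (J.card : ℝ) / 2 else 4)
    have e2 : ∏ c ∈ C, (if c ∈ S then 4 - (J.card : ℝ) / 2 else 4)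
        = ∏ c ∈ C, ((if c ∈ S then (4 - (J.card : ℝ) / 2) / 4 else 1) * 4) := by
      refine Finset.prod_congr rfl fun c _ => ?_
      split_ifs <;> ring
    rw [e1, e2, Finset.prod_mul_distrib, Finset.prod_const, Finset.prod_ite_mem,
      Finset.inter_eq_right.2 hSC, Finset.prod_const]
  have h5 : ((univ.filter fun ω : C → Fin 4 => X ω ≤ q).card : ℝ)
      ≤ ∑ ω : C → Fin 4, 2 ^ q * (1 / 2 : ℝ) ^ X ω := by
    rw [Finset.card_filter, Nat.cast_sum]
    refine Finset.sum_le_sum fun ω _ => ?_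
    split_ifs with h
    · have h6 : (1 : ℝ) = 2 ^ q * (1 / 2 : ℝ) ^ q := by
        rw [← mul_pow]; norm_num
      have h7 : (1 / 2 : ℝ) ^ q ≤ (1 / 2 : ℝ) ^ X ω :=
        pow_le_pow_of_le_one (by norm_num) (by norm_num) h
      calc ((1 : ℕ) : ℝ) = 2 ^ q * (1 / 2 : ℝ) ^ q := by rw [Nat.cast_one]; exact h6
        _ ≤ 2 ^ q * (1 / 2 : ℝ) ^ X ω := mul_le_mul_of_nonneg_left h7 (by positivity)
    · simp only [Nat.cast_zero]
      positivity
  refine h5.trans (le_of_eq ?_)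
  rw [← Finset.mul_sum, h2, Finset.prod_congr rfl fun c _ => h3 c, h4]
  ring

end Pool.Agent.Helper43.OL
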