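import Pool.Agent.Helper43.OL.St

set_option autoImplicit false

namespace Pool.Agent.Helper43.OL

open Finset

private theorem gg_le_TH (κ t w : ℕ) : gg (bb κ) t w ≤ be κ * t := by
  unfold gg bb
  rw [← pow_mul]
  calc Nat.log 2 (2 ^ (be κ * t) / w) ≤ Nat.log 2 (2 ^ (be κ * t)) :=
        Nat.log_mono_right (Nat.div_le_self _ _)
    _ = be κ * t := Nat.log_pow (by norm_num) _

private theorem gg_lt_TH (κ t w : ℕ) (ht : t ≤ DD κ) : gg (bb κ) t w < GG κ * 2 ^ κ := by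
  have h1 := gg_le_TH κ t w
  have hbe : 0 < be κ := by unfold be; omega
  have h2k : 0 < 2 ^ κ := by positivity
  have h2 : t < 20 * 2 ^ κ := by
    unfold DD at ht
    omega
  calc gg (bb κ) t w ≤ be κ * t := h1
    _ < be κ * (20 * 2 ^ κ) := Nat.mul_lt_mul_of_pos_left h2 hbe
    _ = GG κ * 2 ^ κ := by unfold GG; ring

private theorem cls_TH (κ g : ℕ) (h1 : GG κ ≤ g) (h2 : g < GG κ * 2 ^ κ) :
    ∃ j ∈ range κ, GG κ * 2 ^ j ≤ g ∧ g < 2 * (GG κ * 2 ^ j) := by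
  have hG : 0 < GG κ := by unfold GG be; omega
  have hq1 : 1 ≤ g / GG κ := (Nat.one_le_div_iff hG).2 h1
  have hq0 : g / GG κ ≠ 0 := by omega
  have hq2 : g / GG κ < 2 ^ κ := Nat.div_lt_of_lt_mul h2
  refine ⟨Nat.log 2 (g / GG κ), ?_, ?_, ?_⟩
  · rw [mem_range]
    exact Nat.log_lt_of_lt_pow hq0 hq2
  · have h3 : 2 ^ Nat.log 2 (g / GG κ) ≤ g / GG κ := Nat.pow_log_le_self 2 hq0
    calc GG κ * 2 ^ Nat.log 2 (g / GG κ) ≤ GG κ * (g / GG κ) := Nat.mul_le_mul_left _ h3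
      _ ≤ g := Nat.mul_div_le _ _
  · have h4 : g / GG κ < 2 ^ (Nat.log 2 (g / GG κ) + 1) :=
      Nat.lt_pow_succ_log_self (by norm_num) _
    have h5 : g < GG κ * 2 ^ (Nat.log 2 (g / GG κ) + 1) := by
      have h6 := Nat.lt_mul_of_div_lt h4 hG
      rwa [mul_comm] at h6
    calc g < GG κ * 2 ^ (Nat.log 2 (g / GG κ) + 1) := h5
      _ = 2 * (GG κ * 2 ^ Nat.log 2 (g / GG κ)) := by rw [pow_succ]; ring

private theorem split_TH (κ : ℕ) (H : Tm (bb κ)) : ∀ t ≤ DD κ, ∀ W : Finset (V (bb κ) t),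
    Ecl (fun g => GG κ ≤ g) H t W ≤
      ∑ j ∈ range κ, Ecl (fun g => GG κ * 2 ^ j ≤ g ∧ g < 2 * (GG κ * 2 ^ j)) H t W := by
  intro t
  induction t with
  | zero =>
    intro _ W
    simp [Ecl]
  | succ t ih =>
    intro htD W
    simp only [Ecl]
    rw [Finset.sum_add_distrib, Finset.sum_comm]
    refine Nat.add_le_add (Finset.sum_le_sum fun i _ => ih (by omega) (ch W i)) ?_
    split_ifs with hc
    · obtain ⟨j, hj, hj2⟩ := cls_TH κ _ hc (gg_lt_TH κ (t + 1) W.card htD)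
      calc en (H t) W = (if GG κ * 2 ^ j ≤ gg (bb κ) (t + 1) W.card ∧
            gg (bb κ) (t + 1) W.card < 2 * (GG κ * 2 ^ j) then en (H t) W else 0) := by
              rw [if_pos hj2]
        _ ≤ _ := Finset.single_le_sum
              (f := fun j => if GG κ * 2 ^ j ≤ gg (bb κ) (t + 1) W.card ∧
                gg (bb κ) (t + 1) W.card < 2 * (GG κ * 2 ^ j) then en (H t) W else 0)
              (fun _ _ => Nat.zero_le _) hj
    · exact Nat.zero_le _

private theorem num_TH (κ : ℕ) : 16 * DD κ ≤ bb κ := by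
  unfold DD bb be
  have h1 : (2 : ℕ) ^ (2 * κ + 10) = 1024 * (2 ^ κ * 2 ^ κ) := by
    rw [pow_add, two_mul κ, pow_add]
    norm_num
    ring
  rw [h1]
  have h2 : 1 ≤ 2 ^ κ := Nat.one_le_two_pow
  have h3 : 2 ^ κ ≤ 2 ^ κ * 2 ^ κ := Nat.le_mul_of_pos_left _ h2
  omega

theorem hTH (hPB : StPB) (hCL : StCL) : StTH := by
  intro κ H _ hSB t ht W
  have hb1 : 1 ≤ bb κ := by unfold bb; exact Nat.one_le_two_pow
  have hnum := num_TH κ
  have hP : ∀ s ≤ DD κ, ∀ W' : Finset (V (bb κ) s),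
      Psi (GG κ) H s W' ≤ (gg (bb κ) s W'.card + 4) * W'.card := by
    intro s hs W'
    exact hPB (bb κ) s (Psi (GG κ) H s) hb1 (by omega) (hSB s hs) W'
  refine (split_TH κ H t ht W).trans ?_
  have hj : ∀ j ∈ range κ,
      Ecl (fun g => GG κ * 2 ^ j ≤ g ∧ g < 2 * (GG κ * 2 ^ j)) H t W ≤ 5 * W.card := by
    intro j _
    have h2j : 1 ≤ 2 ^ j := Nat.one_le_two_pow
    have hge : GG κ ≤ GG κ * 2 ^ j := Nat.le_mul_of_pos_right _ h2j
    have hG6 : 6 ≤ GG κ := by unfold GG be; omega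
    have hev : Even (GG κ * 2 ^ j) := by
      refine Even.mul_right ?_ _
      unfold GG
      exact Even.mul_right (by decide) _
    exact hCL (bb κ) (GG κ) (DD κ) H hP (GG κ * 2 ^ j) hge hev (by omega) t ht W
  calc _ ≤ ∑ _j ∈ range κ, 5 * W.card := Finset.sum_le_sum hj
    _ = 5 * κ * W.card := by
      rw [Finset.sum_const, card_range, smul_eq_mul]
      ring

end Pool.Agent.Helper43.OL
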