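import Pool.Agent.Helper43.OL.St

set_option autoImplicit false

namespace Pool.Agent.Helper43.OL

open Finset Polynomial

private theorem pow_coeff_VM (P Q : ℝ[X]) (h : ∀ n, 0 ≤ P.coeff n ∧ P.coeff n ≤ Q.coeff n) :
    ∀ k n, 0 ≤ (P ^ k).coeff n ∧ (P ^ k).coeff n ≤ (Q ^ k).coeff n
  | 0, n => by
      simp only [pow_zero]
      refine ⟨?_, le_refl _⟩
      rw [coeff_one]
      split_ifs <;> norm_num
  | (k + 1), n => by
      have ih := pow_coeff_VM P Q h k
      rw [pow_succ, pow_succ, coeff_mul, coeff_mul]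
      constructor
      · exact Finset.sum_nonneg fun x _ => mul_nonneg (ih _).1 (h _).1
      · exact Finset.sum_le_sum fun x _ =>
          mul_le_mul (ih _).2 (h _).2 (h _).1 ((ih _).1.trans (ih _).2)

private theorem coeff_lin_VM (c : ℝ) (n w : ℕ) :
    ((1 + C c * X : ℝ[X]) ^ n).coeff w = (n.choose w : ℝ) * c ^ w := by
  have h1 : (1 + C c * X : ℝ[X]) ^ n = ((1 + X : ℝ[X]) ^ n).comp (C c * X) := by
    simp
  rw [h1, comp_C_mul_X_coeff, coeff_one_add_X_pow]

private def fam_VM (b t : ℕ) : Finset (V b (t + 1)) ≃ (Fin b → Finset (V b t)) where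
  toFun W := fun i => ch W i
  invFun S := univ.filter fun x => tl x ∈ S (hd x)
  left_inv W := by
    ext x
    simp
  right_inv S := by
    funext i
    ext y
    simp

theorem hVM : StVM := by
  intro b t F c hc hF hS w
  obtain ⟨P, hP⟩ : ∃ P : ℝ[X], P = ∑ S : Finset (V b t), C (F S) * X ^ S.card := ⟨_, rfl⟩
  have hPc : ∀ n, P.coeff n = ∑ S ∈ powersetCard n (univ : Finset (V b t)), F S := by
    intro n
    rw [hP, finsetSum_coeff]
    simp only [coeff_C_mul, coeff_X_pow]
    rw [← Finset.sum_subset (Finset.subset_univ (powersetCard n (univ : Finset (V b t))))]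
    · refine Finset.sum_congr rfl fun S hS' => ?_
      rw [Finset.mem_powersetCard] at hS'
      rw [if_pos hS'.2.symm, mul_one]
    · intro S _ hS'
      rw [if_neg, mul_zero]
      intro h
      exact hS' (Finset.mem_powersetCard.2 ⟨Finset.subset_univ _, h.symm⟩)
  have hcmp : ∀ n, 0 ≤ P.coeff n ∧ P.coeff n ≤ ((1 + C c * X : ℝ[X]) ^ (2 * b ^ t)).coeff n := by
    intro n
    rw [hPc, coeff_lin_VM]
    exact ⟨Finset.sum_nonneg fun S _ => hF S, hS n⟩
  have key := (pow_coeff_VM P _ hcmp b w).2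
  rw [← pow_mul, coeff_lin_VM] at key
  have e1 : 2 * b ^ t * b = 2 * b ^ (t + 1) := by ring
  rw [e1] at key
  refine le_trans (le_of_eq ?_) key
  have h2 : P ^ b = ∑ W : Finset (V b (t + 1)), C (∏ i, F (ch W i)) * X ^ W.card := by
    have h3 : P ^ b = ∏ _i : Fin b, P := by simp
    rw [h3, hP, Finset.prod_univ_sum, Fintype.piFinset_univ]
    rw [← (fam_VM b t).sum_comp]
    refine Finset.sum_congr rfl fun W _ => ?_
    rw [Finset.prod_mul_distrib, map_prod, card_eq_sum_ch, Finset.prod_pow_eq_pow_sum]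
    rfl
  rw [h2, finsetSum_coeff]
  simp only [coeff_C_mul, coeff_X_pow]
  rw [← Finset.sum_subset (Finset.subset_univ (powersetCard w (univ : Finset (V b (t + 1)))))]
  · refine Finset.sum_congr rfl fun W hW => ?_
    rw [Finset.mem_powersetCard] at hW
    rw [if_pos hW.2.symm, mul_one]
  · intro W _ hW
    rw [if_neg, mul_zero]
    intro h
    exact hW (Finset.mem_powersetCard.2 ⟨Finset.subset_univ _, h.symm⟩)

end Pool.Agent.Helper43.OL
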