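import Pool.Agent.Helper43.OL.St

/-!
Project OL: module ZA (the zone lemma for blocks of height 0)
-/

set_option autoImplicit false

namespace Pool.Agent.Helper43.OL

open Finset

theorem hZA : StZA := by
  intro b q m θ θ2 hθ hθ1 hθ2 L M N hL hMN hng hnr
  have hng' : ((ng q 0 L N : ℕ) : ℝ) < 1 := by
    have h1 : θ * (2 * (b : ℝ) ^ 0) = 2 * θ := by
      rw [pow_zero]
      ring
    rw [h1] at hng
    exact lt_of_le_of_lt hng hθ1
  have hng0 : ng q 0 L N = 0 := by
    have h2 : ng q 0 L N < 1 := by exact_mod_cast hng'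
    omega
  have hgood : ∀ x : V b 0, q + 1 ≤ (rs (side 0) L N x).card := by
    intro x
    by_contra hx
    unfold ng at hng0
    rw [Finset.card_eq_zero] at hng0
    have h3 : x ∈ (univ.filter fun x => ¬ q + 1 ≤ (rs (side 0) L N x).card) :=
      Finset.mem_filter.2 ⟨Finset.mem_univ _, hx⟩
    rw [hng0] at h3
    exact absurd h3 (Finset.notMem_empty x)
  refine ⟨fun x => if q + 1 ≤ (rs (side 0) L M x).card then rs (side 0) L M x
    else rs (side 0) L N x, ∅, ∅, ?_, ?_, ?_, ?_, ?_, ?_⟩
  · intro x
    by_cases h : q + 1 ≤ (rs (side 0) L M x).card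
    · simp only [h, if_true]
      exact ⟨Finset.filter_subset _ _, trivial⟩
    · simp only [h, if_false]
      exact ⟨Finset.filter_subset _ _, hgood x⟩
  · rw [Finset.card_empty]
    have h4 : (0 : ℝ) ≤ (ng q 0 L N : ℝ) / θ := div_nonneg (Nat.cast_nonneg _) hθ.le
    have h5 : (0 : ℝ) ≤ (nr m 0 L N : ℝ) / θ2 := div_nonneg (Nat.cast_nonneg _) hθ2.le
    push_cast
    linarith
  · intro x _
    refine ⟨fun h => ?_, fun h => ?_⟩
    · simp only [h, if_true]
      exact Finset.Subset.refl _
    · simp only [h, if_false]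
      exact Finset.Subset.refl _
  · rw [Finset.card_empty]
    push_cast
    positivity
  · intro x hx
    exact absurd hx (Finset.notMem_empty x)
  · trivial

end Pool.Agent.Helper43.OL
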