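import Pool.Agent.Helper43.OL.St

/-!
Project OL (MP_ff53f3), module ZB: the zone lemma for a child of a block
-/

set_option autoImplicit false

namespace Pool.Agent.Helper43.OL

open Finset

theorem hZB (hCH : StCH) : StZB := by
  intro b q m t θ θ2 η0 hθ hθ2 hη h1 h2 h3 h4 h5 hZP L M N hL hMN hnr
  have hB : (0 : ℝ) ≤ 2 * (b : ℝ) ^ t := by positivity
  by_cases hgood : (ng q t L N : ℝ) ≤ θ * (2 * (b : ℝ) ^ t) ∧ (nr m t L N : ℝ) ≤ θ2 * (2 * (b : ℝ) ^ t)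
  · exact hZP L M N hL hMN hgood.1 hgood.2
  have hbad : 2 * (b : ℝ) ^ t ≤ (ng q t L N : ℝ) / θ + (nr m t L N : ℝ) / θ2 := by
    have e1 : 0 ≤ (ng q t L N : ℝ) / θ := div_nonneg (Nat.cast_nonneg _) hθ.le
    have e2 : 0 ≤ (nr m t L N : ℝ) / θ2 := div_nonneg (Nat.cast_nonneg _) hθ2.le
    by_cases h : (ng q t L N : ℝ) ≤ θ * (2 * (b : ℝ) ^ t)
    · have h' : θ2 * (2 * (b : ℝ) ^ t) < (nr m t L N : ℝ) := by
        by_contra hc
        exact hgood ⟨h, not_lt.1 hc⟩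
      have : 2 * (b : ℝ) ^ t ≤ (nr m t L N : ℝ) / θ2 := by
        rw [le_div_iff₀ hθ2]
        linarith
      linarith
    · have : 2 * (b : ℝ) ^ t ≤ (ng q t L N : ℝ) / θ := by
        rw [le_div_iff₀ hθ]
        linarith
      linarith
  obtain ⟨N', hN', hr, hg⟩ := hCH (V b t) (side t) L N q m η0 hL h1 h2
  have hcard : (Fintype.card (V b t) : ℝ) = 2 * (b : ℝ) ^ t := by
    rw [card_V]
    push_cast
    ring
  rw [hcard] at hr hg
  have hr' : (nr m t L N' : ℝ) ≤ η0 * (2 * (b : ℝ) ^ t) := hr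
  have hng : (ng q t L N' : ℝ) ≤ (η0 + b * θ2) * (2 * (b : ℝ) ^ t) := by
    have hsub : (univ.filter fun x : V b t => ¬ q + 1 ≤ (rs (side t) L N' x).card) ⊆
        (univ.filter fun x => ¬ m ≤ (nn L N x).card) ∪
          (univ.filter fun x => m ≤ (nn L N x).card ∧ ¬ q + 1 ≤ (rs (side t) L N' x).card) := by
      intro x hx
      have hx' := (Finset.mem_filter.1 hx).2
      by_cases hm : m ≤ (nn L N x).card
      · exact Finset.mem_union_right _ (Finset.mem_filter.2 ⟨Finset.mem_univ _, hm, hx'⟩)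
      · exact Finset.mem_union_left _ (Finset.mem_filter.2 ⟨Finset.mem_univ _, hm⟩)
    have hle : ng q t L N' ≤ nr m t L N +
        (univ.filter fun x => m ≤ (nn L N x).card ∧ ¬ q + 1 ≤ (rs (side t) L N' x).card).card :=
      (Finset.card_le_card hsub).trans (Finset.card_union_le _ _)
    have hle' : (ng q t L N' : ℝ) ≤ (nr m t L N : ℝ) +
        ((univ.filter fun x => m ≤ (nn L N x).card ∧ ¬ q + 1 ≤ (rs (side t) L N' x).card).card : ℝ) := by
      exact_mod_cast hle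
    have e1 : θ2 * (2 * (b : ℝ) ^ (t + 1)) = b * θ2 * (2 * (b : ℝ) ^ t) := by ring
    rw [e1] at hnr
    calc (ng q t L N' : ℝ) ≤ _ := hle'
      _ ≤ b * θ2 * (2 * (b : ℝ) ^ t) + η0 * (2 * (b : ℝ) ^ t) := add_le_add hnr hg
      _ = _ := by ring
  obtain ⟨cd, R', R2', c1, c2, c3, -, -, c6⟩ := hZP L N N' hL hN'
    (hng.trans (mul_le_mul_of_nonneg_right h3 hB)) (hr'.trans (mul_le_mul_of_nonneg_right h4 hB))
  refine ⟨cd, univ, R', c1, ?_, ?_, ?_, ?_, c6⟩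
  · rw [Finset.card_univ, hcard]
    exact hbad
  · intro x hx
    exact absurd (Finset.mem_univ x) hx
  · calc (R'.card : ℝ) ≤ (ng q t L N' : ℝ) / θ + (nr m t L N' : ℝ) / θ2 := c2
      _ ≤ (η0 + b * θ2) * (2 * (b : ℝ) ^ t) / θ + η0 * (2 * (b : ℝ) ^ t) / θ2 :=
        add_le_add (div_le_div_of_nonneg_right hng hθ.le) (div_le_div_of_nonneg_right hr' hθ2.le)
      _ = ((η0 + b * θ2) / θ + η0 / θ2) * (2 * (b : ℝ) ^ t) := by ring
      _ ≤ θ * (2 * (b : ℝ) ^ t) := mul_le_mul_of_nonneg_right h5 hB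
  · intro x _ hx hgd
    exact (c3 x hx).1 hgd

end Pool.Agent.Helper43.OL
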