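import Pool.Agent.Helper43.OL.St

set_option autoImplicit false

namespace Pool.Agent.Helper43.OL

open Finset

private theorem nr_ch_ZO {b t m : ℕ} (L : V b (t + 1) → Finset ℕ) (N : ℕ → Option Bool) (i : Fin b) :
    nr m t (fun y => L (cns i y)) N ≤ nr m (t + 1) L N := by
  unfold nr
  have h := Finset.card_le_card_of_injOn
    (s := univ.filter fun y : V b t => ¬ m ≤ (nn (fun y => L (cns i y)) N y).card)
    (t := univ.filter fun x : V b (t + 1) => ¬ m ≤ (nn L N x).card) (cns i)
    (by
      intro y hy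
      simp only [Finset.coe_filter, Finset.mem_univ, true_and, Set.mem_setOf_eq] at hy ⊢
      exact hy)
    (fun x _ y _ h => cns_inj_right i h)
  exact h

theorem hZO (hZA : StZA) (hZB : StZB) (hZG : StZG) (_hCH : StCH) : StZO := by
  intro b q m θ θ2 η0 h1 h2 h3 h4 h5 h6 h7 h8 h9 t
  induction t with
  | zero => exact hZA b q m θ θ2 h1 h2 h3
  | succ t ih =>
    intro L M N hL hMN hng hnr
    refine hZG b q m t θ θ2 h1 h3 L M N hMN hng ?_
    intro i
    refine hZB b q m t θ θ2 η0 h1 h3 h4 h5 h6 h7 h8 h9 ih (fun y => L (cns i y)) M N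
      (fun y => hL _) hMN ?_
    have : (nr m t (fun y => L (cns i y)) N : ℝ) ≤ (nr m (t + 1) L N : ℝ) := by
      exact_mod_cast nr_ch_ZO L N i
    exact this.trans hnr

end Pool.Agent.Helper43.OL
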