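import Pool.Agent.Helper43.OL.St

set_option autoImplicit false

namespace Pool.Agent.Helper43.OL

theorem hZZ : StZZ := by
  intro κ t w hκ hg
  have hbe : 1 ≤ be κ := by unfold be; omega
  have hGG : GG κ = 20 * be κ := rfl
  have hbb : bb κ = 2 ^ (be κ) := rfl
  have hb2 : 2 ≤ bb κ := by
    rw [hbb]
    calc 2 = 2 ^ 1 := rfl
      _ ≤ 2 ^ be κ := Nat.pow_le_pow_right (by norm_num) hbe
  have hb0 : 0 < bb κ := by omega
  have hw1 : 1 ≤ w := by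
    rcases Nat.eq_zero_or_pos w with h | h
    · exfalso
      subst h
      have : gg (bb κ) (t + 1) 0 = 0 := by simp [gg]
      rw [this] at hg
      omega
    · exact h
  have hlam : lam (bb κ) (GG κ) (t + 1) w = gg (bb κ) (t + 1) w / 2 := by
    unfold lam
    rw [if_pos hg]
  have hzz : zz κ t w = pr (bb κ) t * 2 ^ (gg (bb κ) (t + 1) w / 2) * (w : ℝ) ^ 2 / 4 := by
    unfold zz
    rw [hlam]
  have hnn : bb κ ^ (t + 1) / w ≠ 0 := by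
    intro h
    have : gg (bb κ) (t + 1) w = 0 := by simp [gg, h]
    rw [this] at hg
    omega
  have hgdef : 2 ^ (gg (bb κ) (t + 1) w) ≤ bb κ ^ (t + 1) / w := Nat.pow_log_le_self 2 hnn
  have h1 : 2 ^ (gg (bb κ) (t + 1) w) * w ≤ bb κ ^ (t + 1) :=
    (Nat.le_div_iff_mul_le (by omega)).1 hgdef
  generalize hgg : gg (bb κ) (t + 1) w = g at *
  have h20 : bb κ ^ 20 ≤ 2 ^ g := by
    rw [hbb, ← pow_mul]
    exact Nat.pow_le_pow_right (by norm_num) (by omega)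
  have h2 : bb κ ^ 20 * w ≤ bb κ ^ (t + 1) := le_trans (Nat.mul_le_mul_right w h20) h1
  have ht : 20 ≤ t + 1 := by
    have h3 : bb κ ^ 20 ≤ bb κ ^ (t + 1) := le_trans (Nat.le_mul_of_pos_right _ (by omega)) h2
    exact (Nat.pow_le_pow_iff_right (by omega)).1 h3
  obtain ⟨s, rfl⟩ : ∃ s, t = s + 1 := ⟨t - 1, by omega⟩
  -- the key inequality in natural numbers
  have hsq : (2 ^ (g / 2)) ^ 2 ≤ 2 ^ g := by
    rw [← pow_mul]
    exact Nat.pow_le_pow_right (by norm_num) (by omega)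
  have hkey : 2 ^ (g / 2) * w * bb κ ^ 8 ≤ bb κ ^ s := by
    have hsqk : (2 ^ (g / 2) * w * bb κ ^ 8) ^ 2 ≤ (bb κ ^ s) ^ 2 := by
      have e1 : (2 ^ (g / 2) * w * bb κ ^ 8) ^ 2 * bb κ ^ 4
          = ((2 ^ (g / 2)) ^ 2 * w) * (bb κ ^ 20 * w) := by ring
      have e2 : (bb κ ^ s) ^ 2 * bb κ ^ 4 = bb κ ^ (s + 1 + 1) * bb κ ^ (s + 1 + 1) := by ring
      have e3 : ((2 ^ (g / 2)) ^ 2 * w) * (bb κ ^ 20 * w) ≤ bb κ ^ (s + 1 + 1) * bb κ ^ (s + 1 + 1) :=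
        Nat.mul_le_mul (le_trans (Nat.mul_le_mul_right w hsq) h1) h2
      have e4 : (2 ^ (g / 2) * w * bb κ ^ 8) ^ 2 * bb κ ^ 4 ≤ (bb κ ^ s) ^ 2 * bb κ ^ 4 := by
        rw [e1, e2]; exact e3
      exact Nat.le_of_mul_le_mul_right e4 (by positivity)
    exact (Nat.pow_le_pow_iff_left (by norm_num)).1 hsqk
  have hkeyR : (2 : ℝ) ^ (g / 2) * w * (bb κ : ℝ) ^ 8 ≤ (bb κ : ℝ) ^ s := by exact_mod_cast hkey
  have hbR : (0 : ℝ) < (bb κ : ℝ) := by exact_mod_cast hb0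
  have hwR : (0 : ℝ) < (w : ℝ) := by exact_mod_cast hw1
  have hpr : pr (bb κ) (s + 1) = 1 / (bb κ : ℝ) ^ s := by
    unfold pr
    rw [Nat.add_sub_cancel]
  refine ⟨hw1, ?_, ?_⟩
  · rw [hzz, hpr]
    positivity
  · rw [hzz, hpr, le_div_iff₀ (by positivity)]
    have e5 : 1 / (bb κ : ℝ) ^ s * 2 ^ (g / 2) * (w : ℝ) ^ 2 / 4 * (4 * (bb κ : ℝ) ^ 8)
        = (2 ^ (g / 2) * w * (bb κ : ℝ) ^ 8) / (bb κ : ℝ) ^ s * w := by
      field_simp
    rw [e5]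
    have e6 : (2 ^ (g / 2) * w * (bb κ : ℝ) ^ 8) / (bb κ : ℝ) ^ s ≤ 1 := by
      rw [div_le_one (by positivity)]
      exact hkeyR
    calc _ ≤ 1 * (w : ℝ) := mul_le_mul_of_nonneg_right e6 hwR.le
      _ = w := one_mul _

end Pool.Agent.Helper43.OL
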