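import Pool.Agent.Helper43.OL.M_ZG
import Pool.Agent.Helper43.OL.M_LI
import Pool.Agent.Helper43.OL.M_CF
import Pool.Agent.Helper43.OL.M_VM
import Pool.Agent.Helper43.OL.M_EB
import Pool.Agent.Helper43.OL.M_CH
import Pool.Agent.Helper43.OL.M_ED
import Pool.Agent.Helper43.OL.M_EC
import Pool.Agent.Helper43.OL.M_DG
import Pool.Agent.Helper43.OL.M_ZB
import Pool.Agent.Helper43.OL.M_FI
import Pool.Agent.Helper43.OL.M_OF
import Pool.Agent.Helper43.OL.M_GR
import Pool.Agent.Helper43.OL.M_SY
import Pool.Agent.Helper43.OL.M_PB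
import Pool.Agent.Helper43.OL.M_TA
import Pool.Agent.Helper43.OL.M_ZZ
import Pool.Agent.Helper43.OL.M_CL
import Pool.Agent.Helper43.OL.M_TH
import Pool.Agent.Helper43.OL.M_EM
import Pool.Agent.Helper43.OL.M_NW
import Pool.Agent.Helper43.OL.M_LV
import Pool.Agent.Helper43.OL.M_PO
import Pool.Agent.Helper43.OL.M_ZO
import Pool.Agent.Helper43.OL.M_NO
import Pool.Agent.Helper43.OL.M_ZA
import Pool.Agent.Helper43.OL.M_EA
import Pool.Agent.Helper43.OL.M_PR
import Pool.Agent.Helper43.OL.M_BS

set_option autoImplicit false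

namespace Pool.Agent.Helper43.OL

theorem allBS : StBS := hBS hVM
theorem allED : StED := hED allBS hZZ hNW
theorem allEC : StEC := hEC allBS hPR hZZ
theorem allLV : StLV := hLV hEA hEB hDG allEC allED hZZ
theorem allSY : StSY := hSY allLV
theorem allTH : StTH := hTH hPB hCL
theorem allCH : StCH := hCH hTA
theorem allZB : StZB := hZB allCH
theorem allZO : StZO := hZO hZA allZB hZG allCH
theorem allOF : StOF := hOF allCH allZO allTH hCF hGR hNO
theorem allLI : StLI := hLI hEM
theorem allFI : StFI := hFI allOF allSY allLI hEM hPO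

end Pool.Agent.Helper43.OL
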