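import Mathlib

/-!
Project OL (MP_ff53f3): definitions and elementary lemmas.
Paper proof: team store, MP_ff53f3-OL.md
-/

set_option autoImplicit false

namespace Pool.Agent.Helper43.OL

open Finset

/-- the vertices of a block of height `t` of the `b`-ary tree: two vertices at every leaf -/
def V (b : ℕ) : ℕ → Type
  | 0 => Bool
  | (t + 1) => Fin b × V b t

instance instFV (b : ℕ) : (t : ℕ) → Fintype (V b t)
  | 0 => inferInstanceAs (Fintype Bool)
  | (t + 1) =>
      letI := instFV b t
      inferInstanceAs (Fintype (Fin b × V b t))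

instance instDV (b : ℕ) : (t : ℕ) → DecidableEq (V b t)
  | 0 => inferInstanceAs (DecidableEq Bool)
  | (t + 1) =>
      letI := instDV b t
      inferInstanceAs (DecidableEq (Fin b × V b t))

/-- put a letter in front -/
def cns {b t : ℕ} (i : Fin b) (y : V b t) : V b (t + 1) := (i, y)

/-- first letter -/
def hd {b t : ℕ} (x : V b (t + 1)) : Fin b := Prod.fst (x : Fin b × V b t)

/-- the rest -/
def tl {b t : ℕ} (x : V b (t + 1)) : V b t := Prod.snd (x : Fin b × V b t)

/-- the side of a vertex: `false` is side A, `true` is side B -/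
def side {b : ℕ} : (t : ℕ) → V b t → Bool
  | 0, x => x
  | (t + 1), x => side t (tl x)

/-- the part of `W` in child `i` -/
def ch {b t : ℕ} (W : Finset (V b (t + 1))) (i : Fin b) : Finset (V b t) :=
  univ.filter fun y => cns i y ∈ W

/-- a system of templates, `H t` is used at the nodes of height `t + 1` -/
abbrev Tm (b : ℕ) : Type := (t : ℕ) → Finset (V b (t + 1) × V b (t + 1))

/-- allowed pairs at nodes of height `t + 1`: first vertex on side A, second on side B, different children -/
def P0 (b t : ℕ) : Finset (V b (t + 1) × V b (t + 1)) :=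
  univ.filter fun p => side (t + 1) p.1 = false ∧ side (t + 1) p.2 = true ∧ hd p.1 ≠ hd p.2

/-- number of pairs of `T` inside `W` -/
def en {α : Type} [DecidableEq α] (T : Finset (α × α)) (W : Finset α) : ℕ :=
  (T.filter fun p => p.1 ∈ W ∧ p.2 ∈ W).card

/-- the adjacency relation (from side A to side B) of the block of height `t` -/
def AB {b : ℕ} (H : Tm b) : (t : ℕ) → V b t → V b t → Prop
  | 0, _, _ => False
  | (t + 1), x, y => (hd x = hd y ∧ AB H t (tl x) (tl y)) ∨ (x, y) ∈ H t

/-- binary logarithm of the inverse density -/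
def gg (b t w : ℕ) : ℕ := Nat.log 2 (b ^ t / w)

/-- the weight of a template edge inside a set of `w` vertices of a block of height `t` -/
def lam (b G0 t w : ℕ) : ℕ := if G0 ≤ gg b t w then gg b t w / 2 else 0

/-- the potential -/
def Psi {b : ℕ} (G0 : ℕ) (H : Tm b) : (t : ℕ) → Finset (V b t) → ℕ
  | 0, _ => 0
  | (t + 1), W => (∑ i, Psi G0 H t (ch W i)) + lam b G0 (t + 1) W.card * en (H t) W

/-- number of template edges of `W` at nodes where `P` holds for the binary logarithm of the inverse density -/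
def Ecl {b : ℕ} (P : ℕ → Prop) [DecidablePred P] (H : Tm b) : (t : ℕ) → Finset (V b t) → ℕ
  | 0, _ => 0
  | (t + 1), W => (∑ i, Ecl P H t (ch W i)) + if P (gg b (t + 1) W.card) then en (H t) W else 0

/-- expansion property of a template -/
def ExpP {b t : ℕ} (K : ℕ) (T : Finset (V b (t + 1) × V b (t + 1))) : Prop :=
  ∀ i j : Fin b, i ≠ j → ∀ X Y : Finset (V b t), (∀ x ∈ X, side t x = false) → (∀ y ∈ Y, side t y = true) →
    b ^ t ≤ 4 * K * X.card → b ^ t ≤ 4 * K * Y.card → ∃ x ∈ X, ∃ y ∈ Y, (cns i x, cns j y) ∈ T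

/-- degree property of a template -/
def DegP {b t : ℕ} (T : Finset (V b (t + 1) × V b (t + 1))) : Prop :=
  (∀ x, (T.filter fun p => p.1 = x).card ≤ b ^ 3) ∧ (∀ y, (T.filter fun p => p.2 = y).card ≤ b ^ 3)

/-- the first moment bound for a weight function on the subsets of a block of height `t` -/
def SB (b t : ℕ) (F : Finset (V b t) → ℕ) : Prop :=
  ∀ w : ℕ, (∑ W ∈ powersetCard w (univ : Finset (V b t)), (2 : ℝ) ^ (F W))
    ≤ ((2 * b ^ t).choose w : ℝ) * Real.exp (4 * t * w / b)

/-- parameters -/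
def KK (κ : ℕ) : ℕ := 2 ^ κ
def be (κ : ℕ) : ℕ := 2 * κ + 10
def bb (κ : ℕ) : ℕ := 2 ^ (be κ)
def DD (κ : ℕ) : ℕ := 2 * 2 ^ κ - 1
def GG (κ : ℕ) : ℕ := 20 * be κ
def qq (κ : ℕ) : ℕ := 10 * κ + 2
def mm (κ : ℕ) : ℕ := 6 * (qq κ + 150 * be κ + 2)

/-- expectation over random subsets of `P`, every element with probability `p` -/
noncomputable def Ex {ι : Type} [DecidableEq ι] (P : Finset ι) (p : ℝ) (F : Finset ι → ℝ) : ℝ :=
  ∑ T ∈ P.powerset, p ^ T.card * (1 - p) ^ (P \ T).card * F T

/-- the edge probability at nodes of height `t + 1` -/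
noncomputable def pr (b t : ℕ) : ℝ := 1 / (b : ℝ) ^ (t - 1)

/-- Lister wins from the position `(U, f)` on the graph with adjacency relation `A` -/
inductive LW {α : Type} [DecidableEq α] (A : α → α → Prop) : Finset α → (α → ℕ) → Prop
  | step (U : Finset α) (f : α → ℕ) (M : Finset α) (hM : M ⊆ U) (hne : M.Nonempty)
      (h : ∀ I ⊆ M, (∀ u ∈ I, ∀ v ∈ I, ¬ A u v) → (∀ v ∈ M, 1 ≤ f v) → (∀ v ∈ M \ I, 2 ≤ f v) →
        LW A (U \ I) (fun v => if v ∈ M then f v - 1 else f v)) : LW A U f

/-- the colours of the list of `x` which the assignment `N` gives to the side of `x` -/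
def rs {α : Type} (s : α → Bool) (L : α → Finset ℕ) (N : ℕ → Option Bool) (x : α) : Finset ℕ :=
  (L x).filter fun c => N c = some (s x)

/-- the unused colours of the list of `x` -/
def nn {α : Type} (L : α → Finset ℕ) (N : ℕ → Option Bool) (x : α) : Finset ℕ :=
  (L x).filter fun c => N c = none

/-- outside of a set of density `2 θ` at every node the candidate sets of different sides are disjoint -/
def Conf {b : ℕ} (θ : ℝ) : (t : ℕ) → (V b t → Finset ℕ) → Prop
  | 0, _ => True
  | (t + 1), cd =>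
      (∃ Q : Finset (V b (t + 1)), (Q.card : ℝ) ≤ 2 * θ * (2 * (b : ℝ) ^ (t + 1)) ∧
        ∀ x y, x ∉ Q → y ∉ Q → side (t + 1) x = false → side (t + 1) y = true → Disjoint (cd x) (cd y)) ∧
      ∀ i, Conf θ t (fun y => cd (cns i y))

open Classical in
/-- number of conflicts inside `W` -/
noncomputable def cfc {α : Type} (R : α → α → Prop) (cd : α → Finset ℕ) (W : Finset α) : ℕ :=
  ((W ×ˢ W).filter fun p => R p.1 p.2 ∧ ¬ Disjoint (cd p.1) (cd p.2)).card

/-! ### elementary lemmas -/

section basic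
variable {b t : ℕ}

@[simp] theorem hd_cns (i : Fin b) (y : V b t) : hd (cns i y) = i := rfl
@[simp] theorem tl_cns (i : Fin b) (y : V b t) : tl (cns i y) = y := rfl
@[simp] theorem cns_eta (x : V b (t + 1)) : cns (hd x) (tl x) = x := rfl

theorem cns_inj {i j : Fin b} {x y : V b t} : cns i x = cns j y ↔ i = j ∧ x = y := by
  constructor
  · intro h
    exact ⟨by simpa using congrArg hd h, by simpa using congrArg tl h⟩
  · rintro ⟨rfl, rfl⟩
    rfl

theorem cns_inj_right (i : Fin b) : Function.Injective (cns i : V b t → V b (t + 1)) :=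
  fun _ _ h => (cns_inj.1 h).2

@[simp] theorem side_cns (i : Fin b) (y : V b t) : side (t + 1) (cns i y) = side t y := rfl
theorem side_tl (x : V b (t + 1)) : side t (tl x) = side (t + 1) x := rfl

@[simp] theorem mem_ch {W : Finset (V b (t + 1))} {i : Fin b} {y : V b t} : y ∈ ch W i ↔ cns i y ∈ W := by
  simp [ch]

/-- the block of height `t + 1` as a product -/
def eqv (b t : ℕ) : Fin b × V b t ≃ V b (t + 1) := Equiv.refl _

@[simp] theorem eqv_apply (p : Fin b × V b t) : eqv b t p = cns p.1 p.2 := rfl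

theorem ext_ch {W W' : Finset (V b (t + 1))} (h : ∀ i, ch W i = ch W' i) : W = W' := by
  ext x
  have := h (hd x)
  have h2 : tl x ∈ ch W (hd x) ↔ tl x ∈ ch W' (hd x) := by rw [this]
  simpa using h2

theorem sum_succ {M : Type} [AddCommMonoid M] (f : V b (t + 1) → M) :
    ∑ x, f x = ∑ i : Fin b, ∑ y : V b t, f (cns i y) := by
  rw [← (eqv b t).sum_comp, Fintype.sum_prod_type]
  rfl

theorem card_eq_sum_ch (W : Finset (V b (t + 1))) : W.card = ∑ i, (ch W i).card := by
  have h1 : W.card = ∑ x : V b (t + 1), if x ∈ W then 1 else 0 := by simp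
  rw [h1, sum_succ]
  refine Finset.sum_congr rfl fun i _ => ?_
  rw [ch, Finset.card_filter]

theorem card_V (b : ℕ) : ∀ t : ℕ, Fintype.card (V b t) = 2 * b ^ t
  | 0 => by
      show Fintype.card Bool = _
      simp
  | (t + 1) => by
      have h : Fintype.card (V b (t + 1)) = Fintype.card (Fin b × V b t) :=
        Fintype.card_congr (eqv b t).symm
      rw [h, Fintype.card_prod, card_V b t, Fintype.card_fin]
      ring

theorem card_side (b : ℕ) (s : Bool) : ∀ t : ℕ,
    ((univ : Finset (V b t)).filter fun x => side t x = s).card = b ^ t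
  | 0 => by
      show ((univ : Finset Bool).filter fun x => x = s).card = _
      rw [pow_zero]
      cases s <;> decide
  | (t + 1) => by
      rw [card_eq_sum_ch]
      have : ∀ i : Fin b, (ch ((univ : Finset (V b (t + 1))).filter fun x => side (t + 1) x = s) i).card = b ^ t := by
        intro i
        rw [← card_side b s t]
        congr 1
        ext y
        simp
      rw [Finset.sum_congr rfl fun i _ => this i]
      simp [pow_succ, mul_comm]

theorem ch_univ (i : Fin b) : ch (univ : Finset (V b (t + 1))) i = univ := by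
  ext y; simp

theorem ch_sdiff (W W' : Finset (V b (t + 1))) (i : Fin b) : ch (W \ W') i = ch W i \ ch W' i := by
  ext y; simp

theorem ex_prod {ι : Type} [DecidableEq ι] (P : Finset ι) (p : ℝ) (a : ι → ℝ) :
    Ex P p (fun T => ∏ e ∈ T, a e) = ∏ e ∈ P, (p * a e + (1 - p)) := by
  rw [Finset.prod_add]
  unfold Ex
  refine Finset.sum_congr rfl fun T _ => ?_
  rw [Finset.prod_mul_distrib, Finset.prod_const, Finset.prod_const]
  ring

theorem ex_one {ι : Type} [DecidableEq ι] (P : Finset ι) (p : ℝ) : Ex P p (fun _ => 1) = 1 := by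
  have := ex_prod P p (fun _ => 1)
  simpa using this

theorem ex_mono {ι : Type} [DecidableEq ι] (P : Finset ι) {p : ℝ} (h0 : 0 ≤ p) (h1 : p ≤ 1)
    {F F' : Finset ι → ℝ} (h : ∀ T ⊆ P, F T ≤ F' T) : Ex P p F ≤ Ex P p F' := by
  unfold Ex
  refine Finset.sum_le_sum fun T hT => ?_
  have h2 : 0 ≤ 1 - p := by linarith
  exact mul_le_mul_of_nonneg_left (h T (Finset.mem_powerset.1 hT)) (by positivity)

theorem ex_add {ι : Type} [DecidableEq ι] (P : Finset ι) (p : ℝ) (F F' : Finset ι → ℝ) :
    Ex P p (fun T => F T + F' T) = Ex P p F + Ex P p F' := by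
  unfold Ex
  rw [← Finset.sum_add_distrib]
  exact Finset.sum_congr rfl fun T _ => by ring

theorem ex_mul {ι : Type} [DecidableEq ι] (P : Finset ι) (p c : ℝ) (F : Finset ι → ℝ) :
    Ex P p (fun T => c * F T) = c * Ex P p F := by
  unfold Ex
  rw [Finset.mul_sum]
  exact Finset.sum_congr rfl fun T _ => by ring

theorem ex_sum {ι κ : Type} [DecidableEq ι] (P : Finset ι) (p : ℝ) (s : Finset κ) (F : κ → Finset ι → ℝ) :
    Ex P p (fun T => ∑ k ∈ s, F k T) = ∑ k ∈ s, Ex P p (F k) := by
  unfold Ex
  rw [Finset.sum_comm]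
  exact Finset.sum_congr rfl fun T _ => by rw [Finset.mul_sum]

theorem ex_exists {ι : Type} [DecidableEq ι] (P : Finset ι) {p : ℝ} (h0 : 0 ≤ p) (h1 : p ≤ 1)
    (F : Finset ι → ℝ) (hF : Ex P p F < 1) : ∃ T ⊆ P, F T < 1 := by
  by_contra hcon
  push Not at hcon
  have h2 : Ex P p (fun _ => 1) ≤ Ex P p F := ex_mono P h0 h1 fun T hT => hcon T hT
  rw [ex_one] at h2
  linarith

end basic

end Pool.Agent.Helper43.OL
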