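import Pool.Agent.Helper43.OL.St

set_option autoImplicit false

namespace Pool.Agent.Helper43.OL

open Finset

private theorem exp54_PB : Real.exp (5 / 4) ≤ 4 := by
  have h1 : Real.exp (5 / 4) ^ 4 = Real.exp 1 ^ 5 := by
    rw [← Real.exp_nat_mul, ← Real.exp_nat_mul]
    congr 1
    norm_num
  have h2 : Real.exp 1 ^ 5 ≤ (2.7182818286 : ℝ) ^ 5 :=
    pow_le_pow_left₀ (Real.exp_pos _).le Real.exp_one_lt_d9.le 5
  have h3 : Real.exp (5 / 4) ^ 4 ≤ 4 ^ 4 := by
    rw [h1]
    refine h2.trans ?_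
    norm_num
  exact le_of_pow_le_pow_left₀ (by norm_num) (by norm_num) h3

theorem hPB : StPB := by
  intro b t F hb hbt hSB W
  have hb0 : (0 : ℝ) < b := by exact_mod_cast (by omega : 0 < b)
  have key : (2 : ℝ) ^ (F W) ≤ ((2 * b ^ t).choose W.card : ℝ) * Real.exp (4 * t * W.card / b) := by
    refine le_trans ?_ (hSB W.card)
    exact Finset.single_le_sum (f := fun W => (2 : ℝ) ^ (F W)) (fun _ _ => by positivity)
      (Finset.mem_powersetCard.2 ⟨Finset.subset_univ _, rfl⟩)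
  rcases Nat.eq_zero_or_pos W.card with h0 | hw
  · rw [h0] at key ⊢
    simp only [Nat.choose_zero_right, Nat.cast_one, Nat.cast_zero, mul_zero, zero_div, Real.exp_zero,
      mul_one] at key
    have h1 : (2 : ℝ) ^ (F W) ≤ 2 ^ 0 := by simpa using key
    have h2 := (pow_le_pow_iff_right₀ (by norm_num : (1 : ℝ) < 2)).1 h1
    simpa using h2
  · set w := W.card with hwdef
    set g := gg b t w with hg
    have hw0 : (0 : ℝ) < w := by exact_mod_cast hw
    -- `b^t < 2^(g+1) * w`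
    have h1 : b ^ t < 2 ^ (g + 1) * w := by
      have h2 : b ^ t / w < 2 ^ (g + 1) := Nat.lt_pow_succ_log_self (by norm_num) _
      exact (Nat.div_lt_iff_lt_mul hw).1 h2
    have h1' : ((b : ℝ) ^ t) ≤ 2 ^ (g + 1) * w := by exact_mod_cast h1.le
    have h2 : ((2 * b ^ t).choose w : ℝ) ≤ (2 ^ (g + 2)) ^ w * Real.exp w := by
      have h3 : ((2 * b ^ t).choose w : ℝ) ≤ ((2 * b ^ t : ℕ) : ℝ) ^ w / (w.factorial : ℝ) :=
        Nat.choose_le_pow_div w (2 * b ^ t)
      have h4 : (w : ℝ) ^ w / (w.factorial : ℝ) ≤ Real.exp w :=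
        Real.pow_div_factorial_le_exp (w : ℝ) hw0.le w
      have h5 : ((2 * b ^ t : ℕ) : ℝ) ≤ 2 ^ (g + 2) * w := by
        push_cast
        calc (2 : ℝ) * (b : ℝ) ^ t ≤ 2 * (2 ^ (g + 1) * w) := by linarith
          _ = 2 ^ (g + 2) * w := by ring
      have hf : (0 : ℝ) < (w.factorial : ℝ) := by exact_mod_cast Nat.factorial_pos w
      calc ((2 * b ^ t).choose w : ℝ) ≤ ((2 * b ^ t : ℕ) : ℝ) ^ w / (w.factorial : ℝ) := h3
        _ ≤ (2 ^ (g + 2) * w) ^ w / (w.factorial : ℝ) := by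
            gcongr
        _ = (2 ^ (g + 2)) ^ w * ((w : ℝ) ^ w / (w.factorial : ℝ)) := by
            rw [mul_pow]; ring
        _ ≤ (2 ^ (g + 2)) ^ w * Real.exp w := by gcongr
    have h6 : Real.exp (4 * t * w / b) ≤ Real.exp (w / 4) := by
      apply Real.exp_le_exp.2
      have h7 : (16 : ℝ) * t ≤ b := by exact_mod_cast hbt
      rw [div_le_iff₀ hb0]
      nlinarith
    have h8 : (2 : ℝ) ^ (F W) ≤ 2 ^ ((g + 4) * w) := by
      calc (2 : ℝ) ^ (F W) ≤ ((2 * b ^ t).choose w : ℝ) * Real.exp (4 * t * w / b) := key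
        _ ≤ ((2 ^ (g + 2)) ^ w * Real.exp w) * Real.exp (w / 4) := by
            gcongr
        _ = (2 ^ (g + 2) * Real.exp (5 / 4)) ^ w := by
            rw [mul_pow, ← Real.exp_nat_mul, mul_assoc, ← Real.exp_add]
            congr 2
            ring
        _ ≤ (2 ^ (g + 2) * 4) ^ w := by
            have := exp54_PB
            gcongr
        _ = 2 ^ ((g + 4) * w) := by
            rw [pow_mul]
            congr 1
            ring
    exact (pow_le_pow_iff_right₀ (by norm_num : (1 : ℝ) < 2)).1 h8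

end Pool.Agent.Helper43.OL
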