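import Pool.Agent.Helper43.OL.St

/-!
# OL, module ZG (glueing the children)
-/

set_option autoImplicit false

namespace Pool.Agent.Helper43.OL

open Finset

/-- the children of a filtered set -/
private theorem ch_filter_ZG {b t : ℕ} (p : V b (t + 1) → Prop) [DecidablePred p] (i : Fin b) :
    ch ((univ : Finset (V b (t + 1))).filter p) i =
      (univ : Finset (V b t)).filter fun y => p (cns i y) := by
  ext y
  simp

private theorem card_filter_ZG {b t : ℕ} (p : V b (t + 1) → Prop) [DecidablePred p] :
    ((univ : Finset (V b (t + 1))).filter p).card =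
      ∑ i : Fin b, ((univ : Finset (V b t)).filter fun y => p (cns i y)).card := by
  rw [card_eq_sum_ch]
  exact Finset.sum_congr rfl fun i _ => by rw [ch_filter_ZG]

private theorem ng_succ_ZG {b : ℕ} (q t : ℕ) (L : V b (t + 1) → Finset ℕ) (N : ℕ → Option Bool) :
    ng q (t + 1) L N = ∑ i : Fin b, ng q t (fun y => L (cns i y)) N :=
  card_filter_ZG _

private theorem nr_succ_ZG {b : ℕ} (m t : ℕ) (L : V b (t + 1) → Finset ℕ) (N : ℕ → Option Bool) :
    nr m (t + 1) L N = ∑ i : Fin b, nr m t (fun y => L (cns i y)) N :=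
  card_filter_ZG _

private theorem card_glue_ZG {b t : ℕ} (R : Fin b → Finset (V b t)) :
    ((univ : Finset (V b (t + 1))).filter fun x => tl x ∈ R (hd x)).card = ∑ i, (R i).card := by
  rw [card_filter_ZG]
  refine Finset.sum_congr rfl fun i _ => ?_
  congr 1
  ext y
  simp

theorem hZG : StZG := by
  intro b q m t θ θ2 hθ hθ2 L M N hMN hng hch
  choose cd R R2 h1 h2 h3 h4 h5 h6 using hch
  have hR2 : ((((univ : Finset (V b (t + 1))).filter fun x => tl x ∈ R2 (hd x)).card : ℕ) : ℝ) ≤
      θ * (2 * (b : ℝ) ^ (t + 1)) := by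
    rw [card_glue_ZG, Nat.cast_sum]
    calc ∑ i, ((R2 i).card : ℝ) ≤ ∑ _i : Fin b, θ * (2 * (b : ℝ) ^ t) :=
          Finset.sum_le_sum fun i _ => h4 i
      _ = θ * (2 * (b : ℝ) ^ (t + 1)) := by
          rw [Finset.sum_const, Finset.card_univ, Fintype.card_fin, nsmul_eq_mul, pow_succ]
          ring
  refine ⟨fun x => cd (hd x) (tl x), (univ.filter fun x => tl x ∈ R (hd x)),
    (univ.filter fun x => tl x ∈ R2 (hd x)), ?_, ?_, ?_, hR2, ?_, ?_, ?_⟩
  · intro x
    exact h1 (hd x) (tl x)
  · rw [card_glue_ZG, ng_succ_ZG, nr_succ_ZG, Nat.cast_sum, Nat.cast_sum, Nat.cast_sum,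
      Finset.sum_div, Finset.sum_div, ← Finset.sum_add_distrib]
    exact Finset.sum_le_sum fun i _ => h2 i
  · intro x hx
    have hx' : tl x ∉ R (hd x) := by simpa using hx
    exact h3 (hd x) (tl x) hx'
  · intro x hx hx2 hg
    have hx' : tl x ∈ R (hd x) := by simpa using hx
    have hx2' : tl x ∉ R2 (hd x) := by simpa using hx2
    exact h5 (hd x) (tl x) hx' hx2' hg
  · -- the exceptional set
    have key : ∀ x : V b (t + 1), q + 1 ≤ (rs (side (t + 1)) L N x).card → tl x ∉ R2 (hd x) →
        cd (hd x) (tl x) ⊆ rs (side (t + 1)) L M x ∨ cd (hd x) (tl x) ⊆ rs (side (t + 1)) L N x := by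
      intro x hg hx2
      by_cases hx : tl x ∈ R (hd x)
      · exact Or.inr (h5 (hd x) (tl x) hx hx2 hg)
      · by_cases hM : q + 1 ≤ (rs (side (t + 1)) L M x).card
        · exact Or.inl ((h3 (hd x) (tl x) hx).1 hM)
        · exact Or.inr ((h3 (hd x) (tl x) hx).2 hM)
    refine ⟨(univ.filter fun x => ¬ q + 1 ≤ (rs (side (t + 1)) L N x).card) ∪
      (univ.filter fun x => tl x ∈ R2 (hd x)), ?_, ?_⟩
    · have h7 : ((((univ.filter fun x => ¬ q + 1 ≤ (rs (side (t + 1)) L N x).card) ∪
          (univ.filter fun x => tl x ∈ R2 (hd x)) : Finset (V b (t + 1))).card : ℕ) : ℝ) ≤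
          (ng q (t + 1) L N : ℝ) +
            (((univ : Finset (V b (t + 1))).filter fun x => tl x ∈ R2 (hd x)).card : ℝ) := by
        exact_mod_cast Finset.card_union_le _ _
      linarith
    · intro x y hx hy hsx hsy
      simp only [Finset.mem_union, Finset.mem_filter, Finset.mem_univ, true_and, not_or, not_not] at hx hy
      rw [Finset.disjoint_left]
      intro c hcx hcy
      have hcx' : M c = some false ∨ N c = some false := by
        rcases key x hx.1 hx.2 with h | h
        · have := h hcx
          rw [rs, Finset.mem_filter, hsx] at this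
          exact Or.inl this.2
        · have := h hcx
          rw [rs, Finset.mem_filter, hsx] at this
          exact Or.inr this.2
      have hcy' : M c = some true ∨ N c = some true := by
        rcases key y hy.1 hy.2 with h | h
        · have := h hcy
          rw [rs, Finset.mem_filter, hsy] at this
          exact Or.inl this.2
        · have := h hcy
          rw [rs, Finset.mem_filter, hsy] at this
          exact Or.inr this.2
      have hno := hMN c
      rcases hcx' with h | h <;> rcases hcy' with h' | h'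
      · rw [h] at h'; simp at h'
      · rw [h, h'] at hno; simp at hno
      · rw [h, h'] at hno; simp at hno
      · rw [h] at h'; simp at h'
  · intro i
    exact h6 i

end Pool.Agent.Helper43.OL
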