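import Pool.Agent.Helper43.OL.Defs

/-!
Project OL (MP_ff53f3): statements of the modules. Module XX proves `theorem hXX ... : StXX` in the file
Pool/Agent/Helper43/OL/M_XX.lean. Paper proof: team store, MP_ff53f3-OL.md
-/

set_option autoImplicit false

namespace Pool.Agent.Helper43.OL

open Finset

/-- VM (Vandermonde). Proof. The maps `W` to `(ch W i)_i` is a bijection from the subsets of `V b (t+1)` to the functions
from `Fin b` to the subsets of `V b t` (inverse: the set of `x` with `tl x ∈ S (hd x)`; `ext_ch`), and `W.card = ∑ i, (ch W i).card`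
(`card_eq_sum_ch`). Put `P = ∑ S, C (F S) * X ^ S.card` (real polynomial). Its coefficient at `w` is the sum over
`powersetCard w univ`, so `0 ≤ coeff P w ≤ coeff ((1 + C c * X) ^ (2 b^t)) w = (2 b^t).choose w * c^w`. The product of `b` copies of `P` is
`∑ W, C (∏ i, F (ch W i)) * X ^ W.card` (`Finset.prod_univ_sum`, `Fintype.piFinset_univ`), and coefficientwise inequalities between
polynomials with nonnegative coefficients can be multiplied, so its coefficient at `w` is at most that of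
`(1 + C c * X) ^ (b * (2 b^t))`, and `b * (2 * b ^ t) = 2 * b ^ (t+1)`. -/
def StVM : Prop := ∀ (b t : ℕ) (F : Finset (V b t) → ℝ) (c : ℝ), 0 ≤ c → (∀ S, 0 ≤ F S) →
  (∀ w, (∑ S ∈ powersetCard w (univ : Finset (V b t)), F S) ≤ ((2 * b ^ t).choose w : ℝ) * c ^ w) →
  ∀ w, (∑ W ∈ powersetCard w (univ : Finset (V b (t + 1))), ∏ i, F (ch W i))
    ≤ ((2 * b ^ (t + 1)).choose w : ℝ) * c ^ w

/-- the index set for the expansion property -/
def B1 (b t K : ℕ) : Finset ((Fin b × Fin b) × (Finset (V b t) × Finset (V b t))) :=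
  univ.filter fun z => z.1.1 ≠ z.1.2 ∧ (∀ x ∈ z.2.1, side t x = false) ∧ (∀ y ∈ z.2.2, side t y = true) ∧
    b ^ t ≤ 4 * K * z.2.1.card ∧ b ^ t ≤ 4 * K * z.2.2.card

/-- number of violations of the expansion property -/
noncomputable def F1 (b t K : ℕ) (T : Finset (V b (t + 1) × V b (t + 1))) : ℝ :=
  ∑ z ∈ B1 b t K, ∏ e ∈ T,
    (if hd e.1 = z.1.1 ∧ tl e.1 ∈ z.2.1 ∧ hd e.2 = z.1.2 ∧ tl e.2 ∈ z.2.2 then (0 : ℝ) else 1)

/-- EA. Proof. All the products are 0 or 1, so all are 0 if the sum is < 1. For `i, j, X, Y` as in `ExpP` the product for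
`((i,j),(X,Y)) ∈ B1` is 0, so some factor is 0: an `e ∈ T` with `e = (cns i x, cns j y)`, `x ∈ X`, `y ∈ Y`. -/
def StEA : Prop := ∀ (b t K : ℕ) (T : Finset (V b (t + 1) × V b (t + 1))), F1 b t K T < 1 → ExpP K T

/-- EB. Proof. `ex_sum`, `ex_prod`: the expectation of the product for `z` is `(1-p)^(|X| |Y|)`, because `P0` contains all
`(cns i x, cns j y)`, `x ∈ X`, `y ∈ Y` (there are `|X| |Y|` of them; all other factors are 1). `t = 0`: `p = pr b 0 = 1`, `|X|, |Y| ≥ 1`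
so the sum is 0. `t ≥ 1`: `p = b^(1-t)`, `(1-p)^(|X||Y|) ≤ exp(-p |X| |Y|)` and
`p |X| |Y| ≥ b^(1-t) (b^t/(4K))^2 = b^t * (b/(16 K^2)) = 64 b^t` (`bb κ = 1024 (KK κ)^2`). `B1` has at most
`b^2 * 2^(2 b^t) * 2^(2 b^t)` elements (`card_V`) and `b^2 ≤ exp (2b) ≤ exp (2 b^t)`, `16 ≤ exp 3`; so the sum is at most
`exp (2 b^t + 3 b^t - 64 b^t) ≤ exp (-59) ≤ 1/8`. -/
def StEB : Prop := ∀ (κ t : ℕ), 1 ≤ κ → Ex (P0 (bb κ) t) (pr (bb κ) t) (F1 (bb κ) t (KK κ)) ≤ 1 / 8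

/-- normalised exponential degree sum -/
noncomputable def F2 (b t : ℕ) (T : Finset (V b (t + 1) × V b (t + 1))) : ℝ :=
  (∑ x, (2 : ℝ) ^ ((T.filter fun p => p.1 = x).card) / 2 ^ (b ^ 3)) +
  ∑ y, (2 : ℝ) ^ ((T.filter fun p => p.2 = y).card) / 2 ^ (b ^ 3)

/-- DG. Proof. First part: every summand is nonnegative, so `2^deg / 2^(b^3) < 1`. Second part: `2^deg` is the product over `e ∈ T` of
(2 if `e.1 = x`, else 1), so by `ex_prod` its expectation is at most `(1+p)^(b^(t+1)) ≤ exp (p b^(t+1)) ≤ exp (b^2)`: at most `b^(t+1)`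
elements `e` of `P0` have `e.1 = x` (those `e.2` are on one side: `card_side`), and `p b^t ≤ b`. There are `2 b^(t+1)` vertices (`card_V`), twice: the
expectation is at most `4 b^(t+1) exp(b^2) / 2^(b^3)`, with `t + 1 ≤ DD κ ≤ b`, `b^b ≤ 2^(b^2)`, `exp (b^2) ≤ 4^(b^2)`:
`2^(2 + 3 b^2 - b^3) ≤ 1/8` as `b ≥ 4`, `b^2 ≥ 16`. (For the degree bound with `2 b^(t+1)` instead of `b^(t+1)` everything works too.) -/
def StDG : Prop :=
  (∀ (b t : ℕ) (T : Finset (V b (t + 1) × V b (t + 1))), F2 b t T < 1 → DegP T) ∧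
  ∀ (κ t : ℕ), 1 ≤ κ → t + 1 ≤ DD κ → Ex (P0 (bb κ) t) (pr (bb κ) t) (F2 (bb κ) t) ≤ 1 / 8

/-- PR. Proof. The pairs of `P0` inside `W` are pairs of `A ×ˢ B` where `A, B` are the parts of `W` on the two sides; `|A| + |B| = |W|`
and `4 |A| |B| ≤ (|A| + |B|)^2`. -/
def StPR : Prop := ∀ (b t : ℕ) (W : Finset (V b (t + 1))), 4 * en (P0 b t) W ≤ W.card ^ 2

/-- the exponent -/
noncomputable def zz (κ t w : ℕ) : ℝ :=
  pr (bb κ) t * 2 ^ (lam (bb κ) (GG κ) (t + 1) w) * (w : ℝ) ^ 2 / 4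

/-- ZZ. Proof. Let `g = gg b (t+1) w`, `b = bb κ = 2^(be κ)`. As `g ≥ GG κ > 0`: `w ≥ 1` and `2^g ≤ b^(t+1)/w` (`Nat.pow_log_le_self`), so
`2^g * w ≤ b^(t+1)` and `b^20 * w ≤ b^(t+1)` (so `t ≥ 19`, `pr b t = b^(1-t)`). With `λ = g/2`: `(2^λ)^2 ≤ 2^g ≤ b^(t+1)/w`. Hence
`(z/w)^2 = p^2 (2^λ)^2 w^2 / 16 ≤ b^(2-2t) b^(t+1) w / 16 = b^(3-t) w/16 ≤ b^(3-t) b^(t-19) / 16 = b^(-16)/16`, so
`z / w ≤ b^(-8)/4`. -/
def StZZ : Prop := ∀ (κ t w : ℕ), 1 ≤ κ → GG κ ≤ gg (bb κ) (t + 1) w →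
  1 ≤ w ∧ 0 < zz κ t w ∧ zz κ t w ≤ w / (4 * (bb κ : ℝ) ^ 8)

/-- NW. Proof. `m = 8 w^2 ≥ 1`. If `w ≤ b^2`: `1 + m (e^z - 1) ≤ (e^z)^m` (Bernoulli, `one_add_mul_le_pow`) `= e^(mz)` and
`m z ≤ 8 w^2 w/(4 b^8) ≤ 2 b^4 w / b^8 ≤ w / b`. If `w > b^2`: `1 + m (e^z - 1) ≤ m e^z`, `√w > b`, `m = 8 w^2 ≤ exp (3 √w)` (for `u = √w ≥ 4`:
`exp (3u) ≥ (3u)^5/120 ≥ 2 u^5 ≥ 8 u^4`), `3 √w ≤ 3 w / b` and `z ≤ w/b`. So in both cases the left side is at most `exp (4 w / b)`. -/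
def StNW : Prop := ∀ (b w : ℕ) (z : ℝ), 16 ≤ b → 1 ≤ w → 0 ≤ z → z ≤ w / (4 * (b : ℝ) ^ 8) →
  1 + 8 * (w : ℝ) ^ 2 * (Real.exp z - 1) ≤ Real.exp (4 * w / b)

/-- the bound for the base sum -/
noncomputable def BB (b t w : ℕ) : ℝ := ((2 * b ^ (t + 1)).choose w : ℝ) * Real.exp (4 * t * w / b)

/-- the thin cardinalities -/
def TW (κ t : ℕ) : Finset ℕ :=
  (range (2 * (bb κ) ^ (t + 1) + 1)).filter fun w => GG κ ≤ gg (bb κ) (t + 1) w

/-- normalised excess of the first moments -/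
noncomputable def F3 (κ t : ℕ) (Ft : Finset (V (bb κ) t) → ℕ)
    (T : Finset (V (bb κ) (t + 1) × V (bb κ) (t + 1))) : ℝ :=
  ∑ w ∈ TW κ t, (∑ W ∈ powersetCard w (univ : Finset (V (bb κ) (t + 1))),
      (2 : ℝ) ^ (∑ i, Ft (ch W i)) * ((2 : ℝ) ^ (lam (bb κ) (GG κ) (t + 1) w * en T W) - 1))
    / (8 * (w : ℝ) ^ 2 * BB (bb κ) t w * (Real.exp (zz κ t w) - 1))

/-- BS (base sum). Proof. `StVM` with `F S = 2^(Ft S)`, `c = exp (4 t / b)` (`∏ i, 2^(Ft (ch W i)) = 2^(∑ i, ..)`, `c^w = exp(4 t w / b)`). -/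
def StBS : Prop := ∀ (b t : ℕ) (Ft : Finset (V b t) → ℕ), SB b t Ft →
  ∀ w, (∑ W ∈ powersetCard w (univ : Finset (V b (t + 1))), (2 : ℝ) ^ (∑ i, Ft (ch W i))) ≤ BB b t w

/-- EC. Proof. Fix `w ∈ TW κ t`, `p = pr`, `0 ≤ p ≤ 1`, `λ = lam ..`. For `W` with `|W| = w`: `2^(λ en T W)` is the product over `e ∈ T` of
(`2^λ` if `e.1 ∈ W ∧ e.2 ∈ W`, else 1), so by `ex_prod` its expectation is `(1 + p (2^λ - 1))^(en P0 W) ≤ exp (p 2^λ en P0 W) ≤ exp (zz κ t w)`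
(`StPR`). So the expectation of the numerator is at most `(∑ W, 2^(..)) (exp z - 1) ≤ BB w (exp z - 1)` (`StBS`), and `BB w > 0` as
`w ≤ 2 b^(t+1)`, `exp z - 1 > 0` (`StZZ`). So the expectation of the summand is at most `1/(8 w^2)`, and `∑ 1/w^2 ≤ 2`. -/
def StEC : Prop := ∀ (κ t : ℕ) (Ft : Finset (V (bb κ) t) → ℕ), 1 ≤ κ → SB (bb κ) t Ft →
  Ex (P0 (bb κ) t) (pr (bb κ) t) (F3 κ t Ft) ≤ 1 / 4

/-- ED. Proof. Let `w` be given. If `w > 2 b^(t+1)` the sum is empty. If `w` is not thin (`¬ GG κ ≤ gg ..`) then `lam = 0` and the claim is `StBS`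
(`BB b t w ≤` right side as `4 t w/b ≤ 4 (t+1) w / b`). If `w` is thin: `w ∈ TW κ t`; the summands of `F3` are nonnegative, so the summand for `w` is
`< 1`: the numerator is `≤ 8 w^2 BB w (exp z - 1)` and `∑ W, 2^(base W + lam en T W) ≤ BB w (1 + 8 w^2 (exp z - 1)) ≤ BB w exp (4 w/b)` by `StBS`, `StZZ`, `StNW`;
and `exp (4 t w/b) exp (4 w / b) = exp (4 (t+1) w / b)`. -/
def StED : Prop := ∀ (κ t : ℕ) (Ft : Finset (V (bb κ) t) → ℕ) (T : Finset (V (bb κ) (t + 1) × V (bb κ) (t + 1))),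
  1 ≤ κ → SB (bb κ) t Ft → F3 κ t Ft T < 1 →
  SB (bb κ) (t + 1) (fun W => (∑ i, Ft (ch W i)) + lam (bb κ) (GG κ) (t + 1) W.card * en T W)

/-- LV. Proof. `ex_add`, `ex_exists` for `F1 + F2 + F3` (expectation at most 1/2), all three are nonnegative (for `F3` use `StZZ`:
`exp z - 1 > 0`), so all three are `< 1`; then `StEA`, `StDG.1`, `StED`. -/
def StLV : Prop := ∀ (κ t : ℕ) (Ft : Finset (V (bb κ) t) → ℕ), 1 ≤ κ → t + 1 ≤ DD κ → SB (bb κ) t Ft →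
  ∃ T ⊆ P0 (bb κ) t, ExpP (KK κ) T ∧ DegP T ∧
    SB (bb κ) (t + 1) (fun W => (∑ i, Ft (ch W i)) + lam (bb κ) (GG κ) (t + 1) W.card * en T W)

/-- SY. Proof. Choose `H 0, H 1, ...` by `StLV`: show by induction on `n ≤ DD κ` that there is `H` with `H t ⊆ P0` for all `t`, the two properties for `t < n`
and `SB` for `t ≤ n` (step: `Function.update H n T`; `Psi GG H t` depends only on `H s`, `s < t`). `n = 0`: `H = ∅`, `Psi = 0`,
the sum is `(2).choose w` (`card_V`). -/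
def StSY : Prop := ∀ κ : ℕ, 1 ≤ κ → ∃ H : Tm (bb κ), (∀ t, H t ⊆ P0 (bb κ) t) ∧
  (∀ t < DD κ, ExpP (KK κ) (H t) ∧ DegP (H t)) ∧ ∀ t ≤ DD κ, SB (bb κ) t (Psi (GG κ) H t)

/-- PB. Proof. `w = |W|`. `w = 0`: `SB` gives `2^(F ∅) ≤ 1`. `w ≥ 1`: one term of a sum of nonnegative terms: `2^(F W) ≤ (2b^t).choose w * exp (4 t w/b)`,
`exp (4 t w / b) ≤ exp (w/4)`, `(2 b^t).choose w ≤ (2b^t)^w / w! ≤ (2 e b^t / w)^w` (`w^w/w! ≤ e^w`), `b^t / w < 2^(g+1)` where `g = gg b t w`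
(`Nat.lt_pow_succ_log_self`), so `2^(F W) ≤ (2^(g+2) e^(5/4))^w < 2^((g+4) w)` as `e^(5/4) < 4`. -/
def StPB : Prop := ∀ (b t : ℕ) (F : Finset (V b t) → ℕ), 1 ≤ b → 16 * t ≤ b → SB b t F →
  ∀ W, F W ≤ (gg b t W.card + 4) * W.card

/-- CL. Proof. (i) By induction on `t`: `(G/2) * Ecl cls H t W ≤ Psi G0 H t W`, as `lam = gg/2 ≥ G/2` at class nodes. (ii) By induction on `t`: `W ∈ V (t+1)`,
root not in the class: sum over the children and `card_eq_sum_ch`. Root in the class: `G = 2h`, `h ≥ 3`: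
`h * Ecl ≤ Psi ≤ (gg + 4) |W| ≤ (2G + 3)|W| = (4h+3) |W| ≤ 5 h |W|`. -/
def StCL : Prop := ∀ (b G0 D : ℕ) (H : Tm b), (∀ t ≤ D, ∀ W, Psi G0 H t W ≤ (gg b t W.card + 4) * W.card) →
  ∀ G, G0 ≤ G → Even G → 6 ≤ G → ∀ t ≤ D, ∀ W, Ecl (fun g => G ≤ g ∧ g < 2 * G) H t W ≤ 5 * W.card

/-- TH. Proof. `gg b t w ≤ be κ * t ≤ be κ * DD κ < GG κ * 2^κ` for `t ≤ DD κ`. By induction on `t`: `Ecl (GG ≤ g) ≤ ∑ j < κ, Ecl (GG 2^j ≤ g < 2 (GG 2^j))`;
then `StCL` for every `j` (`SB` gives the hypothesis by `StPB`, `16 DD κ ≤ bb κ`). -/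
def StTH : Prop := ∀ (κ : ℕ) (H : Tm (bb κ)), 1 ≤ κ → (∀ t ≤ DD κ, SB (bb κ) t (Psi (GG κ) H t)) →
  ∀ t ≤ DD κ, ∀ W, Ecl (fun g => GG κ ≤ g) H t W ≤ 5 * κ * W.card

/-- CF. Proof. By induction on `t ≤ DD κ`, for all `cd` with `Conf (1/b^25) t cd` and all `W`:
`b * cfc (AB H t) cd W ≤ b * Ecl (GG ≤ g) H t W + t * |W|`. `t = 0`: `AB` is False. Step: the conflict pairs of `W` with equal first letters number
`∑ i, cfc (AB H t) (cd ∘ cns i) (ch W i)`; (pairs of `H t` have different first letters by `P0`, but one can also just bound the two kinds of pairs separately); the others are pairs of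
`H t` in `W` with non-disjoint candidate sets. If `GG ≤ gg b (t+1) |W|` they number at most `en (H t) W`, which is in `Ecl`. Otherwise
`b^(t+1)/|W| < 2^(GG)` = `b^20`, so `b^(t+1) ≤ b^20 |W|` (for `W` nonempty); each such pair has a vertex in `Q` (sides by `P0`), so they number at most
`2 b^3 |Q|`, `|Q| ≤ 4 b^(t+1)/b^25 ≤ 4 |W| / b^5`, so at most `8 |W| / b^2`, and `b * 8 / b^2 ≤ 1`. Finally `t ≤ DD κ ≤ b`. -/
def StCF : Prop := ∀ (κ : ℕ) (H : Tm (bb κ)) (cd : V (bb κ) (DD κ) → Finset ℕ), 1 ≤ κ →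
  (∀ t, H t ⊆ P0 (bb κ) t) → (∀ t < DD κ, DegP (H t)) →
  (∀ t ≤ DD κ, ∀ W, Ecl (fun g => GG κ ≤ g) H t W ≤ 5 * κ * W.card) →
  Conf (1 / (bb κ : ℝ) ^ 25) (DD κ) cd →
  ∀ W, cfc (AB H (DD κ)) cd W ≤ (5 * κ + 1) * W.card

/-- GR (greedy). Proof. By induction on `|W|`: there is `c` with `c x ∈ cd x` for all `x` and `c x ≠ c y` for all `x, y ∈ W` with `R x y`.
`W` nonempty: let `deg v` be the number of `y ∈ W` with `(R v y ∨ R y v) ∧ ¬ Disjoint (cd v) (cd y)`; the sum of `deg` over `W` is at most `2 cfc ≤ 2 A |W|`, so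
some `v ∈ W` has `deg v ≤ 2A`. Colour `W.erase v`, then change the colour of `v` to an element of `cd v` which is different from the colours of
these at most `2A` vertices; pairs with disjoint candidate sets never conflict; `R v v` is excluded. -/
def StGR : Prop := ∀ (α : Type) [Fintype α] [DecidableEq α] (R : α → α → Prop) (cd : α → Finset ℕ) (A : ℕ),
  (∀ x, ¬ R x x) → (∀ x, 2 * A + 1 ≤ (cd x).card) → (∀ W : Finset α, cfc R cd W ≤ A * W.card) →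
  ∃ c : α → ℕ, (∀ x, c x ∈ cd x) ∧ ∀ x y, R x y → c x ≠ c y

/-- TA (tail). Proof. `1_{X ≤ q} ≤ 2^q 2^(-X)`, and `∑ ω, 2^(-X ω) = ∏_{c ∈ C} ∑_{j : Fin 4} (1/2 if c ∈ S ∧ j ∈ J, else 1)`
`= 4^(|C|-|S|) (4 - |J|/2)^|S|` (`Finset.prod_univ_sum`, `Fintype.piFinset_univ`). -/
def StTA : Prop := ∀ (C S : Finset ℕ) (J : Finset (Fin 4)) (q : ℕ), S ⊆ C →
  ((univ.filter fun ω : C → Fin 4 =>
      (univ.filter fun c : C => (c : ℕ) ∈ S ∧ ω c ∈ J).card ≤ q).card : ℝ)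
    ≤ 2 ^ q * ((4 - (J.card : ℝ) / 2) / 4) ^ S.card * 4 ^ C.card

/-- CH (choice lemma). Proof. `C` = union of all lists. For `ω : C → Fin 4` let `N' c = none` if `N c ≠ none` or `c ∉ C`, otherwise `some false, some true, none, none`
for `ω c = 0, 1, 2, 3`. For `x` with `m ≤ |nn L N x|` take `S` = a subset of `nn L N x` with `m` elements, `J = {0}` or `{1}` (the side of `x`): the number of `ω` with
`|rs s L N' x| ≤ q` is at most `2^q (7/8)^m 4^|C| ≤ (η/2) 4^|C|` (`StTA`). For all `x`, `S = L x`, `J = {2,3}`: the number of `ω` with `|nn L N' x| ≤ m` is at most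
`2^m (3/4)^(4m) 4^|C| ≤ (η/2) 4^|C|`, because `ω c ∈ {2,3}` implies `N' c = none`. Sum over `x` and average over `ω`: some `ω` has (number of bad `x` of the
first kind) + (of the second kind) `≤ η |α|`. -/
def StCH : Prop := ∀ (α : Type) [Fintype α] [DecidableEq α] (s : α → Bool) (L : α → Finset ℕ) (N : ℕ → Option Bool) (q m : ℕ) (η : ℝ),
  (∀ x, (L x).card = 4 * m) → (2 : ℝ) ^ q * (7 / 8) ^ m ≤ η / 2 → (2 : ℝ) ^ m * (3 / 4) ^ (4 * m) ≤ η / 2 →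
  ∃ N' : ℕ → Option Bool, (∀ c, N c ≠ none → N' c = none) ∧
    (((univ.filter fun x => ¬ m ≤ (nn L N' x).card).card : ℝ) ≤ η * Fintype.card α) ∧
    (((univ.filter fun x => m ≤ (nn L N x).card ∧ ¬ q + 1 ≤ (rs s L N' x).card).card : ℝ) ≤ η * Fintype.card α)

/-- number of vertices which are not good for `N` -/
def ng {b : ℕ} (q t : ℕ) (L : V b t → Finset ℕ) (N : ℕ → Option Bool) : ℕ :=
  (univ.filter fun x => ¬ q + 1 ≤ (rs (side t) L N x).card).card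

/-- number of vertices which are not rich for `N` -/
def nr {b : ℕ} (m t : ℕ) (L : V b t → Finset ℕ) (N : ℕ → Option Bool) : ℕ :=
  (univ.filter fun x => ¬ m ≤ (nn L N x).card).card

/-- conclusion of the zone lemma for a block of height `t` in a zone with the assignments `M` (of the zone before) and `N` (of this zone) -/
def ZC {b : ℕ} (q m : ℕ) (θ θ2 : ℝ) (t : ℕ) (L : V b t → Finset ℕ) (M N : ℕ → Option Bool) : Prop :=
  ∃ (cd : V b t → Finset ℕ) (R R2 : Finset (V b t)),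
    (∀ x, cd x ⊆ L x ∧ q + 1 ≤ (cd x).card) ∧
    (R.card : ℝ) ≤ (ng q t L N : ℝ) / θ + (nr m t L N : ℝ) / θ2 ∧
    (∀ x, x ∉ R → (q + 1 ≤ (rs (side t) L M x).card → cd x ⊆ rs (side t) L M x) ∧
        (¬ q + 1 ≤ (rs (side t) L M x).card → cd x ⊆ rs (side t) L N x)) ∧
    (R2.card : ℝ) ≤ θ * (2 * (b : ℝ) ^ t) ∧
    (∀ x, x ∈ R → x ∉ R2 → q + 1 ≤ (rs (side t) L N x).card → cd x ⊆ rs (side t) L N x) ∧
    Conf θ t cd

/-- the zone lemma for blocks of height `t` -/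
def ZP (b q m : ℕ) (θ θ2 : ℝ) (t : ℕ) : Prop := ∀ (L : V b t → Finset ℕ) (M N : ℕ → Option Bool),
  (∀ x, (L x).card = 4 * m) → (∀ c, M c ≠ none → N c = none) →
  (ng q t L N : ℝ) ≤ θ * (2 * (b : ℝ) ^ t) → (nr m t L N : ℝ) ≤ θ2 * (2 * (b : ℝ) ^ t) → ZC q m θ θ2 t L M N

/-- ZA. Proof. `ng < 1` so every vertex is good for `N`: `cd x = rs L M x` if this has `≥ q+1` elements, otherwise `rs L N x`; `R = R2 = ∅`. -/
def StZA : Prop := ∀ (b q m : ℕ) (θ θ2 : ℝ), 0 < θ → 2 * θ < 1 → 0 < θ2 → ZP b q m θ θ2 0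

/-- ZB (child of a block). Proof. If `ng < θ 2b^t` and `nr < θ2 2b^t` use `ZP` for `M, N`. Otherwise the block is bad: `2 b^t ≤ ng/θ + nr/θ2`. Take `N'` from `StCH`
(`s = side t`, `η = η0`, `card_V`). `nr(N') ≤ η0 2b^t ≤ θ2 2b^t` and `ng(N') ≤ nr(N) + η0 2b^t ≤ (η0 + b θ2) 2b^t ≤ θ 2b^t`. Use `ZP` for `N, N'`: `cd, R', R2'`. Then
`cd, R = univ, R2 = R'` work: `|R'| ≤ ng(N')/θ + nr(N')/θ2 ≤ ((η0 + bθ2)/θ + η0/θ2) 2b^t ≤ θ 2b^t`, and for `x ∉ R'`: good for `N` implies `cd x ⊆ rs L N x`. -/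
def StZB : Prop := ∀ (b q m t : ℕ) (θ θ2 η0 : ℝ), 0 < θ → 0 < θ2 → 0 ≤ η0 →
  (2 : ℝ) ^ q * (7 / 8) ^ m ≤ η0 / 2 → (2 : ℝ) ^ m * (3 / 4) ^ (4 * m) ≤ η0 / 2 →
  η0 + b * θ2 ≤ θ → η0 ≤ θ2 → (η0 + b * θ2) / θ + η0 / θ2 ≤ θ → ZP b q m θ θ2 t →
  ∀ (L : V b t → Finset ℕ) (M N : ℕ → Option Bool), (∀ x, (L x).card = 4 * m) → (∀ c, M c ≠ none → N c = none) →
  (nr m t L N : ℝ) ≤ θ2 * (2 * (b : ℝ) ^ (t + 1)) → ZC q m θ θ2 t L M N

/-- ZG (glueing the children). Proof. `cd x = cd_{hd x} (tl x)`, `R, R2` = unions of the `R_i`, `R2_i`. `ng`, `nr` are additive over the children. `Q` = not good for `N`, or in `R2`: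
`|Q| ≤ ng + |R2| ≤ 2 θ (2 b^(t+1))`. `x ∉ Q`: `cd x ⊆ rs L M x` or `cd x ⊆ rs L N x`. A common colour `c` of `cd x`, `cd y`, `x` on side A, `y` on side B, would have
`M c` or `N c` equal to `some false`, and `M c` or `N c` equal to `some true`: impossible because `M c ≠ none → N c = none`. -/
def StZG : Prop := ∀ (b q m t : ℕ) (θ θ2 : ℝ), 0 < θ → 0 < θ2 →
  ∀ (L : V b (t + 1) → Finset ℕ) (M N : ℕ → Option Bool), (∀ c, M c ≠ none → N c = none) →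
  (ng q (t + 1) L N : ℝ) ≤ θ * (2 * (b : ℝ) ^ (t + 1)) →
  (∀ i : Fin b, ZC q m θ θ2 t (fun y => L (cns i y)) M N) → ZC q m θ θ2 (t + 1) L M N

/-- ZO. Proof. Induction on `t`: `StZA`, then `StZG` and `StZB` (`nr` of a child is at most `nr` of the block). -/
def StZO : Prop := ∀ (b q m : ℕ) (θ θ2 η0 : ℝ), 0 < θ → 2 * θ < 1 → 0 < θ2 → 0 ≤ η0 →
  (2 : ℝ) ^ q * (7 / 8) ^ m ≤ η0 / 2 → (2 : ℝ) ^ m * (3 / 4) ^ (4 * m) ≤ η0 / 2 →
  η0 + b * θ2 ≤ θ → η0 ≤ θ2 → (η0 + b * θ2) / θ + η0 / θ2 ≤ θ → ∀ t, ZP b q m θ θ2 t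

/-- NO (numbers). Proof. `b = 2^(be κ)`; `(7/8)^6 ≤ 1/2`, `2 (3/4)^4 = 81/128`, `(81/128)^6 ≤ 1/2`, `mm κ = 6 (qq κ + 150 be κ + 2)`. -/
def StNO : Prop := ∀ κ : ℕ, 1 ≤ κ → ∀ θ : ℝ, θ = 1 / (bb κ : ℝ) ^ 25 →
  0 < θ ∧ 2 * θ < 1 ∧ (2 : ℝ) ^ (qq κ) * (7 / 8) ^ (mm κ) ≤ θ ^ 6 / 2 ∧
  (2 : ℝ) ^ (mm κ) * (3 / 4) ^ (4 * mm κ) ≤ θ ^ 6 / 2 ∧
  θ ^ 6 + bb κ * θ ^ 3 ≤ θ ∧ θ ^ 6 ≤ θ ^ 3 ∧ (θ ^ 6 + bb κ * θ ^ 3) / θ + θ ^ 6 / θ ^ 3 ≤ θ

/-- OF (lists). Proof. Shrink the lists to exactly `4 mm κ` colours. `N` = `none` everywhere: everything is rich; `StCH` gives `N'` with `ng ≤ η0 2b^D`, `nr ≤ η0 2b^D`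
(`η0 = θ^6`, `θ2 = θ^3`). `StZO` for `M = none` everywhere and `N'`: `Conf θ (DD κ) cd`. `StTH`, `StCF`: `cfc ≤ (5κ+1)|W|`. `StGR` with `A = 5κ+1`, `qq κ = 2A`.
`AB H t x x` is false because the pairs of `P0` have different sides (induction on `t`). -/
def StOF : Prop := ∀ (κ : ℕ) (H : Tm (bb κ)), 1 ≤ κ → (∀ t, H t ⊆ P0 (bb κ) t) → (∀ t < DD κ, DegP (H t)) →
  (∀ t ≤ DD κ, SB (bb κ) t (Psi (GG κ) H t)) →
  ∀ L : V (bb κ) (DD κ) → Finset ℕ, (∀ x, 4 * mm κ ≤ (L x).card) →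
  ∃ c : V (bb κ) (DD κ) → ℕ, (∀ x, c x ∈ L x) ∧ ∀ x y, AB H (DD κ) x y → c x ≠ c y

/-- EM (embedding). Proof. Induction on `LW A U' f'`: with its set `M` use `M.map e`. For `I ⊆ M.map e` independent for `A'` let `I'` be the set of `x ∈ M` with `e x ∈ I`; it is
independent for `A`, the conditions on `f'` follow from those on `f`, and the induction hypothesis applies. -/
def StEM : Prop := ∀ (α β : Type) [DecidableEq α] [DecidableEq β] (A : α → α → Prop) (A' : β → β → Prop) (e : α ↪ β),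
  (∀ x y, A x y → A' (e x) (e y)) → ∀ (U' : Finset α) (f' : α → ℕ), LW A U' f' →
  ∀ (U : Finset β) (f : β → ℕ), (∀ x, e x ∈ U ↔ x ∈ U') → (∀ x ∈ U', f (e x) ≤ f' x) → LW A' U f

/-- LI (Lister). Proof. Induction on `t`. The damage `|univ \ U|` is `< b^t` (`D < 2K`), so there are live vertices on both sides (`card_side`). If `i = 0` or `j = 0` (in particular
`t = 0`) take `M` = one live vertex with `f = 0`: the condition `1 ≤ f` fails. Otherwise (`i, j ≥ 1`, height `t + 1`, `i + j = t + 2`) let `v ≠ v'` be the two children with the least damage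
`|univ \ ch U v|`; both have damage at most (damage of the block)/(b - 1). `M` = live A vertices of child `v` and live B vertices of child `v'`. Let `I ⊆ M` be independent for `AB`; by `ExpP`
(`AB H (t+1) (cns v x) (cns v' y)` holds if the pair is in `H t`) `4K |I ∩ A(v)| < b^t` or `4K |I ∩ B(v')| < b^t`. First case: `StEM` for `cns v` and the induction hypothesis for `(i-1, j)`,
`U' = ch (U \ I) v`: the damage is at most `damage/(b-1) + b^t/(4K)`, where `damage ≤ (D-t-1) b^(t+1)/(2K)`, and `(D - t - 1)/(b-1) ≤ 1/2`, so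
it is at most `(D-t-1) b^t/(2K) + b^t/(4K) + b^t/(4K) = (D - t) b^t/(2K)`. (`f` does not change on the B vertices of child `v`.) Second case: the same with `cns v'`, `(i, j-1)`. -/
def StLI : Prop := ∀ (b K D : ℕ) (H : Tm b), 1 ≤ K → D + 1 = 2 * K → 4 * K ≤ b →
  (∀ t < D, ExpP K (H t)) → ∀ (t i j : ℕ), t ≤ D → i + j = t + 1 → ∀ (U : Finset (V b t)) (f : V b t → ℕ),
  (∀ x ∈ U, f x ≤ if side t x then j else i) → 2 * K * (univ \ U).card ≤ (D - t) * b ^ t → LW (AB H t) U f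

/-- PO. Proof. `4 * mm κ` is a linear function of `κ`, and `2^κ` grows faster than every polynomial. -/
def StPO : Prop := ∀ p : Polynomial ℕ, ∃ κ : ℕ, 1 ≤ κ ∧ p.eval (4 * mm κ) ≤ KK κ

/-- FI (final form, the frozen statement). Proof. Given `p`, take `κ` from `StPO`, `H` from `StSY`, `e : V (bb κ) (DD κ) ≃ Fin n` (`Fintype.equivFin`),
`G.Adj u v` iff `AB (e.symm u) (e.symm v)` or `AB (e.symm v) (e.symm u)` (irreflexive as in `OF`), `k = 4 mm κ`. `G` is `k`-choosable by `StOF`. `S` = the set of `(U, f)` with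
`¬ LW G.Adj U f`; it is closed by the definition of `LW`. But `LW (AB H D) univ (fun _ => KK κ)` by `StLI` (`t = D`, `i = j = K`, damage 0) and
`StEM` gives `LW G.Adj univ (fun _ => p.eval k)`. -/
def StFI : Prop := ¬ (∃ p : Polynomial ℕ, ∀ n : ℕ, ∀ G : SimpleGraph (Fin n), ∀ k : ℕ,
      (∀ L : Fin n → Finset ℕ, (∀ v, k ≤ (L v).card) →
        ∃ c : Fin n → ℕ, (∀ v, c v ∈ L v) ∧ ∀ u v, G.Adj u v → c u ≠ c v) →
      ∀ S : Set (Finset (Fin n) × (Fin n → ℕ)),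
        (∀ U : Finset (Fin n), ∀ f : Fin n → ℕ,
          (∀ M ⊆ U, M.Nonempty →
            ∃ I ⊆ M, (∀ u ∈ I, ∀ v ∈ I, ¬ G.Adj u v) ∧
              (∀ v ∈ M, 1 ≤ f v) ∧ (∀ v ∈ M \ I, 2 ≤ f v) ∧
              (U \ I, fun v => if v ∈ M then f v - 1 else f v) ∈ S) →
          (U, f) ∈ S) →
        (Finset.univ, fun _ => p.eval k) ∈ S)

end Pool.Agent.Helper43.OL
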